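import Mathlib

set_option autoImplicit false

namespace Pool.Agent.H72.W

/-- the base -/
def bs (n : ℕ) : ℤ := 2 * n + 3

theorem bs_ge (n : ℕ) : 3 ≤ bs n := by unfold bs; omega

theorem bs_pos (n : ℕ) : 0 < bs n := by unfold bs; omega

theorem bsR_ge (n : ℕ) : (3 : ℝ) ≤ (bs n : ℝ) := by exact_mod_cast bs_ge n

theorem bsR_pos (n : ℕ) : (0 : ℝ) < (bs n : ℝ) := by exact_mod_cast bs_pos n

theorem bsR_pow_pos (n k : ℕ) : (0 : ℝ) < (bs n : ℝ) ^ k := pow_pos (bsR_pos n) k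

/-- closed cell of order `k` and index `m` -/
def cl (n k : ℕ) (m : ℤ) (y : ℝ) : Prop :=
  (m : ℝ) ≤ (bs n : ℝ) ^ k * y ∧ (bs n : ℝ) ^ k * y ≤ (m : ℝ) + 1

/-- open cell of order `k` and index `m` -/
def op (n k : ℕ) (m : ℤ) (y : ℝ) : Prop :=
  (m : ℝ) < (bs n : ℝ) ^ k * y ∧ (bs n : ℝ) ^ k * y < (m : ℝ) + 1

/-- last digit odd -/
def od (n : ℕ) (m : ℤ) : Prop := (m % bs n) % 2 = 1

/-- the rank (colour) of the last digit -/
noncomputable def rk (n : ℕ) (m : ℤ) : ℕ := by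
  classical exact if od n m then ((m % bs n + 1) / 2).toNat else 0

theorem op_cl {n k : ℕ} {m : ℤ} {y : ℝ} (h : op n k m y) : cl n k m y := ⟨h.1.le, h.2.le⟩

theorem od_lt {n : ℕ} {m : ℤ} (h : od n m) : 1 ≤ m % bs n ∧ m % bs n ≤ 2 * n + 1 := by
  unfold od at h
  have h1 := Int.emod_lt_of_pos m (bs_pos n)
  have h2 := Int.emod_nonneg m (bs_pos n).ne'
  unfold bs at *
  omega

theorem rk_pos_iff {n : ℕ} {m : ℤ} : 1 ≤ rk n m ↔ od n m := by
  unfold rk
  constructor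
  · intro h
    by_contra hc
    rw [if_neg hc] at h
    omega
  · intro h
    rw [if_pos h]
    have := od_lt h
    omega

theorem rk_le (n : ℕ) (m : ℤ) : rk n m ≤ n + 1 := by
  unfold rk
  split_ifs with h
  · have := od_lt h
    omega
  · omega

theorem emod_digit {n : ℕ} (m d : ℤ) (h0 : 0 ≤ d) (h1 : d < bs n) : (bs n * m + d) % bs n = d := by
  rw [Int.add_comm, Int.add_mul_emod_self_left]
  exact Int.emod_eq_of_lt h0 h1

theorem ediv_digit {n : ℕ} (m d : ℤ) (h0 : 0 ≤ d) (h1 : d < bs n) : (bs n * m + d) / bs n = m := by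
  rw [Int.add_comm, Int.add_mul_ediv_left _ _ (bs_pos n).ne', Int.ediv_eq_zero_of_lt h0 h1, zero_add]

theorem od_digit {n : ℕ} (m d : ℤ) (h0 : 0 ≤ d) (h1 : d < bs n) :
    od n (bs n * m + d) ↔ d % 2 = 1 := by
  unfold od
  rw [emod_digit m d h0 h1]

theorem rk_digit {n c : ℕ} (m : ℤ) (h0 : 1 ≤ c) (h1 : c ≤ n + 1) :
    rk n (bs n * m + (2 * c - 1)) = c := by
  have h2 : (0 : ℤ) ≤ 2 * c - 1 := by omega
  have h3 : (2 * c - 1 : ℤ) < bs n := by unfold bs; omega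
  have h4 : od n (bs n * m + (2 * c - 1)) := by
    rw [od_digit m _ h2 h3]; omega
  unfold rk
  rw [if_pos h4, emod_digit m _ h2 h3]
  omega

theorem cast_div_le {n d : ℕ} (m : ℤ) : ((m / bs n ^ d : ℤ) : ℝ) * (bs n : ℝ) ^ d ≤ m := by
  have h := Int.ediv_mul_le m (b := bs n ^ d) (pow_pos (bs_pos n) d).ne'
  exact_mod_cast h

theorem cast_lt_div {n d : ℕ} (m : ℤ) :
    (m : ℝ) + 1 ≤ (((m / bs n ^ d : ℤ) : ℝ) + 1) * (bs n : ℝ) ^ d := by
  have h := Int.lt_ediv_add_one_mul_self m (b := bs n ^ d) (pow_pos (bs_pos n) d)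
  have h' : m + 1 ≤ (m / bs n ^ d + 1) * bs n ^ d := h
  exact_mod_cast h'

theorem nest_cl {n k d : ℕ} {m : ℤ} {y : ℝ} (h : cl n (k + d) m y) : cl n k (m / bs n ^ d) y := by
  obtain ⟨h1, h2⟩ := h
  have h3 := cast_div_le (n := n) (d := d) m
  have h4 := cast_lt_div (n := n) (d := d) m
  have hp := bsR_pow_pos n d
  rw [pow_add] at h1 h2
  constructor
  · apply le_of_mul_le_mul_right _ hp
    calc _ ≤ (m : ℝ) := h3
      _ ≤ _ := h1
      _ = _ := by ring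
  · apply le_of_mul_le_mul_right _ hp
    calc (bs n : ℝ) ^ k * y * (bs n : ℝ) ^ d = (bs n : ℝ) ^ k * (bs n : ℝ) ^ d * y := by ring
      _ ≤ (m : ℝ) + 1 := h2
      _ ≤ _ := h4

theorem nest_op {n k d : ℕ} {m : ℤ} {y : ℝ} (h : op n (k + d) m y) : op n k (m / bs n ^ d) y := by
  obtain ⟨h1, h2⟩ := h
  have h3 := cast_div_le (n := n) (d := d) m
  have h4 := cast_lt_div (n := n) (d := d) m
  have hp := bsR_pow_pos n d
  rw [pow_add] at h1 h2
  constructor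
  · apply lt_of_mul_lt_mul_right _ hp.le
    calc _ ≤ (m : ℝ) := h3
      _ < _ := h1
      _ = _ := by ring
  · apply lt_of_mul_lt_mul_right _ hp.le
    calc (bs n : ℝ) ^ k * y * (bs n : ℝ) ^ d = (bs n : ℝ) ^ k * (bs n : ℝ) ^ d * y := by ring
      _ < (m : ℝ) + 1 := h2
      _ ≤ _ := h4

theorem nest_cl' {n k k' : ℕ} {m : ℤ} {y : ℝ} (hk : k ≤ k') (h : cl n k' m y) :
    cl n k (m / bs n ^ (k' - k)) y := by
  apply nest_cl
  rwa [Nat.add_sub_cancel' hk]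

theorem nest_op' {n k k' : ℕ} {m : ℤ} {y : ℝ} (hk : k ≤ k') (h : op n k' m y) :
    op n k (m / bs n ^ (k' - k)) y := by
  apply nest_op
  rwa [Nat.add_sub_cancel' hk]

theorem uniq {n k : ℕ} {m m' : ℤ} {y : ℝ} (h : op n k m y) (h' : cl n k m' y) : m = m' := by
  obtain ⟨h1, h2⟩ := h
  obtain ⟨h3, h4⟩ := h'
  have h5 : (m : ℝ) < (m' : ℝ) + 1 := lt_of_lt_of_le h1 h4
  have h6 : (m' : ℝ) < (m : ℝ) + 1 := lt_of_le_of_lt h3 h2
  have h7 : m < m' + 1 := by exact_mod_cast h5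
  have h8 : m' < m + 1 := by exact_mod_cast h6
  omega

theorem not_op_iff {n k : ℕ} {m : ℤ} {y : ℝ} (h : cl n k m y) (h' : ¬ op n k m y) :
    (bs n : ℝ) ^ k * y = m ∨ (bs n : ℝ) ^ k * y = m + 1 := by
  by_contra hc
  push Not at hc
  exact h' ⟨lt_of_le_of_ne h.1 (Ne.symm hc.1), lt_of_le_of_ne h.2 hc.2⟩

theorem int_of_bd {n k : ℕ} {m : ℤ} {y : ℝ}
    (h : (bs n : ℝ) ^ k * y = m ∨ (bs n : ℝ) ^ k * y = m + 1) :
    ∃ M : ℤ, (bs n : ℝ) ^ k * y = M := by
  rcases h with h | h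
  · exact ⟨m, h⟩
  · exact ⟨m + 1, by push_cast; exact h⟩

theorem bd_cl {n k : ℕ} {m : ℤ} {y : ℝ}
    (h : (bs n : ℝ) ^ k * y = m ∨ (bs n : ℝ) ^ k * y = m + 1) : cl n k m y := by
  rcases h with h | h
  · exact ⟨h.ge, by rw [h]; linarith⟩
  · exact ⟨by rw [h]; linarith, h.le⟩

theorem bd_not_op {n k : ℕ} {m : ℤ} {y : ℝ}
    (h : (bs n : ℝ) ^ k * y = m ∨ (bs n : ℝ) ^ k * y = m + 1) : ¬ op n k m y := by
  rintro ⟨h1, h2⟩
  rcases h with h | h <;> rw [h] at h1 h2 <;> linarith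

/-- multiples of `b^{-k}` lie in no closed odd cell of order `> k` -/
theorem bd {n k k' : ℕ} {M m' : ℤ} {y : ℝ} (hM : (bs n : ℝ) ^ k * y = M) (hk : k < k')
    (h : cl n k' m' y) : ¬ od n m' := by
  intro ho
  obtain ⟨h1, h2⟩ := h
  obtain ⟨d, rfl⟩ : ∃ d, k' = k + 1 + d := ⟨k' - (k + 1), by omega⟩
  have h3 : (bs n : ℝ) ^ (k + 1 + d) * y = ((bs n * (bs n ^ d * M) : ℤ) : ℝ) := by
    push_cast
    rw [← hM]; ring
  rw [h3] at h1 h2
  have h4 : m' ≤ bs n * (bs n ^ d * M) := by exact_mod_cast h1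
  have h5 : bs n * (bs n ^ d * M) ≤ m' + 1 := by exact_mod_cast h2
  set N := bs n ^ d * M
  obtain ⟨h6, h7⟩ := od_lt ho
  have h8 : bs n * (m' / bs n) + m' % bs n = m' := Int.mul_ediv_add_emod m' (bs n)
  set r := m' % bs n
  set Q := m' / bs n
  have hb := bs_pos n
  have h9 : bs n * Q < bs n * N := by linarith
  have h10 : Q < N := lt_of_mul_lt_mul_left h9 hb.le
  have h11 : bs n * N ≤ bs n * Q + (2 * n + 2) := by linarith
  have h12 : bs n * (Q + 1) ≤ bs n * N := mul_le_mul_of_nonneg_left (by omega) hb.le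
  have h13 : bs n * Q + bs n ≤ bs n * Q + (2 * n + 2) := by linarith
  unfold bs at h13
  omega

theorem od_adj {n : ℕ} {m : ℤ} (h : od n m) : ¬ od n (m + 1) ∧ ¬ od n (m - 1) ∧
    (m + 1) / bs n = m / bs n ∧ (m - 1) / bs n = m / bs n := by
  obtain ⟨h1, h2⟩ := od_lt h
  have h3 : bs n * (m / bs n) + m % bs n = m := Int.mul_ediv_add_emod m (bs n)
  have h4 : m + 1 = bs n * (m / bs n) + (m % bs n + 1) := by linarith
  have h5 : m - 1 = bs n * (m / bs n) + (m % bs n - 1) := by linarith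
  have h6 : (0 : ℤ) ≤ m % bs n + 1 := by omega
  have h7 : m % bs n + 1 < bs n := by
    have : bs n = 2 * n + 3 := rfl
    omega
  have h8 : (0 : ℤ) ≤ m % bs n - 1 := by omega
  have h9 : m % bs n - 1 < bs n := by omega
  unfold od at h
  refine ⟨?_, ?_, ?_, ?_⟩
  · rw [h4, od_digit _ _ h6 h7]; omega
  · rw [h5, od_digit _ _ h8 h9]; omega
  · conv_lhs => rw [h4]
    exact ediv_digit _ _ h6 h7
  · conv_lhs => rw [h5]
    exact ediv_digit _ _ h8 h9

/-- Closed odd cells are nested or disjoint. -/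
theorem disj {n k1 k2 : ℕ} {m1 m2 : ℤ} {y : ℝ} (o1 : od n m1) (o2 : od n m2) (h1 : cl n k1 m1 y)
    (h2 : cl n k2 m2 y) (hk : k1 ≤ k2) : m2 / bs n ^ (k2 - k1) = m1 := by
  by_cases h : op n k1 m1 y
  · exact (uniq h (nest_cl' hk h2)).symm
  · have h3 := not_op_iff h1 h
    obtain ⟨M, hM⟩ := int_of_bd h3
    rcases hk.lt_or_eq with hlt | heq
    · exact absurd o2 (bd hM hlt h2)
    · subst heq
      rw [Nat.sub_self, pow_zero, Int.ediv_one]
      obtain ⟨a1, a2⟩ := h1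
      obtain ⟨b1, b2⟩ := h2
      have c1 : m1 ≤ m2 + 1 := by exact_mod_cast a1.trans b2
      have c2 : m2 ≤ m1 + 1 := by exact_mod_cast b1.trans a2
      by_contra hne
      rcases (by omega : m1 = m2 + 1 ∨ m2 = m1 + 1) with h | h
      · rw [h] at o1; exact (od_adj o2).1 o1
      · rw [h] at o2; exact (od_adj o1).1 o2

/-- maximal odd cells of order `> k` -/
def Gap (n k k' : ℕ) (m' : ℤ) : Prop :=
  k < k' ∧ od n m' ∧ ∀ i, k < i → i < k' → ¬ od n (m' / bs n ^ (k' - i))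

/-- points in no open odd cell of order `> k` -/
def Zs (n k : ℕ) (y : ℝ) : Prop := ∀ k' m', k < k' → od n m' → ¬ op n k' m' y

/-- strictly between -/
def btw (y z v : ℝ) : Prop := (y < z ∧ z < v) ∨ (v < z ∧ z < y)

theorem btw_symm {y z v : ℝ} (h : btw y z v) : btw v z y := h.symm

theorem btw_ne {y z v : ℝ} (h : btw y z v) : v ≠ y := by
  rintro rfl
  rcases h with h | h <;> linarith [h.1, h.2]

theorem gap_of_not_Zs {n k : ℕ} {y : ℝ} (h : ¬ Zs n k y) : ∃ k' m', Gap n k k' m' ∧ op n k' m' y := by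
  classical
  unfold Zs at h
  push Not at h
  have hex : ∃ k', ∃ m', k < k' ∧ od n m' ∧ op n k' m' y := h
  obtain ⟨m', h1, h2, h3⟩ := Nat.find_spec hex
  refine ⟨Nat.find hex, m', ⟨h1, h2, ?_⟩, h3⟩
  intro i hi hi' ho
  exact Nat.find_min hex hi' ⟨_, hi, ho, nest_op' hi'.le h3⟩

theorem gap_unique_aux {n k k1 k2 : ℕ} {m1 m2 : ℤ} {y : ℝ} (g1 : Gap n k k1 m1) (g2 : Gap n k k2 m2)
    (h1 : cl n k1 m1 y) (h2 : cl n k2 m2 y) (hk : k1 ≤ k2) : k1 = k2 ∧ m1 = m2 := by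
  have h3 := disj g1.2.1 g2.2.1 h1 h2 hk
  rcases hk.lt_or_eq with hlt | heq
  · exact absurd (by rw [h3]; exact g1.2.1) (g2.2.2 k1 g1.1 hlt)
  · subst heq
    rw [Nat.sub_self, pow_zero, Int.ediv_one] at h3
    exact ⟨rfl, h3.symm⟩

theorem gap_unique {n k k1 k2 : ℕ} {m1 m2 : ℤ} {y : ℝ} (g1 : Gap n k k1 m1) (g2 : Gap n k k2 m2)
    (h1 : cl n k1 m1 y) (h2 : cl n k2 m2 y) : k1 = k2 ∧ m1 = m2 := by
  rcases le_total k1 k2 with h | h
  · exact gap_unique_aux g1 g2 h1 h2 h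
  · obtain ⟨a, b⟩ := gap_unique_aux g2 g1 h2 h1 h
    exact ⟨a.symm, b.symm⟩

theorem zs_of_int {n k : ℕ} {M : ℤ} {y : ℝ} (h : (bs n : ℝ) ^ k * y = M) : Zs n k y :=
  fun _ _ hk ho hop => bd h hk (op_cl hop) ho

theorem zs_mono {n k k' : ℕ} {y : ℝ} (h : Zs n k y) (hk : k ≤ k') : Zs n k' y :=
  fun k2 m2 h2 => h k2 m2 (by omega)

theorem zs_gap_bd {n k k' : ℕ} {m' : ℤ} {y : ℝ} (g : Gap n k k' m')
    (h : (bs n : ℝ) ^ k' * y = m' ∨ (bs n : ℝ) ^ k' * y = m' + 1) : Zs n k y := by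
  intro k2 m2 hk2 ho2 hop
  obtain ⟨M, hM⟩ := int_of_bd h
  rcases lt_or_ge k' k2 with hlt | hle
  · exact bd hM hlt (op_cl hop) ho2
  · have h3 := disj ho2 g.2.1 (op_cl hop) (bd_cl h) hle
    rcases hle.lt_or_eq with hlt | heq
    · exact g.2.2 k2 hk2 hlt (by rw [h3]; exact ho2)
    · subst heq
      rw [Nat.sub_self, pow_zero, Int.ediv_one] at h3
      subst h3
      exact bd_not_op h hop

/-- an open interval without points of `Zs` lies in a gap -/
theorem gap_of_interval {n k : ℕ} {u v : ℝ} (huv : u < v) (h : ∀ z, u < z → z < v → ¬ Zs n k z) :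
    ∃ k' m', Gap n k k' m' ∧ ∀ y, u ≤ y → y ≤ v → cl n k' m' y := by
  have hp := h ((u + v) / 2) (by linarith) (by linarith)
  obtain ⟨k', m', g, hop⟩ := gap_of_not_Zs hp
  refine ⟨k', m', g, ?_⟩
  have hB := bsR_pow_pos n k'
  obtain ⟨h1, h2⟩ := hop
  have e1 : (bs n : ℝ) ^ k' * (m' / (bs n : ℝ) ^ k') = m' := by field_simp
  have e2 : (bs n : ℝ) ^ k' * ((m' + 1) / (bs n : ℝ) ^ k') = m' + 1 := by field_simp
  have l1 : (m' : ℝ) / (bs n : ℝ) ^ k' ≤ u := by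
    by_contra hc
    push Not at hc
    refine h _ hc ?_ (zs_gap_bd g (Or.inl e1))
    have : (m' : ℝ) / (bs n : ℝ) ^ k' < (u + v) / 2 := by
      rw [div_lt_iff₀ hB]; linarith
    linarith
  have l2 : v ≤ ((m' : ℝ) + 1) / (bs n : ℝ) ^ k' := by
    by_contra hc
    push Not at hc
    refine h _ ?_ hc (zs_gap_bd g (Or.inr e2))
    have : (u + v) / 2 < ((m' : ℝ) + 1) / (bs n : ℝ) ^ k' := by
      rw [lt_div_iff₀ hB]; linarith
    linarith
  intro y hu hv
  constructor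
  · have := l1.trans hu
    rw [div_le_iff₀ hB] at this
    linarith
  · have := hv.trans l2
    rw [le_div_iff₀ hB] at this
    linarith

theorem btw_or_gap {n k : ℕ} {y v : ℝ} (hv : v ≠ y) :
    (∃ z, Zs n k z ∧ btw y z v) ∨ ∃ k' m', Gap n k k' m' ∧ cl n k' m' y ∧ cl n k' m' v := by
  by_cases h : ∃ z, Zs n k z ∧ btw y z v
  · exact Or.inl h
  · right
    push Not at h
    rcases lt_or_gt_of_ne hv with hlt | hgt
    · obtain ⟨k', m', g, hc⟩ := gap_of_interval hlt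
        (fun z hz1 hz2 hz => h z hz (Or.inr ⟨hz1, hz2⟩))
      exact ⟨k', m', g, hc y hlt.le le_rfl, hc v le_rfl hlt.le⟩
    · obtain ⟨k', m', g, hc⟩ := gap_of_interval hgt
        (fun z hz1 hz2 hz => h z hz (Or.inl ⟨hz1, hz2⟩))
      exact ⟨k', m', g, hc y le_rfl hgt.le, hc v hgt.le le_rfl⟩

theorem adjA {n k : ℕ} {M : ℤ} {y v : ℝ} (h : (bs n : ℝ) ^ k * y = M) (hv : v ≠ y) :
    ∃ z, Zs n k z ∧ btw y z v := by
  rcases btw_or_gap hv with h' | ⟨k', m', g, hc, -⟩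
  · exact h'
  · exact absurd g.2.1 (bd h g.1 hc)

theorem adjB {n k k' : ℕ} {m' : ℤ} {y v : ℝ} (g : Gap n k k' m')
    (h : (bs n : ℝ) ^ k' * y = m' ∨ (bs n : ℝ) ^ k' * y = m' + 1) (hv : ¬ cl n k' m' v) :
    ∃ z, Zs n k z ∧ btw y z v := by
  have hvy : v ≠ y := by
    rintro rfl
    exact hv (bd_cl h)
  rcases btw_or_gap hvy with h' | ⟨k2, m2, g2, hc, hc2⟩
  · exact h'
  · obtain ⟨rfl, rfl⟩ := gap_unique g g2 (bd_cl h) hc
    exact absurd hc2 hv

theorem adjC {n k : ℕ} {y v : ℝ} (h : ∀ k' m', Gap n k k' m' → ¬ cl n k' m' y) (hv : v ≠ y) :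
    ∃ z, Zs n k z ∧ btw y z v := by
  rcases btw_or_gap hv with h' | ⟨k', m', g, hc, -⟩
  · exact h'
  · exact absurd hc (h k' m' g)

/-- points of `Zs k` have expansions with even digits beyond `k` -/
theorem even_cell {n k : ℕ} {y : ℝ} (h : Zs n k y) (i : ℕ) (hi : k ≤ i) :
    ∃ m, cl n i m y ∧ ∀ j, k < j → j ≤ i → ¬ od n (m / bs n ^ (i - j)) := by
  induction i, hi using Nat.le_induction with
  | base =>
    refine ⟨⌊(bs n : ℝ) ^ k * y⌋, ⟨Int.floor_le _, (Int.lt_floor_add_one _).le⟩, ?_⟩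
    intro j hj hj'
    omega
  | succ i hi ih =>
    obtain ⟨m, ⟨h1, h2⟩, hm⟩ := ih
    have hb := bsR_pos n
    -- a subcell containing the point
    have hsub : ∃ m'', cl n (i + 1) m'' y ∧ m'' / bs n = m := by
      set t := (bs n : ℝ) ^ i * y with ht
      have e : (bs n : ℝ) ^ (i + 1) * y = (bs n : ℝ) * t := by rw [ht]; ring
      by_cases hlt : t < m + 1
      · refine ⟨⌊(bs n : ℝ) * t⌋, ?_, ?_⟩
        · rw [cl, e]
          exact ⟨Int.floor_le _, (Int.lt_floor_add_one _).le⟩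
        · have a1 : bs n * m ≤ ⌊(bs n : ℝ) * t⌋ := by
            rw [Int.le_floor]
            push_cast
            exact mul_le_mul_of_nonneg_left h1 hb.le
          have a2 : ⌊(bs n : ℝ) * t⌋ < bs n * m + bs n := by
            rw [Int.floor_lt]
            push_cast
            nlinarith
          have : ⌊(bs n : ℝ) * t⌋ = bs n * m + (⌊(bs n : ℝ) * t⌋ - bs n * m) := by ring
          rw [this]
          exact ediv_digit _ _ (by omega) (by omega)
      · have hteq : t = m + 1 := le_antisymm h2 (not_lt.1 hlt)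
        refine ⟨bs n * m + (bs n - 1), ?_, ediv_digit _ _ (by have := bs_ge n; omega) (by omega)⟩
        rw [cl, e, hteq]
        push_cast
        constructor <;> nlinarith
    obtain ⟨m1, hm1, hd1⟩ := hsub
    have hgood : ∃ m'', cl n (i + 1) m'' y ∧ m'' / bs n = m ∧ ¬ od n m'' := by
      by_cases ho : od n m1
      · have hno := h (i + 1) m1 (by omega) ho
        obtain ⟨q1, q2, q3, q4⟩ := od_adj ho
        rcases not_op_iff hm1 hno with he | he
        · refine ⟨m1 - 1, ?_, by rw [q4, hd1], q2⟩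
          rw [cl, he]
          push_cast
          constructor <;> linarith
        · refine ⟨m1 + 1, ?_, by rw [q3, hd1], q1⟩
          rw [cl, he]
          push_cast
          constructor <;> linarith
      · exact ⟨m1, hm1, hd1, ho⟩
    obtain ⟨m2, hm2, hd2, ho2⟩ := hgood
    refine ⟨m2, hm2, ?_⟩
    intro j hj hj'
    rcases Nat.lt_or_ge i j with hij | hij
    · have : i + 1 - j = 0 := by omega
      rw [this, pow_zero, Int.ediv_one]
      exact ho2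
    · have h3 : i + 1 - j = 1 + (i - j) := by omega
      rw [h3, pow_add, pow_one, ← Int.ediv_ediv_of_nonneg (bs_pos n).le, hd2]
      exact hm j hj hij

theorem cl_dist {n i : ℕ} {m : ℤ} {y p ε : ℝ} (hy : cl n i m y) (hp : cl n i m p)
    (hε : 1 < (bs n : ℝ) ^ i * ε) : |y - p| < ε := by
  have hB := bsR_pow_pos n i
  obtain ⟨a1, a2⟩ := hy
  obtain ⟨b1, b2⟩ := hp
  rw [abs_lt]
  constructor
  · apply lt_of_mul_lt_mul_left _ hB.le
    nlinarith
  · apply lt_of_mul_lt_mul_left _ hB.le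
    nlinarith

theorem exists_order (n N : ℕ) {ε : ℝ} (hε : 0 < ε) : ∃ i, N ≤ i ∧ 1 < (bs n : ℝ) ^ i * ε := by
  obtain ⟨i, hi⟩ := pow_unbounded_of_one_lt (1 / ε) (show (1 : ℝ) < bs n by linarith [bsR_ge n])
  refine ⟨max N i, le_max_left _ _, ?_⟩
  have h1 : (bs n : ℝ) ^ i ≤ (bs n : ℝ) ^ (max N i) :=
    pow_le_pow_right₀ (by linarith [bsR_ge n]) (le_max_right _ _)
  rw [div_lt_iff₀ hε] at hi
  nlinarith

/-- a cell with even digits beyond `k` inside a neighbourhood of a point of `Zs k` -/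
theorem even_cell_in {n k N : ℕ} {p u v : ℝ} (h : Zs n k p) (hu : u < p) (hv : p < v) :
    ∃ i m, k ≤ i ∧ N ≤ i ∧ cl n i m p ∧ (∀ y, cl n i m y → u < y ∧ y < v) ∧
      ∀ j, k < j → j ≤ i → ¬ od n (m / bs n ^ (i - j)) := by
  obtain ⟨i, hi, hε⟩ := exists_order n (max k N) (show 0 < min (p - u) (v - p) by
    exact lt_min (by linarith) (by linarith))
  obtain ⟨m, hm, hev⟩ := even_cell h i (le_trans (le_max_left _ _) hi)
  refine ⟨i, m, le_trans (le_max_left _ _) hi, le_trans (le_max_right _ _) hi, hm, ?_, hev⟩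
  intro y hy
  have := cl_dist hy hm hε
  rw [abs_lt, lt_min_iff] at this
  have h1 : |y - p| < min (p - u) (v - p) := cl_dist hy hm hε
  have h2 := lt_of_lt_of_le h1 (min_le_left _ _)
  have h3 := lt_of_lt_of_le h1 (min_le_right _ _)
  rw [abs_lt] at h2 h3
  constructor <;> linarith

theorem gap_child {n k i : ℕ} {m d : ℤ} (hi : k ≤ i)
    (hev : ∀ j, k < j → j ≤ i → ¬ od n (m / bs n ^ (i - j))) (h0 : 0 ≤ d) (h1 : d < bs n)
    (h2 : d % 2 = 1) : Gap n k (i + 1) (bs n * m + d) := by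
  refine ⟨by omega, (od_digit m d h0 h1).2 h2, ?_⟩
  intro j hj hj'
  have h3 : i + 1 - j = 1 + (i - j) := by omega
  rw [h3, pow_add, pow_one, ← Int.ediv_ediv_of_nonneg (bs_pos n).le, ediv_digit m d h0 h1]
  exact hev j hj (by omega)

/-- every neighbourhood of a point of `Zs k` contains gaps of every colour -/
theorem gap_in {n k c N : ℕ} {p u v : ℝ} (h : Zs n k p) (hu : u < p) (hv : p < v) (hc : 1 ≤ c)
    (hc' : c ≤ n + 1) :
    ∃ k' m', Gap n k k' m' ∧ N ≤ k' ∧ rk n m' = c ∧ ∀ y, cl n k' m' y → u < y ∧ y < v := by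
  obtain ⟨i, m, hi, hN, -, hin, hev⟩ := even_cell_in (N := N) h hu hv
  have h2 : (0 : ℤ) ≤ 2 * c - 1 := by omega
  have h3 : (2 * c - 1 : ℤ) < bs n := by unfold bs; omega
  refine ⟨i + 1, bs n * m + (2 * c - 1), gap_child hi hev h2 h3 (by omega), by omega,
    rk_digit m hc hc', ?_⟩
  intro y hy
  apply hin
  have := nest_cl (d := 1) hy
  rwa [pow_one, ediv_digit _ _ h2 h3] at this

end Pool.Agent.H72.W
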