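import Mathlib
import Pool.Agent.H72.W.Cells

set_option autoImplicit false

namespace Pool.Agent.H72.W

/-- `y` lies in open cells of rank at least `j` and arbitrarily large order -/
def Lv (n j : ℕ) (y : ℝ) : Prop := ∀ K, ∃ k m, K < k ∧ j ≤ rk n m ∧ op n k m y

/-- the level of `y` is odd -/
def OddLev (n : ℕ) (y : ℝ) : Prop := ∃ j, j % 2 = 1 ∧ Lv n j y ∧ ¬ Lv n (j + 1) y

theorem zs_not_lv {n k j : ℕ} {y : ℝ} (h : Zs n k y) (hj : 1 ≤ j) : ¬ Lv n j y := by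
  intro hl
  obtain ⟨k', m', hk, hr, ho⟩ := hl k
  exact h k' m' hk (rk_pos_iff.1 (hj.trans hr)) ho

theorem zs_not_oddLev {n k : ℕ} {y : ℝ} (h : Zs n k y) : ¬ OddLev n y := by
  rintro ⟨j, hj, h1, -⟩
  exact zs_not_lv h (by omega) h1

theorem lv_anti {n j j' : ℕ} {y : ℝ} (h : Lv n j y) (hj : j' ≤ j) : Lv n j' y := by
  intro K
  obtain ⟨k', m', hk, hr, ho⟩ := h K
  exact ⟨k', m', hk, hj.trans hr, ho⟩

theorem lv_le {n j : ℕ} {y : ℝ} (h : Lv n j y) : j ≤ n + 1 := by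
  obtain ⟨k', m', hk, hr, ho⟩ := h 0
  exact hr.trans (rk_le n m')

theorem oddLev_congr {n : ℕ} {y y' : ℝ} (h : ∀ j, 1 ≤ j → (Lv n j y ↔ Lv n j y')) :
    OddLev n y ↔ OddLev n y' := by
  constructor
  · rintro ⟨j, hj, h1, h2⟩
    exact ⟨j, hj, (h j (by omega)).1 h1, fun h3 => h2 ((h (j + 1) (by omega)).2 h3)⟩
  · rintro ⟨j, hj, h1, h2⟩
    exact ⟨j, hj, (h j (by omega)).2 h1, fun h3 => h2 ((h (j + 1) (by omega)).1 h3)⟩

theorem exists_level {n : ℕ} {y : ℝ} (h : ∀ K, ¬ Zs n K y) :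
    ∃ j, 1 ≤ j ∧ Lv n j y ∧ ¬ Lv n (j + 1) y := by
  classical
  have h1 : Lv n 1 y := by
    intro K
    obtain ⟨k', m', g, ho⟩ := gap_of_not_Zs (h K)
    exact ⟨k', m', g.1, rk_pos_iff.2 g.2.1, ho⟩
  have hex : ∃ j, ¬ Lv n (j + 1) y := ⟨n + 1, fun h => by have := lv_le h; omega⟩
  refine ⟨Nat.find hex, ?_, ?_, Nat.find_spec hex⟩
  · by_contra hc
    have h0 : Nat.find hex = 0 := by omega
    have := Nat.find_spec hex
    rw [h0] at this
    exact this h1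
  · rcases Nat.eq_zero_or_pos (Nat.find hex) with h0 | h0
    · have := Nat.find_spec hex
      rw [h0] at this
      exact absurd h1 this
    · have := Nat.find_min hex (Nat.sub_lt h0 one_pos)
      have h3 : Nat.find hex - 1 + 1 = Nat.find hex := by omega
      have h4 := not_not.1 this
      rwa [h3] at h4

theorem bound_of_not_lv {n j : ℕ} {y : ℝ} (h : ¬ Lv n (j + 1) y) :
    ∃ K, ∀ k m, K < k → op n k m y → rk n m ≤ j := by
  unfold Lv at h
  push Not at h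
  obtain ⟨K, hK⟩ := h
  refine ⟨K, fun k m hk ho => ?_⟩
  by_contra hc
  exact hK k m hk (by omega) ho

/-- if `y` has finite address, beyond some order it lies in no closed odd cell -/
theorem fin_address {n K : ℕ} {y : ℝ} (h : Zs n K y) :
    ∃ K', ∀ k m, K' < k → od n m → ¬ cl n k m y := by
  by_cases hc : ∃ k m, K < k ∧ od n m ∧ cl n k m y
  · obtain ⟨k, m, hk, ho, hcl⟩ := hc
    obtain ⟨M, hM⟩ := int_of_bd (not_op_iff hcl (h k m hk ho))
    exact ⟨k, fun k' m' hk' ho' hcl' => bd hM hk' hcl' ho'⟩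
  · push Not at hc
    exact ⟨K, hc⟩

/-- the point with all digits `d` after the cell `(k, m)` -/
noncomputable def zpt (n k : ℕ) (m d : ℤ) : ℝ := (m + (d : ℝ) / ((bs n : ℝ) - 1)) / (bs n : ℝ) ^ k

/-- indices of the cells of `zpt` -/
def zix (n : ℕ) (m d : ℤ) : ℕ → ℤ
  | 0 => m
  | e + 1 => bs n * zix n m d e + d

theorem zpt_eq (n k : ℕ) (m d : ℤ) (e : ℕ) :
    (bs n : ℝ) ^ (k + e) * zpt n k m d = zix n m d e + (d : ℝ) / ((bs n : ℝ) - 1) := by
  have h1 : (bs n : ℝ) - 1 ≠ 0 := by have := bsR_ge n; linarith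
  have h2 : (bs n : ℝ) ^ k ≠ 0 := (bsR_pow_pos n k).ne'
  induction e with
  | zero =>
    unfold zpt zix
    rw [Nat.add_zero]
    field_simp
  | succ e ih =>
    have : (bs n : ℝ) ^ (k + (e + 1)) * zpt n k m d =
        (bs n : ℝ) * ((bs n : ℝ) ^ (k + e) * zpt n k m d) := by ring
    rw [this, ih, zix]
    push_cast
    field_simp
    ring

theorem zpt_op {n k : ℕ} {m d : ℤ} (h0 : 0 < d) (h1 : d < bs n - 1) (e : ℕ) :
    op n (k + e) (zix n m d e) (zpt n k m d) := by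
  have h2 : (0 : ℝ) < (bs n : ℝ) - 1 := by have := bsR_ge n; linarith
  have h3 : (0 : ℝ) < d := by exact_mod_cast h0
  have h4 : (d : ℝ) < (bs n : ℝ) - 1 := by exact_mod_cast h1
  rw [op, zpt_eq]
  constructor
  · have := div_pos h3 h2
    linarith
  · have : (d : ℝ) / ((bs n : ℝ) - 1) < 1 := by rw [div_lt_one h2]; exact h4
    linarith

theorem zpt_rat (n k : ℕ) (m d : ℤ) : ∃ q : ℚ, zpt n k m d = q := by
  refine ⟨(m + (d : ℚ) / ((bs n : ℚ) - 1)) / (bs n : ℚ) ^ k, ?_⟩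
  unfold zpt
  push_cast
  rfl

theorem zpt_rank {n k c : ℕ} {m : ℤ} (h0 : 1 ≤ c) (h1 : c ≤ n + 1) {k' : ℕ} {m' : ℤ} (hk : k < k')
    (h : cl n k' m' (zpt n k m (2 * c - 1))) : rk n m' = c := by
  have h2 : (0 : ℤ) < 2 * c - 1 := by omega
  have h3 : (2 * c - 1 : ℤ) < bs n - 1 := by unfold bs; omega
  obtain ⟨e, rfl⟩ : ∃ e, k' = k + (e + 1) := ⟨k' - k - 1, by omega⟩
  have h4 := uniq (zpt_op (k := k) (m := m) h2 h3 (e + 1)) h
  rw [← h4, zix]
  exact rk_digit _ h0 h1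

theorem zpt_lv {n k c : ℕ} {m : ℤ} (h0 : 1 ≤ c) (h1 : c ≤ n + 1) (j : ℕ) :
    Lv n j (zpt n k m (2 * c - 1)) ↔ j ≤ c := by
  have h2 : (0 : ℤ) < 2 * c - 1 := by omega
  have h3 : (2 * c - 1 : ℤ) < bs n - 1 := by unfold bs; omega
  constructor
  · intro h
    obtain ⟨k', m', hk, hr, ho⟩ := h k
    rw [zpt_rank h0 h1 hk (op_cl ho)] at hr
    exact hr
  · intro h K
    refine ⟨k + (K + 1), _, by omega, ?_, zpt_op h2 h3 (K + 1)⟩
    rw [zix, rk_digit _ h0 h1]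
    exact h

/-- rational points lying in no closed odd cell, near any point of `Zs` -/
theorem good_rat {n k : ℕ} {p u v : ℝ} (h : Zs n k p) (hu : u < p) (hv : p < v) :
    ∃ y : ℝ, (∃ q : ℚ, y = q) ∧ u < y ∧ y < v ∧ ∀ k' m', k < k' → od n m' → ¬ cl n k' m' y := by
  obtain ⟨i, m, hi, -, -, hin, hev⟩ := even_cell_in (N := 0) h hu hv
  have hb := bsR_ge n
  have hD : (0 : ℝ) < (bs n : ℝ) ^ 2 - 1 := by nlinarith
  set θ : ℝ := 2 / ((bs n : ℝ) ^ 2 - 1) with hθ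
  have hθ0 : 0 < θ := div_pos two_pos hD
  have hθ1 : (bs n : ℝ) * θ < 1 := by
    rw [hθ, mul_div_assoc', div_lt_one hD]
    nlinarith
  have hθ2 : (bs n : ℝ) * ((bs n : ℝ) * θ) = 2 + θ := by
    rw [hθ]
    field_simp
    ring
  have hB := bsR_pow_pos n i
  set y : ℝ := (m + θ) / (bs n : ℝ) ^ i with hy
  have hy0 : (bs n : ℝ) ^ i * y = m + θ := by
    rw [hy]; field_simp
  have horb : ∀ e, ∃ M : ℤ, ((bs n : ℝ) ^ (i + e) * y = M + θ ∨
      (bs n : ℝ) ^ (i + e) * y = M + (bs n : ℝ) * θ) ∧ (0 < e → ¬ od n M) := by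
    intro e
    induction e with
    | zero => exact ⟨m, Or.inl hy0, fun h => absurd h (lt_irrefl 0)⟩
    | succ e ih =>
      obtain ⟨M, hM, -⟩ := ih
      have he : (bs n : ℝ) ^ (i + (e + 1)) * y = (bs n : ℝ) * ((bs n : ℝ) ^ (i + e) * y) := by ring
      rcases hM with hM | hM
      · refine ⟨bs n * M + 0, Or.inr ?_, fun _ => ?_⟩
        · rw [he, hM]; push_cast; ring
        · rw [od_digit M 0 le_rfl (bs_pos n)]; omega
      · refine ⟨bs n * M + 2, Or.inl ?_, fun _ => ?_⟩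
        · rw [he, hM, mul_add, hθ2]; push_cast; ring
        · rw [od_digit M 2 (by omega) (by have := bs_ge n; omega)]; omega
  have hop : ∀ e, ∃ M : ℤ, op n (i + e) M y ∧ (0 < e → ¬ od n M) := by
    intro e
    obtain ⟨M, hM, hM'⟩ := horb e
    refine ⟨M, ?_, hM'⟩
    have h3 : 0 < (bs n : ℝ) * θ := by positivity
    have h4 : θ < 1 := by nlinarith
    rcases hM with hM | hM
    · rw [op, hM]; constructor <;> linarith
    · rw [op, hM]; constructor <;> linarith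
  have hopi : op n i m y := by
    rw [op, hy0]
    constructor
    · linarith
    · nlinarith
  refine ⟨y, ⟨((m : ℚ) + 2 / ((bs n : ℚ) ^ 2 - 1)) / (bs n : ℚ) ^ i, ?_⟩, (hin y (op_cl hopi)).1,
    (hin y (op_cl hopi)).2, ?_⟩
  · rw [hy, hθ]; push_cast; rfl
  · intro k' m' hk ho hcl
    rcases le_or_gt k' i with hle | hgt
    · have := uniq (nest_op' hle hopi) hcl
      rw [← this] at ho
      exact hev k' hk hle ho
    · obtain ⟨e, rfl⟩ : ∃ e, k' = i + e := ⟨k' - i, by omega⟩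
      obtain ⟨M, hM, hM'⟩ := hop e
      have := uniq hM hcl
      rw [← this] at ho
      exact hM' (by omega) ho

end Pool.Agent.H72.W
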