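import Mathlib
import Pool.Agent.H72.W.Level

set_option autoImplicit false

namespace Pool.Agent.H72.W

open Topology Filter

/-- right goodness -/
def RG (n : ℕ) (φ : ℝ → ℝ) (k : ℕ) (a : ℝ) : Prop :=
  ∀ x, a < x → ∃ u, a < u ∧ u < x ∧ ∃ z, Zs n k z ∧ btw (φ a) z (φ u)

/-- left goodness -/
def LG (n : ℕ) (φ : ℝ → ℝ) (k : ℕ) (b : ℝ) : Prop :=
  ∀ x, x < b → ∃ u, x < u ∧ u < b ∧ ∃ z, Zs n k z ∧ btw (φ b) z (φ u)

/-- pieces -/
structure Piece (n : ℕ) (φ : ℝ → ℝ) (k : ℕ) (m : ℤ) (a b : ℝ) : Prop where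
  lt : a < b
  amb : ∀ x, a ≤ x → x ≤ b → cl n k m (φ x)
  za : Zs n k (φ a)
  zb : Zs n k (φ b)
  rg : RG n φ k a
  lg : LG n φ k b

theorem left_edge {C : Set ℝ} (hC : IsClosed C) {a x : ℝ} (hx : x ∈ C)
    (hu : ∃ u, a ≤ u ∧ u ≤ x ∧ u ∉ C) :
    ∃ s, a < s ∧ s ≤ x ∧ (∀ w, s ≤ w → w ≤ x → w ∈ C) ∧ ∀ w, w < s → ∃ u, w < u ∧ u < s ∧ u ∉ C := by
  set S : Set ℝ := {u | a ≤ u ∧ u ≤ x ∧ u ∉ C} with hS
  have hne : S.Nonempty := hu
  have hbdd : BddAbove S := ⟨x, fun u h => h.2.1⟩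
  have h1 : sSup S ≤ x := csSup_le hne (fun u h => h.2.1)
  obtain ⟨u0, hu0⟩ := hu
  have h2 : u0 ≤ sSup S := le_csSup hbdd hu0
  have h3 : ∀ w, sSup S < w → w ≤ x → w ∈ C := by
    intro w hw hwx
    by_contra hc
    have : w ≤ sSup S := le_csSup hbdd ⟨by linarith [hu0.1], hwx, hc⟩
    linarith
  have h4 : sSup S ∈ C := by
    by_contra hc
    have hne' : sSup S ≠ x := fun h => hc (h ▸ hx)
    have hlt : sSup S < x := lt_of_le_of_ne h1 hne'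
    have ho : IsOpen Cᶜ := hC.isOpen_compl
    obtain ⟨ε, hε, hball⟩ := Metric.isOpen_iff.1 ho (sSup S) hc
    have hm : 0 < min (ε / 2) (x - sSup S) := lt_min (by linarith) (by linarith)
    have h5 : sSup S + min (ε / 2) (x - sSup S) ∉ C := by
      apply hball
      rw [Metric.mem_ball, Real.dist_eq]
      have : |sSup S + min (ε / 2) (x - sSup S) - sSup S| = min (ε / 2) (x - sSup S) := by
        rw [add_sub_cancel_left, abs_of_pos hm]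
      rw [this]
      linarith [min_le_left (ε / 2) (x - sSup S)]
    exact h5 (h3 _ (by linarith) (by linarith [min_le_right (ε / 2) (x - sSup S)]))
  refine ⟨sSup S, ?_, h1, ?_, ?_⟩
  · have : u0 ≠ sSup S := by
      rintro rfl
      exact hu0.2.2 h4
    have := lt_of_le_of_ne h2 this
    linarith [hu0.1]
  · intro w hw hwx
    rcases hw.eq_or_lt with h | h
    · rw [← h]; exact h4
    · exact h3 w h hwx
  · intro w hw
    obtain ⟨u, huS, huw⟩ := exists_lt_of_lt_csSup hne hw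
    refine ⟨u, huw, ?_, huS.2.2⟩
    apply lt_of_le_of_ne (le_csSup hbdd huS)
    rintro rfl
    exact huS.2.2 h4

theorem right_edge {C : Set ℝ} (hC : IsClosed C) {b x : ℝ} (hx : x ∈ C)
    (hu : ∃ u, x ≤ u ∧ u ≤ b ∧ u ∉ C) :
    ∃ t, x ≤ t ∧ t < b ∧ (∀ w, x ≤ w → w ≤ t → w ∈ C) ∧ ∀ w, t < w → ∃ u, t < u ∧ u < w ∧ u ∉ C := by
  obtain ⟨u, h1, h2, h3⟩ := hu
  obtain ⟨s, hs1, hs2, hs3, hs4⟩ := left_edge (C := (fun t : ℝ => -t) ⁻¹' C)
    (hC.preimage continuous_neg) (a := -b) (x := -x) (by simpa using hx)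
    ⟨-u, by linarith, by linarith, by simpa using h3⟩
  refine ⟨-s, by linarith, by linarith, ?_, ?_⟩
  · intro w hw hw'
    have := hs3 (-w) (by linarith) (by linarith)
    simpa using this
  · intro w hw
    obtain ⟨u, hu1, hu2, hu3⟩ := hs4 (-w) (by linarith)
    exact ⟨-u, by linarith, by linarith, hu3⟩

theorem isClosed_cl (n k : ℕ) (m : ℤ) {φ : ℝ → ℝ} (hφ : Continuous φ) :
    IsClosed {x | cl n k m (φ x)} := by
  have h : Continuous (fun x => (bs n : ℝ) ^ k * φ x) := continuous_const.mul hφ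
  exact (isClosed_le continuous_const h).inter (isClosed_le h continuous_const)

theorem isOpen_op (n k : ℕ) (m : ℤ) {φ : ℝ → ℝ} (hφ : Continuous φ) :
    IsOpen {x | op n k m (φ x)} := by
  have h : Continuous (fun x => (bs n : ℝ) ^ k * φ x) := continuous_const.mul hφ
  exact (isOpen_lt continuous_const h).inter (isOpen_lt h continuous_const)

/-- boundary of a cell -/
def Bd (n k : ℕ) (m : ℤ) (y : ℝ) : Prop :=
  (bs n : ℝ) ^ k * y = m ∨ (bs n : ℝ) ^ k * y = m + 1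

theorem btw_op {n k : ℕ} {m : ℤ} {y z v : ℝ} (hy : cl n k m y) (hv : cl n k m v) (h : btw y z v) :
    op n k m z := by
  have hB := bsR_pow_pos n k
  obtain ⟨a1, a2⟩ := hy
  obtain ⟨b1, b2⟩ := hv
  rcases h with ⟨h1, h2⟩ | ⟨h1, h2⟩
  · have c1 := mul_lt_mul_of_pos_left h1 hB
    have c2 := mul_lt_mul_of_pos_left h2 hB
    exact ⟨by linarith, by linarith⟩
  · have c1 := mul_lt_mul_of_pos_left h1 hB
    have c2 := mul_lt_mul_of_pos_left h2 hB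
    exact ⟨by linarith, by linarith⟩

variable {n : ℕ} {φ : ℝ → ℝ} {k : ℕ} {m : ℤ} {a b : ℝ}

theorem Piece.exists_left (P : Piece n φ k m a b) {k' : ℕ} {m' : ℤ} (g : Gap n k k' m') {x : ℝ}
    (hx : a < x) : ∃ u, a ≤ u ∧ u ≤ x ∧ ¬ cl n k' m' (φ u) := by
  obtain ⟨u, h1, h2, z, hz, hb⟩ := P.rg x hx
  by_cases ha : cl n k' m' (φ a)
  · refine ⟨u, h1.le, h2.le, fun hu => ?_⟩
    exact hz k' m' g.1 g.2.1 (btw_op ha hu hb)
  · exact ⟨a, le_rfl, hx.le, ha⟩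

theorem Piece.exists_right (P : Piece n φ k m a b) {k' : ℕ} {m' : ℤ} (g : Gap n k k' m') {x : ℝ}
    (hx : x < b) : ∃ u, x ≤ u ∧ u ≤ b ∧ ¬ cl n k' m' (φ u) := by
  obtain ⟨u, h1, h2, z, hz, hb⟩ := P.lg x hx
  by_cases ha : cl n k' m' (φ b)
  · refine ⟨u, h1.le, h2.le, fun hu => ?_⟩
    exact hz k' m' g.1 g.2.1 (btw_op ha hu hb)
  · exact ⟨b, hx.le, le_rfl, ha⟩

/-- component of the preimage of a gap -/
theorem comp_gap (hφ : Continuous φ) (P : Piece n φ k m a b) {x : ℝ} (hax : a < x) (hxb : x < b)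
    {k' : ℕ} {m' : ℤ} (g : Gap n k k' m') (hcl : cl n k' m' (φ x)) :
    ∃ s t, a < s ∧ s ≤ x ∧ x ≤ t ∧ t < b ∧ (∀ w, s ≤ w → w ≤ t → cl n k' m' (φ w)) ∧
      Bd n k' m' (φ s) ∧ Bd n k' m' (φ t) ∧ LG n φ k s ∧ RG n φ k t ∧
      (∀ w, w < s → ∃ u, w < u ∧ u < s ∧ ¬ cl n k' m' (φ u)) ∧
      (∀ w, t < w → ∃ u, t < u ∧ u < w ∧ ¬ cl n k' m' (φ u)) := by
  have hC := isClosed_cl n k' m' hφ
  obtain ⟨s, s1, s2, s3, s4⟩ := left_edge hC (a := a) (x := x) hcl (P.exists_left g hax)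
  obtain ⟨t, t1, t2, t3, t4⟩ := right_edge hC (b := b) (x := x) hcl (P.exists_right g hxb)
  have hbd : ∀ y, cl n k' m' (φ y) → ¬ op n k' m' (φ y) → Bd n k' m' (φ y) :=
    fun y h1 h2 => not_op_iff h1 h2
  have hop := isOpen_op n k' m' hφ
  have bs' : Bd n k' m' (φ s) := by
    apply hbd s (s3 s le_rfl s2)
    intro ho
    obtain ⟨ε, hε, hball⟩ := Metric.isOpen_iff.1 hop s ho
    obtain ⟨u, u1, u2, u3⟩ := s4 (s - ε) (by linarith)
    apply u3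
    apply op_cl
    apply hball
    rw [Metric.mem_ball, Real.dist_eq, abs_lt]
    constructor <;> linarith
  have bt' : Bd n k' m' (φ t) := by
    apply hbd t (t3 t t1 le_rfl)
    intro ho
    obtain ⟨ε, hε, hball⟩ := Metric.isOpen_iff.1 hop t ho
    obtain ⟨u, u1, u2, u3⟩ := t4 (t + ε) (by linarith)
    apply u3
    apply op_cl
    apply hball
    rw [Metric.mem_ball, Real.dist_eq, abs_lt]
    constructor <;> linarith
  refine ⟨s, t, s1, s2, t1, t2, ?_, bs', bt', ?_, ?_, s4, t4⟩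
  · intro w h1 h2
    rcases le_total w x with h | h
    · exact s3 w h1 h
    · exact t3 w h h2
  · intro w hw
    obtain ⟨u, u1, u2, u3⟩ := s4 w hw
    exact ⟨u, u1, u2, adjB g bs' u3⟩
  · intro w hw
    obtain ⟨u, u1, u2, u3⟩ := t4 w hw
    exact ⟨u, u1, u2, adjB g bt' u3⟩

/-- the middle piece -/
theorem mid_piece (hφ : Continuous φ) {s t : ℝ} {k' : ℕ} {m' : ℤ}
    (hcl : ∀ w, s ≤ w → w ≤ t → cl n k' m' (φ w)) (hs : Bd n k' m' (φ s)) (ht : Bd n k' m' (φ t))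
    (hnc : ∃ w, s ≤ w ∧ w ≤ t ∧ φ w ≠ φ s) :
    ∃ s' t', s ≤ s' ∧ s' < t' ∧ t' ≤ t ∧ (∀ w, s ≤ w → w ≤ s' → φ w = φ s) ∧
      (∀ w, t' ≤ w → w ≤ t → φ w = φ t) ∧ Piece n φ k' m' s' t' ∧
      (∀ w, s' < w → ∃ u, s' < u ∧ u < w ∧ φ u ≠ φ s) ∧
      (∀ w, w < t' → ∃ u, w < u ∧ u < t' ∧ φ u ≠ φ t) := by
  obtain ⟨w0, w1, w2, w3⟩ := hnc
  have hst : s ≤ t := w1.trans w2
  obtain ⟨s', s1, s2, s3, s4⟩ := right_edge (C := {u | φ u = φ s}) (isClosed_eq hφ continuous_const)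
    (b := t) (x := s) rfl ⟨w0, w1, w2, w3⟩
  have hex : ∃ u, s ≤ u ∧ u ≤ t ∧ u ∉ {u | φ u = φ t} := by
    by_cases h : φ s = φ t
    · exact ⟨w0, w1, w2, fun h' => w3 (by rw [h]; exact h')⟩
    · exact ⟨s, le_rfl, hst, h⟩
  obtain ⟨t', t1, t2, t3, t4⟩ := left_edge (C := {u | φ u = φ t}) (isClosed_eq hφ continuous_const)
    (a := s) (x := t) rfl hex
  have hs3 : ∀ w, s ≤ w → w ≤ s' → φ w = φ s := s3
  have ht3 : ∀ w, t' ≤ w → w ≤ t → φ w = φ t := t3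
  have hlt : s' < t' := by
    by_contra hc
    push Not at hc
    have e1 : φ t' = φ s := hs3 t' t1.le hc
    have e2 : φ t' = φ t := ht3 t' le_rfl t2
    have e3 : φ s = φ t := e1.symm.trans e2
    rcases le_total w0 s' with h | h
    · exact w3 (hs3 w0 w1 h)
    · exact w3 ((ht3 w0 (hc.trans h) w2).trans e3.symm)
  have es : φ s' = φ s := hs3 s' s1 le_rfl
  have et : φ t' = φ t := ht3 t' le_rfl t2
  obtain ⟨M, hM⟩ := int_of_bd hs
  obtain ⟨M', hM'⟩ := int_of_bd ht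
  refine ⟨s', t', s1, hlt, t2, hs3, ht3, ⟨hlt, ?_, ?_, ?_, ?_, ?_⟩, s4, t4⟩
  · intro x h1 h2
    exact hcl x (s1.trans h1) (h2.trans t2)
  · rw [es]; exact zs_of_int hM
  · rw [et]; exact zs_of_int hM'
  · intro x hx
    obtain ⟨u, u1, u2, u3⟩ := s4 x hx
    refine ⟨u, u1, u2, ?_⟩
    rw [es]
    exact adjA hM u3
  · intro x hx
    obtain ⟨u, u1, u2, u3⟩ := t4 x hx
    refine ⟨u, u1, u2, ?_⟩
    rw [et]
    exact adjA hM' u3

/-- constant component -/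
theorem comp_const (hφ : Continuous φ) (P : Piece n φ k m a b) {x : ℝ} (hax : a < x) (hxb : x < b)
    (hno : ∀ k' m', Gap n k k' m' → ¬ cl n k' m' (φ x)) :
    ∃ s t, a < s ∧ s ≤ x ∧ x ≤ t ∧ t < b ∧ (∀ w, s ≤ w → w ≤ t → φ w = φ x) ∧
      LG n φ k s ∧ RG n φ k t ∧ Zs n k (φ x) ∧
      (∀ w, w < s → ∃ u, w < u ∧ u < s ∧ φ u ≠ φ x) ∧
      (∀ w, t < w → ∃ u, t < u ∧ u < w ∧ φ u ≠ φ x) := by
  have hC : IsClosed {u | φ u = φ x} := isClosed_eq hφ continuous_const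
  have hl : ∃ u, a ≤ u ∧ u ≤ x ∧ u ∉ {u | φ u = φ x} := by
    obtain ⟨u, h1, h2, z, hz, hb⟩ := P.rg x hax
    by_cases ha : φ a = φ x
    · exact ⟨u, h1.le, h2.le, fun h => btw_ne hb (by rw [ha]; exact h)⟩
    · exact ⟨a, le_rfl, hax.le, ha⟩
  have hr : ∃ u, x ≤ u ∧ u ≤ b ∧ u ∉ {u | φ u = φ x} := by
    obtain ⟨u, h1, h2, z, hz, hb⟩ := P.lg x hxb
    by_cases ha : φ b = φ x
    · exact ⟨u, h1.le, h2.le, fun h => btw_ne hb (by rw [ha]; exact h)⟩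
    · exact ⟨b, hxb.le, le_rfl, ha⟩
  obtain ⟨s, s1, s2, s3, s4⟩ := left_edge hC (a := a) (x := x) rfl hl
  obtain ⟨t, t1, t2, t3, t4⟩ := right_edge hC (b := b) (x := x) rfl hr
  have es : φ s = φ x := s3 s le_rfl s2
  have et : φ t = φ x := t3 t t1 le_rfl
  refine ⟨s, t, s1, s2, t1, t2, ?_, ?_, ?_, ?_, s4, t4⟩
  · intro w h1 h2
    rcases le_total w x with h | h
    · exact s3 w h1 h
    · exact t3 w h h2
  · intro w hw
    obtain ⟨u, u1, u2, u3⟩ := s4 w hw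
    refine ⟨u, u1, u2, ?_⟩
    rw [es]
    exact adjC hno u3
  · intro w hw
    obtain ⟨u, u1, u2, u3⟩ := t4 w hw
    refine ⟨u, u1, u2, ?_⟩
    rw [et]
    exact adjC hno u3
  · by_contra hc
    obtain ⟨k', m', g, ho⟩ := gap_of_not_Zs hc
    exact hno k' m' g (op_cl ho)

/-- existence of gaps of every colour inside a piece -/
theorem exists_gap_point (hφ : Continuous φ) (P : Piece n φ k m a b) {c : ℕ} (hc : 1 ≤ c)
    (hc' : c ≤ n + 1) : ∃ x k' m', a < x ∧ x < b ∧ Gap n k k' m' ∧ rk n m' = c ∧ op n k' m' (φ x) := by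
  obtain ⟨u, u1, u2, z, hz, hb⟩ := P.rg b P.lt
  have key : ∀ p q : ℝ, p < z → z < q → (∀ y, p < y → y < q → ∃ x, a < x ∧ x < b ∧ φ x = y) →
      ∃ x k' m', a < x ∧ x < b ∧ Gap n k k' m' ∧ rk n m' = c ∧ op n k' m' (φ x) := by
    intro p q hp hq hsurj
    obtain ⟨k', m', g, -, hr, hin⟩ := gap_in (N := 0) hz hp hq hc hc'
    have hB := bsR_pow_pos n k'
    have e : (bs n : ℝ) ^ k' * ((m' + 1 / 2) / (bs n : ℝ) ^ k') = m' + 1 / 2 := by field_simp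
    have hop : op n k' m' ((m' + 1 / 2) / (bs n : ℝ) ^ k') := by
      rw [op, e]; constructor <;> linarith
    obtain ⟨x, x1, x2, x3⟩ := hsurj _ (hin _ (op_cl hop)).1 (hin _ (op_cl hop)).2
    exact ⟨x, k', m', x1, x2, g, hr, by rw [x3]; exact hop⟩
  rcases hb with ⟨h1, h2⟩ | ⟨h1, h2⟩
  · apply key (φ a) (φ u) h1 h2
    intro y hy1 hy2
    obtain ⟨x, ⟨hx1, hx2⟩, hx3⟩ := intermediate_value_Icc u1.le hφ.continuousOn ⟨hy1.le, hy2.le⟩
    refine ⟨x, lt_of_le_of_ne hx1 ?_, by linarith, hx3⟩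
    rintro rfl
    linarith
  · apply key (φ u) (φ a) h1 h2
    intro y hy1 hy2
    obtain ⟨x, ⟨hx1, hx2⟩, hx3⟩ := intermediate_value_Icc' u1.le hφ.continuousOn ⟨hy1.le, hy2.le⟩
    refine ⟨x, lt_of_le_of_ne hx1 ?_, by linarith, hx3⟩
    rintro rfl
    linarith

end Pool.Agent.H72.W
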