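import Mathlib
import Pool.Agent.H72.W.Piece

set_option autoImplicit false

namespace Pool.Agent.H72.W

open Topology Filter

/-- a rectangle with combinatorial data -/
structure Node where
  l : ℝ
  r : ℝ
  a : ℝ
  b : ℝ
  live : Prop
  kd : ℕ
  md : ℤ
  kc : ℕ
  mc : ℤ

/-- order of rectangles -/
def Node.le (N N' : Node) : Prop := N.r ≤ N'.l ∧ N.b ≤ N'.a

/-- `S` is a chain of rectangles going from one corner of the given rectangle to the other -/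
structure Cov (l r a b : ℝ) (S : Set Node) : Prop where
  lr : l ≤ r
  ab : a ≤ b
  sub : ∀ N ∈ S, l ≤ N.l ∧ N.l ≤ N.r ∧ N.r ≤ r ∧ a ≤ N.a ∧ N.a ≤ N.b ∧ N.b ≤ b
  cd : ∀ y, l ≤ y → y ≤ r → ∃ N ∈ S, N.l ≤ y ∧ y ≤ N.r
  cc : ∀ x, a ≤ x → x ≤ b → ∃ N ∈ S, N.a ≤ x ∧ x ≤ N.b
  cmp : ∀ N1 ∈ S, ∀ N2 ∈ S, N1 = N2 ∨ N1.le N2 ∨ N2.le N1

theorem cov_single (N : Node) (h1 : N.l ≤ N.r) (h2 : N.a ≤ N.b) : Cov N.l N.r N.a N.b {N} where
  lr := h1
  ab := h2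
  sub := by
    rintro _ rfl
    exact ⟨le_rfl, h1, le_rfl, le_rfl, h2, le_rfl⟩
  cd := fun y h3 h4 => ⟨N, rfl, h3, h4⟩
  cc := fun y h3 h4 => ⟨N, rfl, h3, h4⟩
  cmp := by
    rintro _ rfl _ rfl
    exact Or.inl rfl

theorem cov_append {l p r a s b : ℝ} {S1 S2 : Set Node} (h1 : Cov l p a s S1)
    (h2 : Cov p r s b S2) : Cov l r a b (S1 ∪ S2) where
  lr := h1.lr.trans h2.lr
  ab := h1.ab.trans h2.ab
  sub := by
    rintro N (h | h)
    · obtain ⟨a1, a2, a3, a4, a5, a6⟩ := h1.sub N h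
      exact ⟨a1, a2, a3.trans h2.lr, a4, a5, a6.trans h2.ab⟩
    · obtain ⟨a1, a2, a3, a4, a5, a6⟩ := h2.sub N h
      exact ⟨h1.lr.trans a1, a2, a3, h1.ab.trans a4, a5, a6⟩
  cd := by
    intro y h3 h4
    rcases le_total y p with h | h
    · obtain ⟨N, hN, h5⟩ := h1.cd y h3 h
      exact ⟨N, Or.inl hN, h5⟩
    · obtain ⟨N, hN, h5⟩ := h2.cd y h h4
      exact ⟨N, Or.inr hN, h5⟩
  cc := by
    intro y h3 h4
    rcases le_total y s with h | h
    · obtain ⟨N, hN, h5⟩ := h1.cc y h3 h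
      exact ⟨N, Or.inl hN, h5⟩
    · obtain ⟨N, hN, h5⟩ := h2.cc y h h4
      exact ⟨N, Or.inr hN, h5⟩
  cmp := by
    rintro N1 (h | h) N2 (h' | h')
    · exact h1.cmp N1 h N2 h'
    · obtain ⟨a1, a2, a3, a4, a5, a6⟩ := h1.sub N1 h
      obtain ⟨b1, b2, b3, b4, b5, b6⟩ := h2.sub N2 h'
      exact Or.inr (Or.inl ⟨a3.trans b1, a6.trans b4⟩)
    · obtain ⟨a1, a2, a3, a4, a5, a6⟩ := h2.sub N1 h
      obtain ⟨b1, b2, b3, b4, b5, b6⟩ := h1.sub N2 h'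
      exact Or.inr (Or.inr ⟨b3.trans a1, b6.trans a4⟩)
    · exact h2.cmp N1 h N2 h'

theorem cov_replace {l r a b : ℝ} {S S' : Set Node} {M : Node} (h : Cov l r a b S) (hM : M ∈ S)
    (h' : Cov M.l M.r M.a M.b S') : Cov l r a b ((S \ {M}) ∪ S') where
  lr := h.lr
  ab := h.ab
  sub := by
    rintro N (hN | hN)
    · exact h.sub N hN.1
    · obtain ⟨a1, a2, a3, a4, a5, a6⟩ := h'.sub N hN
      obtain ⟨b1, b2, b3, b4, b5, b6⟩ := h.sub M hM
      exact ⟨b1.trans a1, a2, a3.trans b3, b4.trans a4, a5, a6.trans b6⟩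
  cd := by
    intro y h3 h4
    obtain ⟨N, hN, h5⟩ := h.cd y h3 h4
    by_cases hNM : N = M
    · subst hNM
      obtain ⟨N', hN', h6⟩ := h'.cd y h5.1 h5.2
      exact ⟨N', Or.inr hN', h6⟩
    · exact ⟨N, Or.inl ⟨hN, hNM⟩, h5⟩
  cc := by
    intro y h3 h4
    obtain ⟨N, hN, h5⟩ := h.cc y h3 h4
    by_cases hNM : N = M
    · subst hNM
      obtain ⟨N', hN', h6⟩ := h'.cc y h5.1 h5.2
      exact ⟨N', Or.inr hN', h6⟩
    · exact ⟨N, Or.inl ⟨hN, hNM⟩, h5⟩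
  cmp := by
    rintro N1 (h1 | h1) N2 (h2 | h2)
    · exact h.cmp N1 h1.1 N2 h2.1
    · obtain ⟨a1, a2, a3, a4, a5, a6⟩ := h'.sub N2 h2
      rcases h.cmp N1 h1.1 M hM with h3 | h3 | h3
      · exact absurd h3 h1.2
      · exact Or.inr (Or.inl ⟨h3.1.trans a1, h3.2.trans a4⟩)
      · exact Or.inr (Or.inr ⟨a3.trans h3.1, a6.trans h3.2⟩)
    · obtain ⟨a1, a2, a3, a4, a5, a6⟩ := h'.sub N1 h1
      rcases h.cmp N2 h2.1 M hM with h3 | h3 | h3
      · exact absurd h3 h2.2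
      · exact Or.inr (Or.inr ⟨h3.1.trans a1, h3.2.trans a4⟩)
      · exact Or.inr (Or.inl ⟨a3.trans h3.1, a6.trans h3.2⟩)
    · exact h'.cmp N1 h1 N2 h2

theorem cov_ladder_left {p s : ℕ → ℝ} {z u r b : ℝ} {T : ℕ → Set Node} {S : Set Node}
    (hT : ∀ i, Cov (p i) (p (i + 1)) (s i) (s (i + 1)) (T i))
    (hp : Tendsto p atTop (𝓝 z)) (hs : Tendsto s atTop (𝓝 u)) (hS : Cov z r u b S) :
    Cov (p 0) r (s 0) b ((⋃ i, T i) ∪ S) := by
  have mp : Monotone p := monotone_nat_of_le_succ fun i => (hT i).lr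
  have ms : Monotone s := monotone_nat_of_le_succ fun i => (hT i).ab
  have hpz : ∀ i, p i ≤ z := fun i => mp.ge_of_tendsto hp i
  have hsu : ∀ i, s i ≤ u := fun i => ms.ge_of_tendsto hs i
  -- finding the index
  have key : ∀ (f : ℕ → ℝ) (w y : ℝ), Monotone f → Tendsto f atTop (𝓝 w) → f 0 ≤ y → y < w →
      ∃ i, f i ≤ y ∧ y ≤ f (i + 1) := by
    intro f w y _ hf h0 hy
    classical
    have hex : ∃ i, y < f i := (hf.eventually (lt_mem_nhds hy)).exists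
    have h1 := Nat.find_spec hex
    have h2 : Nat.find hex ≠ 0 := by
      intro h
      rw [h] at h1
      linarith
    obtain ⟨i, hi⟩ := Nat.exists_eq_succ_of_ne_zero h2
    refine ⟨i, ?_, ?_⟩
    · have := Nat.find_min hex (m := i) (by omega)
      exact not_lt.1 this
    · rw [hi] at h1; exact h1.le
  refine ⟨(hpz 0).trans hS.lr, (hsu 0).trans hS.ab, ?_, ?_, ?_, ?_⟩
  · rintro N (h | h)
    · obtain ⟨i, hi⟩ := Set.mem_iUnion.1 h
      obtain ⟨a1, a2, a3, a4, a5, a6⟩ := (hT i).sub N hi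
      exact ⟨(mp (Nat.zero_le i)).trans a1, a2, a3.trans ((hpz _).trans hS.lr),
        (ms (Nat.zero_le i)).trans a4, a5, a6.trans ((hsu _).trans hS.ab)⟩
    · obtain ⟨a1, a2, a3, a4, a5, a6⟩ := hS.sub N h
      exact ⟨(hpz 0).trans a1, a2, a3, (hsu 0).trans a4, a5, a6⟩
  · intro y h1 h2
    rcases lt_or_ge y z with h | h
    · obtain ⟨i, hi1, hi2⟩ := key p z y mp hp h1 h
      obtain ⟨N, hN, h5⟩ := (hT i).cd y hi1 hi2
      exact ⟨N, Or.inl (Set.mem_iUnion.2 ⟨i, hN⟩), h5⟩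
    · obtain ⟨N, hN, h5⟩ := hS.cd y h h2
      exact ⟨N, Or.inr hN, h5⟩
  · intro y h1 h2
    rcases lt_or_ge y u with h | h
    · obtain ⟨i, hi1, hi2⟩ := key s u y ms hs h1 h
      obtain ⟨N, hN, h5⟩ := (hT i).cc y hi1 hi2
      exact ⟨N, Or.inl (Set.mem_iUnion.2 ⟨i, hN⟩), h5⟩
    · obtain ⟨N, hN, h5⟩ := hS.cc y h h2
      exact ⟨N, Or.inr hN, h5⟩
  · have hlt : ∀ i j, i < j → ∀ N1 ∈ T i, ∀ N2 ∈ T j, N1.le N2 := by
      intro i j hij N1 h1 N2 h2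
      obtain ⟨a1, a2, a3, a4, a5, a6⟩ := (hT i).sub N1 h1
      obtain ⟨b1, b2, b3, b4, b5, b6⟩ := (hT j).sub N2 h2
      exact ⟨a3.trans ((mp hij).trans b1), a6.trans ((ms hij).trans b4)⟩
    rintro N1 (h1 | h1) N2 (h2 | h2)
    · obtain ⟨i, hi⟩ := Set.mem_iUnion.1 h1
      obtain ⟨j, hj⟩ := Set.mem_iUnion.1 h2
      rcases lt_trichotomy i j with h | h | h
      · exact Or.inr (Or.inl (hlt i j h N1 hi N2 hj))
      · subst h
        exact (hT i).cmp N1 hi N2 hj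
      · exact Or.inr (Or.inr (hlt j i h N2 hj N1 hi))
    · obtain ⟨i, hi⟩ := Set.mem_iUnion.1 h1
      obtain ⟨a1, a2, a3, a4, a5, a6⟩ := (hT i).sub N1 hi
      obtain ⟨b1, b2, b3, b4, b5, b6⟩ := hS.sub N2 h2
      exact Or.inr (Or.inl ⟨a3.trans ((hpz _).trans b1), a6.trans ((hsu _).trans b4)⟩)
    · obtain ⟨i, hi⟩ := Set.mem_iUnion.1 h2
      obtain ⟨a1, a2, a3, a4, a5, a6⟩ := (hT i).sub N2 hi
      obtain ⟨b1, b2, b3, b4, b5, b6⟩ := hS.sub N1 h1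
      exact Or.inr (Or.inr ⟨a3.trans ((hpz _).trans b1), a6.trans ((hsu _).trans b4)⟩)
    · exact hS.cmp N1 h1 N2 h2

/-- reflection of a node -/
def Node.neg (N : Node) : Node := ⟨-N.r, -N.l, -N.b, -N.a, N.live, N.kd, N.md, N.kc, N.mc⟩

theorem Node.neg_neg (N : Node) : N.neg.neg = N := by
  cases N
  simp [Node.neg]

theorem cov_neg {l r a b : ℝ} {S : Set Node} (h : Cov l r a b S) :
    Cov (-r) (-l) (-b) (-a) (Node.neg '' S) where
  lr := neg_le_neg h.lr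
  ab := neg_le_neg h.ab
  sub := by
    rintro _ ⟨N, hN, rfl⟩
    obtain ⟨a1, a2, a3, a4, a5, a6⟩ := h.sub N hN
    exact ⟨neg_le_neg a3, neg_le_neg a2, neg_le_neg a1, neg_le_neg a6, neg_le_neg a5, neg_le_neg a4⟩
  cd := by
    intro y h1 h2
    obtain ⟨N, hN, h3, h4⟩ := h.cd (-y) (by linarith) (by linarith)
    refine ⟨N.neg, ⟨N, hN, rfl⟩, ?_, ?_⟩
    · show -N.r ≤ y; linarith
    · show y ≤ -N.l; linarith
  cc := by
    intro y h1 h2
    obtain ⟨N, hN, h3, h4⟩ := h.cc (-y) (by linarith) (by linarith)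
    refine ⟨N.neg, ⟨N, hN, rfl⟩, ?_, ?_⟩
    · show -N.b ≤ y; linarith
    · show y ≤ -N.a; linarith
  cmp := by
    rintro _ ⟨N1, h1, rfl⟩ _ ⟨N2, h2, rfl⟩
    rcases h.cmp N1 h1 N2 h2 with h3 | h3 | h3
    · exact Or.inl (by rw [h3])
    · exact Or.inr (Or.inr ⟨neg_le_neg h3.1, neg_le_neg h3.2⟩)
    · exact Or.inr (Or.inl ⟨neg_le_neg h3.1, neg_le_neg h3.2⟩)

theorem cov_ladder_right {p s : ℕ → ℝ} {z u l a : ℝ} {T : ℕ → Set Node} {S : Set Node}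
    (hT : ∀ i, Cov (p (i + 1)) (p i) (s (i + 1)) (s i) (T i))
    (hp : Tendsto p atTop (𝓝 z)) (hs : Tendsto s atTop (𝓝 u)) (hS : Cov l z a u S) :
    Cov l (p 0) a (s 0) ((⋃ i, T i) ∪ S) := by
  have h1 := cov_ladder_left (p := fun i => -p i) (s := fun i => -s i) (z := -z) (u := -u)
    (r := -l) (b := -a) (T := fun i => Node.neg '' T i) (S := Node.neg '' S)
    (fun i => cov_neg (hT i)) hp.neg hs.neg (cov_neg hS)
  have h2 := cov_neg h1
  simp only [_root_.neg_neg] at h2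
  convert h2 using 1
  rw [← Set.image_iUnion, ← Set.image_union, ← Set.image_comp]
  have : Node.neg ∘ Node.neg = id := by
    funext N
    exact N.neg_neg
  rw [this, Set.image_id]

/-- symbols of rank at least `j` between orders `k` and `k'` -/
def HS (n k k' : ℕ) (m : ℤ) (j : ℕ) : Prop :=
  ∃ i, k < i ∧ i ≤ k' ∧ j ≤ rk n (m / bs n ^ (k' - i))

theorem hs_self (n k : ℕ) (m : ℤ) (j : ℕ) : ¬ HS n k k m j := by
  rintro ⟨i, h1, h2, -⟩
  omega

theorem hs_anti {n k k' : ℕ} {m : ℤ} {j j' : ℕ} (h : HS n k k' m j) (hj : j' ≤ j) :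
    HS n k k' m j' := by
  obtain ⟨i, h1, h2, h3⟩ := h
  exact ⟨i, h1, h2, hj.trans h3⟩

theorem hs_trans {n k k' k'' : ℕ} {m' m'' : ℤ} (hk : k ≤ k') (hk' : k' ≤ k'')
    (hm : m'' / bs n ^ (k'' - k') = m') (j : ℕ) :
    HS n k k'' m'' j ↔ HS n k k' m' j ∨ HS n k' k'' m'' j := by
  have hdiv : ∀ i, i ≤ k' → m'' / bs n ^ (k'' - i) = m' / bs n ^ (k' - i) := by
    intro i hi
    have : k'' - i = (k'' - k') + (k' - i) := by omega
    rw [this, pow_add, ← Int.ediv_ediv_of_nonneg (pow_pos (bs_pos n) _).le, hm]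
  constructor
  · rintro ⟨i, h1, h2, h3⟩
    rcases le_or_gt i k' with h | h
    · left
      exact ⟨i, h1, h, by rw [← hdiv i h]; exact h3⟩
    · right
      exact ⟨i, h, h2, h3⟩
  · rintro (⟨i, h1, h2, h3⟩ | ⟨i, h1, h2, h3⟩)
    · exact ⟨i, h1, h2.trans hk', by rw [hdiv i h2]; exact h3⟩
    · exact ⟨i, by omega, h2, h3⟩

theorem hs_gap {n k k' : ℕ} {m' : ℤ} (g : Gap n k k' m') {j : ℕ} (hj : 1 ≤ j) :
    HS n k k' m' j ↔ j ≤ rk n m' := by
  constructor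
  · rintro ⟨i, h1, h2, h3⟩
    rcases h2.lt_or_eq with h | h
    · exact absurd (rk_pos_iff.1 (hj.trans h3)) (g.2.2 i h1 h)
    · subst h
      rwa [Nat.sub_self, pow_zero, Int.ediv_one] at h3
  · intro h
    exact ⟨k', g.1, le_rfl, by rwa [Nat.sub_self, pow_zero, Int.ediv_one]⟩

/-- one-sided order relation -/
structure Sub (n k : ℕ) (m : ℤ) (k' : ℕ) (m' : ℤ) : Prop where
  le : k ≤ k'
  od : k < k' → W.od n m'
  nest : m' / bs n ^ (k' - k) = m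

theorem sub_refl (n k : ℕ) (m : ℤ) : Sub n k m k m :=
  ⟨le_rfl, fun h => absurd h (lt_irrefl k), by rw [Nat.sub_self, pow_zero, Int.ediv_one]⟩

theorem sub_trans {n k k' k'' : ℕ} {m m' m'' : ℤ} (h : Sub n k m k' m') (h' : Sub n k' m' k'' m'') :
    Sub n k m k'' m'' := by
  refine ⟨h.le.trans h'.le, ?_, ?_⟩
  · intro hlt
    rcases h'.le.lt_or_eq with h1 | h1
    · exact h'.od h1
    · have h2 := h'.nest
      rw [← h1, Nat.sub_self, pow_zero, Int.ediv_one] at h2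
      rw [h2]
      exact h.od (by omega)
  · have h1 : k'' - k = (k'' - k') + (k' - k) := by have := h.le; have := h'.le; omega
    rw [h1, pow_add, ← Int.ediv_ediv_of_nonneg (pow_pos (bs_pos n) _).le, h'.nest, h.nest]

/-- the edge relation -/
structure Edge (n : ℕ) (N N' : Node) : Prop where
  sd : Sub n N.kd N.md N'.kd N'.md
  sc : Sub n N.kc N.mc N'.kc N'.mc
  hs : ∀ j, 1 ≤ j → (HS n N.kd N'.kd N'.md j ↔ HS n N.kc N'.kc N'.mc j)

theorem edge_trans {n : ℕ} {N N' N'' : Node} (h : Edge n N N') (h' : Edge n N' N'') :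
    Edge n N N'' := by
  refine ⟨sub_trans h.sd h'.sd, sub_trans h.sc h'.sc, ?_⟩
  intro j hj
  rw [hs_trans h.sd.le h'.sd.le h'.sd.nest, hs_trans h.sc.le h'.sc.le h'.sc.nest, h.hs j hj,
    h'.hs j hj]

/-- good constant nodes -/
structure ConstGood (n : ℕ) (φ : ℝ → ℝ) (N : Node) : Prop where
  lr : N.l = N.r
  rat : ∃ q : ℚ, N.l = q
  ab : N.a ≤ N.b
  const : ∀ x, N.a ≤ x → x ≤ N.b → φ x = φ N.a
  lev : ∀ j, 1 ≤ j → (Lv n j N.l ↔ Lv n j (φ N.a))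

/-- good nodes -/
def Good (n : ℕ) (φ : ℝ → ℝ) (N : Node) : Prop :=
  (N.live → Piece n id N.kd N.md N.l N.r ∧ Piece n φ N.kc N.mc N.a N.b) ∧
  (¬ N.live → ConstGood n φ N)

/-- fronts -/
structure Front (n : ℕ) (φ : ℝ → ℝ) (N : Node) (S : Set Node) : Prop where
  cov : Cov N.l N.r N.a N.b S
  good : ∀ N' ∈ S, Good n φ N'
  edge : ∀ N' ∈ S, N'.live → Edge n N N'

theorem front_replace {n : ℕ} {φ : ℝ → ℝ} {N M : Node} {S S' : Set Node} (h : Front n φ N S)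
    (hM : M ∈ S) (hl : M.live) (h' : Front n φ M S') : Front n φ N ((S \ {M}) ∪ S') where
  cov := cov_replace h.cov hM h'.cov
  good := by
    rintro N' (h1 | h1)
    · exact h.good N' h1.1
    · exact h'.good N' h1
  edge := by
    rintro N' (h1 | h1) h2
    · exact h.edge N' h1.1 h2
    · exact edge_trans (h.edge M hM hl) (h'.edge N' h1 h2)

theorem front_single {n : ℕ} {φ : ℝ → ℝ} {N : Node} (h : Good n φ N) (hl : N.live) :
    Front n φ N {N} where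
  cov := cov_single N (h.1 hl).1.lt.le (h.1 hl).2.lt.le
  good := by
    rintro _ rfl
    exact h
  edge := by
    rintro _ rfl _
    exact ⟨sub_refl _ _ _, sub_refl _ _ _, fun j _ => by
      constructor
      · intro h; exact absurd h (hs_self _ _ _ _)
      · intro h; exact absurd h (hs_self _ _ _ _)⟩

end Pool.Agent.H72.W
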