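import Mathlib
import Pool.Agent.H72.W.Front

set_option autoImplicit false

namespace Pool.Agent.H72.W

open Topology Filter

theorem bd_rat {n k : ℕ} {m : ℤ} {y : ℝ} (h : Bd n k m y) : ∃ q : ℚ, y = q := by
  obtain ⟨M, hM⟩ := int_of_bd h
  refine ⟨(M : ℚ) / (bs n : ℚ) ^ k, ?_⟩
  push_cast
  rw [eq_div_iff (bsR_pow_pos n k).ne', ← hM, mul_comm]

theorem lv_iff_of_zs {n k k' : ℕ} {y y' : ℝ} (h : Zs n k y) (h' : Zs n k' y') (j : ℕ)
    (hj : 1 ≤ j) : Lv n j y ↔ Lv n j y' :=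
  ⟨fun h1 => absurd h1 (zs_not_lv h hj), fun h1 => absurd h1 (zs_not_lv h' hj)⟩

/-- the ambient cell of a gap met by a piece -/
theorem nest_of_piece {n : ℕ} {φ : ℝ → ℝ} {k : ℕ} {m : ℤ} {a b : ℝ} (P : Piece n φ k m a b)
    {k' : ℕ} {m' : ℤ} (hk : k ≤ k') {s t : ℝ} (Q : Piece n φ k' m' s t) (has : a ≤ s) (htb : t ≤ b) :
    m' / bs n ^ (k' - k) = m := by
  obtain ⟨u, u1, u2, z, -, hb⟩ := Q.rg t Q.lt
  have h1 := btw_op (Q.amb s le_rfl Q.lt.le) (Q.amb u u1.le u2.le) hb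
  have h2 := btw_op (P.amb s has (by linarith [Q.lt])) (P.amb u (by linarith) (by linarith)) hb
  exact uniq (nest_op' hk h1) (op_cl h2)

theorem edge_of_gap {n : ℕ} {φ : ℝ → ℝ} {N M : Node} (hd : Gap n N.kd M.kd M.md)
    (hc : Gap n N.kc M.kc M.mc) (hrk : rk n M.md = rk n M.mc) (P : Piece n id N.kd N.md N.l N.r)
    (P' : Piece n φ N.kc N.mc N.a N.b) (Q : Piece n id M.kd M.md M.l M.r)
    (Q' : Piece n φ M.kc M.mc M.a M.b) (h1 : N.l ≤ M.l) (h2 : M.r ≤ N.r) (h3 : N.a ≤ M.a)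
    (h4 : M.b ≤ N.b) : Edge n N M := by
  refine ⟨⟨hd.1.le, fun _ => hd.2.1, nest_of_piece P hd.1.le Q h1 h2⟩,
    ⟨hc.1.le, fun _ => hc.2.1, nest_of_piece P' hc.1.le Q' h3 h4⟩, ?_⟩
  intro j hj
  rw [hs_gap hd hj, hs_gap hc hj, hrk]

theorem edge_same {n : ℕ} {N M : Node} (h1 : M.kd = N.kd) (h2 : M.md = N.md) (h3 : M.kc = N.kc)
    (h4 : M.mc = N.mc) : Edge n N M := by
  refine ⟨?_, ?_, ?_⟩
  · rw [h1, h2]; exact sub_refl _ _ _
  · rw [h3, h4]; exact sub_refl _ _ _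
  · intro j _
    rw [h1, h2, h3, h4]
    constructor
    · intro h; exact absurd h (hs_self _ _ _ _)
    · intro h; exact absurd h (hs_self _ _ _ _)

/-- domain component of a gap -/
theorem dom_gap {n k : ℕ} {m : ℤ} {l r x : ℝ} (P : Piece n id k m l r) (hl : l < x) (hr : x < r)
    {k' : ℕ} {m' : ℤ} (g : Gap n k k' m') (ho : op n k' m' x) :
    ∃ s t, l < s ∧ s < x ∧ x < t ∧ t < r ∧ Bd n k' m' s ∧ Bd n k' m' t ∧ LG n id k s ∧
      RG n id k t ∧ Piece n id k' m' s t := by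
  obtain ⟨s, t, h1, h2, h3, h4, h5, h6, h7, h8, h9, -, -⟩ :=
    comp_gap continuous_id P hl hr g (op_cl ho)
  have hs : Bd n k' m' s := h6
  have ht : Bd n k' m' t := h7
  have hsx : s < x := lt_of_le_of_ne h2 (by rintro rfl; exact bd_not_op hs ho)
  have hxt : x < t := lt_of_le_of_ne h3 (by rintro rfl; exact bd_not_op ht ho)
  obtain ⟨s', t', p1, p2, p3, p4, p5, p6, -, -⟩ := mid_piece continuous_id h5 h6 h7
    ⟨x, h2, h3, hsx.ne'⟩
  have e1 : s' = s := p4 s' p1 le_rfl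
  have e2 : t' = t := p5 t' le_rfl p3
  rw [e1, e2] at p6
  exact ⟨s, t, h1, hsx, hxt, h4, hs, ht, h8, h9, p6⟩

variable {n : ℕ} {φ : ℝ → ℝ}

/-- splitting along a pair of matched gaps -/
theorem split_gap (hφ : Continuous φ) {N : Node} (hN : Good n φ N) (hl : N.live) {x : ℝ}
    (hx1 : N.l < x) (hx2 : x < N.r) {kd' : ℕ} {md' : ℤ} (gd : Gap n N.kd kd' md')
    (ho : op n kd' md' x) {kc' : ℕ} {mc' : ℤ} (gc : Gap n N.kc kc' mc') {s t : ℝ} (hs1 : N.a < s)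
    (ht1 : t < N.b) (hcl : ∀ w, s ≤ w → w ≤ t → cl n kc' mc' (φ w)) (hbs : Bd n kc' mc' (φ s))
    (hbt : Bd n kc' mc' (φ t)) (hls : LG n φ N.kc s) (hrt : RG n φ N.kc t)
    (hnc : ∃ w, s ≤ w ∧ w ≤ t ∧ φ w ≠ φ s) (hrk : rk n md' = rk n mc') :
    ∃ (S : Set Node) (M : Node), Front n φ N S ∧ M ∈ S ∧ M.live ∧ M.kd = kd' ∧ M.md = md' ∧
      M.kc = kc' ∧ M.mc = mc' ∧ s ≤ M.a ∧ M.b ≤ t ∧ (∀ w, s ≤ w → w ≤ M.a → φ w = φ s) ∧
      (∀ w, M.b ≤ w → w ≤ t → φ w = φ t) ∧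
      (∀ w, M.a < w → ∃ u, M.a < u ∧ u < w ∧ φ u ≠ φ s) ∧
      (∀ w, w < M.b → ∃ u, w < u ∧ u < M.b ∧ φ u ≠ φ t) ∧
      ∀ N' ∈ S, N'.live → N' ≠ M → N'.kd = N.kd ∧ N'.kc = N.kc ∧
        ((N'.r < x ∧ N'.b ≤ s) ∨ (x < N'.l ∧ t ≤ N'.a)) := by
  obtain ⟨Pd, Pc⟩ := hN.1 hl
  obtain ⟨p, q, hp1, hp2, hq1, hq2, hbp, hbq, hlp, hrq, Qd⟩ := dom_gap Pd hx1 hx2 gd ho
  obtain ⟨s', t', a1, a2, a3, a4, a5, Qc, a6, a7⟩ := mid_piece hφ hcl hbs hbt hnc
  have zp : Zs n N.kd p := zs_gap_bd gd hbp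
  have zq : Zs n N.kd q := zs_gap_bd gd hbq
  have zs : Zs n N.kc (φ s) := zs_gap_bd gc hbs
  have zt : Zs n N.kc (φ t) := zs_gap_bd gc hbt
  have hst : s < t := by linarith
  let N1 : Node := ⟨N.l, p, N.a, s, True, N.kd, N.md, N.kc, N.mc⟩
  let N2 : Node := ⟨p, p, s, s', False, 0, 0, 0, 0⟩
  let N3 : Node := ⟨p, q, s', t', True, kd', md', kc', mc'⟩
  let N4 : Node := ⟨q, q, t', t, False, 0, 0, 0, 0⟩
  let N5 : Node := ⟨q, N.r, t, N.b, True, N.kd, N.md, N.kc, N.mc⟩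
  have G1 : Good n φ N1 := by
    refine ⟨fun _ => ⟨⟨hp1, ?_, Pd.za, zp, Pd.rg, hlp⟩, ⟨hs1, ?_, Pc.za, zs, Pc.rg, hls⟩⟩,
      fun h => absurd trivial h⟩
    · intro w h1 h2
      exact Pd.amb w h1 (h2.trans (by linarith))
    · intro w h1 h2
      exact Pc.amb w h1 (h2.trans (by linarith))
  have G5 : Good n φ N5 := by
    refine ⟨fun _ => ⟨⟨hq2, ?_, zq, Pd.zb, hrq, Pd.lg⟩, ⟨ht1, ?_, zt, Pc.zb, hrt, Pc.lg⟩⟩,
      fun h => absurd trivial h⟩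
    · intro w h1 h2
      exact Pd.amb w (le_trans (by linarith) h1) h2
    · intro w h1 h2
      exact Pc.amb w (le_trans (by linarith) h1) h2
  have G3 : Good n φ N3 := ⟨fun _ => ⟨Qd, Qc⟩, fun h => absurd trivial h⟩
  have G2 : Good n φ N2 := by
    refine ⟨fun h => absurd h (fun h => h), fun _ => ⟨rfl, bd_rat hbp, a1, ?_, ?_⟩⟩
    · intro w h1 h2
      exact a4 w h1 h2
    · intro j hj
      exact lv_iff_of_zs zp zs j hj
  have G4 : Good n φ N4 := by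
    refine ⟨fun h => absurd h (fun h => h), fun _ => ⟨rfl, bd_rat hbq, a3, ?_, ?_⟩⟩
    · intro w h1 h2
      show φ w = φ t'
      rw [a5 w h1 h2, a5 t' le_rfl a3]
    · intro j hj
      show Lv n j q ↔ Lv n j (φ t')
      rw [a5 t' le_rfl a3]
      exact lv_iff_of_zs zq zt j hj
  have C1 : Cov N.l p N.a s {N1} := cov_single N1 hp1.le hs1.le
  have C2 : Cov p p s s' {N2} := cov_single N2 le_rfl a1
  have C3 : Cov p q s' t' {N3} := cov_single N3 (by show p ≤ q; linarith) a2.le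
  have C4 : Cov q q t' t {N4} := cov_single N4 le_rfl a3
  have C5 : Cov q N.r t N.b {N5} := cov_single N5 hq2.le ht1.le
  have C := cov_append (cov_append (cov_append (cov_append C1 C2) C3) C4) C5
  refine ⟨_, N3, ⟨C, ?_, ?_⟩, ?_, trivial, rfl, rfl, rfl, rfl, a1, a3, a4, a5, a6, a7, ?_⟩
  · rintro N' ((((h | h) | h) | h) | h)
    · rw [Set.mem_singleton_iff.1 h]; exact G1
    · rw [Set.mem_singleton_iff.1 h]; exact G2
    · rw [Set.mem_singleton_iff.1 h]; exact G3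
    · rw [Set.mem_singleton_iff.1 h]; exact G4
    · rw [Set.mem_singleton_iff.1 h]; exact G5
  · rintro N' ((((h | h) | h) | h) | h) hl'
    · rw [Set.mem_singleton_iff.1 h]; exact edge_same rfl rfl rfl rfl
    · rw [Set.mem_singleton_iff.1 h] at hl'; exact absurd hl' (fun h => h)
    · rw [Set.mem_singleton_iff.1 h]
      exact edge_of_gap (N := N) (M := N3) gd gc hrk Pd Pc Qd Qc hp1.le hq2.le
        (by show N.a ≤ s'; linarith) (by show t' ≤ N.b; linarith)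
    · rw [Set.mem_singleton_iff.1 h] at hl'; exact absurd hl' (fun h => h)
    · rw [Set.mem_singleton_iff.1 h]; exact edge_same rfl rfl rfl rfl
  · exact Or.inl (Or.inl (Or.inr rfl))
  · rintro N' ((((h | h) | h) | h) | h) hl' hne
    · rw [Set.mem_singleton_iff.1 h]
      exact ⟨rfl, rfl, Or.inl ⟨hp2, le_rfl⟩⟩
    · rw [Set.mem_singleton_iff.1 h] at hl'; exact absurd hl' (fun h => h)
    · exact absurd (Set.mem_singleton_iff.1 h) hne
    · rw [Set.mem_singleton_iff.1 h] at hl'; exact absurd hl' (fun h => h)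
    · rw [Set.mem_singleton_iff.1 h]
      exact ⟨rfl, rfl, Or.inr ⟨hq1, le_rfl⟩⟩

/-- splitting along a constancy interval -/
theorem split_const {N : Node} (hN : Good n φ N) (hl : N.live) {s t : ℝ}
    (hs1 : N.a < s) (hst : s ≤ t) (ht1 : t < N.b) (hc : ∀ w, s ≤ w → w ≤ t → φ w = φ s)
    (hz : Zs n N.kc (φ s)) (hls : LG n φ N.kc s) (hrt : RG n φ N.kc t) :
    ∃ S : Set Node, Front n φ N S ∧
      ∀ N' ∈ S, N'.live → N'.kd = N.kd ∧ N'.kc = N.kc ∧ (N'.b ≤ s ∨ t ≤ N'.a) := by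
  obtain ⟨Pd, Pc⟩ := hN.1 hl
  obtain ⟨u, u1, u2, z, hzz, hb⟩ := Pd.rg N.r Pd.lt
  have hzu : N.l < z ∧ z < u := by
    rcases hb with h | h
    · exact h
    · have h1 : u < z := h.1
      have h2 : z < N.l := h.2
      exact absurd (h1.trans h2) (not_lt.2 u1.le)
  obtain ⟨y, hy, y1, y2, y3⟩ := good_rat hzz hzu.1 hzu.2
  have zy : Zs n N.kd y := fun k' m' h1 h2 h3 => y3 k' m' h1 h2 (op_cl h3)
  have hadj : ∀ v, v ≠ y → ∃ z, Zs n N.kd z ∧ btw y z v :=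
    fun v hv => adjC (fun k' m' g => y3 k' m' g.1 g.2.1) hv
  have hly : LG n id N.kd y := by
    intro x hx
    exact ⟨(x + y) / 2, by linarith, by linarith,
      hadj _ (by intro h; have h' : (x + y) / 2 = y := h; linarith)⟩
  have hry : RG n id N.kd y := by
    intro x hx
    exact ⟨(x + y) / 2, by linarith, by linarith,
      hadj _ (by intro h; have h' : (x + y) / 2 = y := h; linarith)⟩
  have et : φ t = φ s := hc t hst le_rfl
  let N1 : Node := ⟨N.l, y, N.a, s, True, N.kd, N.md, N.kc, N.mc⟩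
  let N2 : Node := ⟨y, y, s, t, False, 0, 0, 0, 0⟩
  let N3 : Node := ⟨y, N.r, t, N.b, True, N.kd, N.md, N.kc, N.mc⟩
  have hyr : y < N.r := y2.trans u2
  have G1 : Good n φ N1 := by
    refine ⟨fun _ => ⟨⟨y1, ?_, Pd.za, zy, Pd.rg, hly⟩, ⟨hs1, ?_, Pc.za, hz, Pc.rg, hls⟩⟩,
      fun h => absurd trivial h⟩
    · intro w h1 h2
      exact Pd.amb w h1 (h2.trans hyr.le)
    · intro w h1 h2
      exact Pc.amb w h1 (h2.trans (by linarith))
  have G3 : Good n φ N3 := by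
    refine ⟨fun _ => ⟨⟨hyr, ?_, zy, Pd.zb, hry, Pd.lg⟩, ⟨ht1, ?_, ?_, Pc.zb, hrt, Pc.lg⟩⟩,
      fun h => absurd trivial h⟩
    · intro w h1 h2
      exact Pd.amb w (y1.le.trans h1) h2
    · intro w h1 h2
      exact Pc.amb w (le_trans (by linarith) h1) h2
    · show Zs n N.kc (φ t)
      rw [et]; exact hz
  have G2 : Good n φ N2 := by
    refine ⟨fun h => absurd h (fun h => h), fun _ => ⟨rfl, hy, hst, ?_, ?_⟩⟩
    · intro w h1 h2
      exact hc w h1 h2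
    · intro j hj
      exact lv_iff_of_zs zy hz j hj
  have C1 : Cov N.l y N.a s {N1} := cov_single N1 y1.le hs1.le
  have C2 : Cov y y s t {N2} := cov_single N2 le_rfl hst
  have C3 : Cov y N.r t N.b {N3} := cov_single N3 hyr.le ht1.le
  have C := cov_append (cov_append C1 C2) C3
  refine ⟨_, ⟨C, ?_, ?_⟩, ?_⟩
  · rintro N' ((h | h) | h)
    · rw [Set.mem_singleton_iff.1 h]; exact G1
    · rw [Set.mem_singleton_iff.1 h]; exact G2
    · rw [Set.mem_singleton_iff.1 h]; exact G3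
  · rintro N' ((h | h) | h) hl'
    · rw [Set.mem_singleton_iff.1 h]; exact edge_same rfl rfl rfl rfl
    · rw [Set.mem_singleton_iff.1 h] at hl'; exact absurd hl' (fun h => h)
    · rw [Set.mem_singleton_iff.1 h]; exact edge_same rfl rfl rfl rfl
  · rintro N' ((h | h) | h) hl'
    · rw [Set.mem_singleton_iff.1 h]; exact ⟨rfl, rfl, Or.inl le_rfl⟩
    · rw [Set.mem_singleton_iff.1 h] at hl'; exact absurd hl' (fun h => h)
    · rw [Set.mem_singleton_iff.1 h]; exact ⟨rfl, rfl, Or.inr le_rfl⟩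

/-- requests of type 1: domain points in gaps -/
theorem req_dom (hφ : Continuous φ) {N : Node} (hN : Good n φ N) (hl : N.live) (ρ : ℝ) :
    ∃ S : Set Node, Front n φ N S ∧
      ∀ N' ∈ S, N'.live → N'.kd = N.kd → ¬ Zs n N.kd ρ → ¬ (N'.l ≤ ρ ∧ ρ ≤ N'.r) := by
  by_cases hz : Zs n N.kd ρ
  · exact ⟨{N}, front_single hN hl, fun _ _ _ _ h => absurd hz h⟩
  obtain ⟨Pd, Pc⟩ := hN.1 hl
  by_cases hρ : N.l ≤ ρ ∧ ρ ≤ N.r
  · have h1 : N.l < ρ := lt_of_le_of_ne hρ.1 (by rintro rfl; exact hz Pd.za)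
    have h2 : ρ < N.r := lt_of_le_of_ne hρ.2 (by rintro rfl; exact hz Pd.zb)
    obtain ⟨kd', md', gd, ho⟩ := gap_of_not_Zs hz
    obtain ⟨x, kc', mc', x1, x2, gc, hrk, hox⟩ := exists_gap_point hφ Pc
      (rk_pos_iff.2 gd.2.1) (rk_le n md')
    obtain ⟨s, t, b1, b2, b3, b4, b5, b6, b7, b8, b9, -, -⟩ := comp_gap hφ Pc x1 x2 gc (op_cl hox)
    obtain ⟨S, M, hF, hM, hMl, e1, -, -, -, -, -, -, -, -, -, hS⟩ := split_gap hφ hN hl h1 h2 gd ho gc
      b1 b4 b5 b6 b7 b8 b9 ⟨x, b2, b3, fun h => bd_not_op b6 (h ▸ hox)⟩ hrk.symm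
    refine ⟨S, hF, fun N' hN' hl' hk _ h3 => ?_⟩
    by_cases hNM : N' = M
    · rw [hNM, e1] at hk
      have := gd.1
      omega
    · obtain ⟨-, -, h4⟩ := hS N' hN' hl' hNM
      rcases h4 with h4 | h4
      · linarith [h3.2, h4.1]
      · linarith [h3.1, h4.1]
  · exact ⟨{N}, front_single hN hl, fun N' h _ _ _ => by
      rw [Set.mem_singleton_iff.1 h]; exact hρ⟩

/-- requests of type 2: codomain points in gaps -/
theorem req_cod (hφ : Continuous φ) {N : Node} (hN : Good n φ N) (hl : N.live) (ρ : ℝ) :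
    ∃ S : Set Node, Front n φ N S ∧
      ∀ N' ∈ S, N'.live → N'.kc = N.kc → ¬ Zs n N.kc (φ ρ) → ¬ (N'.a ≤ ρ ∧ ρ ≤ N'.b) := by
  by_cases hz : Zs n N.kc (φ ρ)
  · exact ⟨{N}, front_single hN hl, fun _ _ _ _ h => absurd hz h⟩
  obtain ⟨Pd, Pc⟩ := hN.1 hl
  by_cases hρ : N.a ≤ ρ ∧ ρ ≤ N.b
  · have h1 : N.a < ρ := lt_of_le_of_ne hρ.1 (by rintro rfl; exact hz Pc.za)
    have h2 : ρ < N.b := lt_of_le_of_ne hρ.2 (by rintro rfl; exact hz Pc.zb)
    obtain ⟨kc', mc', gc, ho⟩ := gap_of_not_Zs hz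
    obtain ⟨x, kd', md', x1, x2, gd, hrk, hox⟩ := exists_gap_point continuous_id Pd
      (rk_pos_iff.2 gc.2.1) (rk_le n mc')
    obtain ⟨s, t, b1, b2, b3, b4, b5, b6, b7, b8, b9, -, -⟩ := comp_gap hφ Pc h1 h2 gc (op_cl ho)
    obtain ⟨S, M, hF, hM, hMl, -, -, e1, -, -, -, -, -, -, -, hS⟩ := split_gap hφ hN hl x1 x2 gd hox gc
      b1 b4 b5 b6 b7 b8 b9 ⟨ρ, b2, b3, fun h => bd_not_op b6 (h ▸ ho)⟩ hrk
    refine ⟨S, hF, fun N' hN' hl' hk _ h3 => ?_⟩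
    by_cases hNM : N' = M
    · rw [hNM, e1] at hk
      have := gc.1
      omega
    · obtain ⟨-, -, h4⟩ := hS N' hN' hl' hNM
      have hs : s < ρ := lt_of_le_of_ne b2 (by rintro rfl; exact bd_not_op b6 ho)
      have ht : ρ < t := lt_of_le_of_ne b3 (by rintro rfl; exact bd_not_op b7 ho)
      rcases h4 with h4 | h4
      · linarith [h3.2, h4.2]
      · linarith [h3.1, h4.2]
  · exact ⟨{N}, front_single hN hl, fun N' h _ _ _ => by
      rw [Set.mem_singleton_iff.1 h]; exact hρ⟩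

end Pool.Agent.H72.W
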