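import Mathlib
import Pool.Agent.H72.W.Split

set_option autoImplicit false

namespace Pool.Agent.H72.W

open Topology Filter

/-- one step of the descent to a point of infinite address -/
structure CStep (n : ℕ) (ψ : ℝ → ℝ) (r : ℝ) (k : ℕ) (a b : ℝ) (k' : ℕ) (m' : ℤ) (a' b' s t : ℝ) :
    Prop where
  gap : Gap n k k' m'
  op : W.op n k' m' (ψ r)
  as : a < s
  sa : s ≤ a'
  ar : a' < r
  rb : r < b'
  bt : b' ≤ t
  tb : t < b
  bs : Bd n k' m' (ψ s)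
  bdt : Bd n k' m' (ψ t)
  ls : LG n ψ k s
  rt : RG n ψ k t
  cs : ∀ w, s ≤ w → w ≤ a' → ψ w = ψ s
  ct : ∀ w, b' ≤ w → w ≤ t → ψ w = ψ t

variable {n : ℕ} {ψ : ℝ → ℝ}

theorem cstep (hψ : Continuous ψ) {k : ℕ} {m : ℤ} {a b r : ℝ} (P : Piece n ψ k m a b) (har : a < r)
    (hrb : r < b) (hinf : ∀ K, ¬ Zs n K (ψ r)) :
    ∃ k' m' a' b' s t, CStep n ψ r k a b k' m' a' b' s t ∧ Piece n ψ k' m' a' b' := by
  obtain ⟨k', m', g, ho⟩ := gap_of_not_Zs (hinf k)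
  obtain ⟨s, t, h1, h2, h3, h4, h5, h6, h7, h8, h9, -, -⟩ := comp_gap hψ P har hrb g (op_cl ho)
  obtain ⟨a', b', p1, p2, p3, p4, p5, p6, -, -⟩ := mid_piece hψ h5 h6 h7
    ⟨r, h2, h3, fun h => bd_not_op h6 (h ▸ ho)⟩
  refine ⟨k', m', a', b', s, t, ⟨g, ho, h1, p1, ?_, ?_, p3, h4, h6, h7, h8, h9, p4, p5⟩, p6⟩
  · by_contra hc
    push Not at hc
    have := p4 r h2 hc
    exact bd_not_op h6 (this ▸ ho)
  · by_contra hc
    push Not at hc
    have := p5 r hc h3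
    exact bd_not_op h7 (this ▸ ho)

theorem chain (hψ : Continuous ψ) {k0 : ℕ} {m0 : ℤ} {a0 b0 r : ℝ} (P : Piece n ψ k0 m0 a0 b0)
    (har : a0 < r) (hrb : r < b0) (hinf : ∀ K, ¬ Zs n K (ψ r)) :
    ∃ (k : ℕ → ℕ) (m : ℕ → ℤ) (a b s t : ℕ → ℝ), k 0 = k0 ∧ m 0 = m0 ∧ a 0 = a0 ∧ b 0 = b0 ∧
      ∀ i, Piece n ψ (k i) (m i) (a i) (b i) ∧ a i < r ∧ r < b i ∧
        CStep n ψ r (k i) (a i) (b i) (k (i + 1)) (m (i + 1)) (a (i + 1)) (b (i + 1)) (s i) (t i) := by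
  let X : Type := {q : ℕ × ℤ × ℝ × ℝ // Piece n ψ q.1 q.2.1 q.2.2.1 q.2.2.2 ∧ q.2.2.1 < r ∧
    r < q.2.2.2}
  have hex : ∀ x : X, ∃ (y : X) (s t : ℝ), CStep n ψ r x.1.1 x.1.2.2.1 x.1.2.2.2 y.1.1 y.1.2.1
      y.1.2.2.1 y.1.2.2.2 s t := by
    intro x
    obtain ⟨k', m', a', b', s, t, hC, hP⟩ := cstep hψ x.2.1 x.2.2.1 x.2.2.2 hinf
    exact ⟨⟨(k', m', a', b'), hP, hC.ar, hC.rb⟩, s, t, hC⟩
  choose f g h hf using hex
  let x0 : X := ⟨(k0, m0, a0, b0), P, har, hrb⟩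
  let x : ℕ → X := fun i => Nat.rec x0 (fun _ y => f y) i
  refine ⟨fun i => (x i).1.1, fun i => (x i).1.2.1, fun i => (x i).1.2.2.1, fun i => (x i).1.2.2.2,
    fun i => g (x i), fun i => h (x i), rfl, rfl, rfl, rfl, fun i => ?_⟩
  exact ⟨(x i).2.1, (x i).2.2.1, (x i).2.2.2, hf (x i)⟩

theorem left_piece {k : ℕ} {m : ℤ} {a b r : ℝ} (P : Piece n ψ k m a b) {k' : ℕ} {m' : ℤ}
    {a' b' s t : ℝ} (C : CStep n ψ r k a b k' m' a' b' s t) : Piece n ψ k m a s where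
  lt := C.as
  amb := fun w h1 h2 => P.amb w h1 (by linarith [C.sa, C.ar, C.rb, C.bt, C.tb])
  za := P.za
  zb := zs_gap_bd C.gap C.bs
  rg := P.rg
  lg := C.ls

theorem right_piece {k : ℕ} {m : ℤ} {a b r : ℝ} (P : Piece n ψ k m a b) {k' : ℕ} {m' : ℤ}
    {a' b' s t : ℝ} (C : CStep n ψ r k a b k' m' a' b' s t) : Piece n ψ k m t b where
  lt := C.tb
  amb := fun w h1 h2 => P.amb w (by linarith [C.sa, C.ar, C.rb, C.bt, C.as]) h2
  za := zs_gap_bd C.gap C.bdt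
  zb := P.zb
  rg := C.rt
  lg := P.lg

section limits

variable {k : ℕ → ℕ} {m : ℕ → ℤ} {a b s t : ℕ → ℝ} {r : ℝ}

theorem chain_sub (H : ∀ i, Piece n ψ (k i) (m i) (a i) (b i) ∧ a i < r ∧ r < b i ∧
    CStep n ψ r (k i) (a i) (b i) (k (i + 1)) (m (i + 1)) (a (i + 1)) (b (i + 1)) (s i) (t i))
    (i : ℕ) : Sub n (k 0) (m 0) (k i) (m i) := by
  induction i with
  | zero => exact sub_refl _ _ _
  | succ i ih =>
    refine sub_trans ih ?_
    obtain ⟨P, h1, h2, C⟩ := H i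
    refine ⟨C.gap.1.le, fun _ => C.gap.2.1, ?_⟩
    exact uniq (nest_op' C.gap.1.le C.op) (P.amb r h1.le h2.le)

theorem chain_hs (H : ∀ i, Piece n ψ (k i) (m i) (a i) (b i) ∧ a i < r ∧ r < b i ∧
    CStep n ψ r (k i) (a i) (b i) (k (i + 1)) (m (i + 1)) (a (i + 1)) (b (i + 1)) (s i) (t i))
    {j : ℕ} (hbd : ∀ k' m', k 0 < k' → op n k' m' (ψ r) → rk n m' ≤ j) (i e : ℕ)
    (h : HS n (k 0) (k i) (m i) e) : e ≤ j := by
  cases i with
  | zero => exact absurd h (hs_self _ _ _ _)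
  | succ i =>
    obtain ⟨i', h1, h2, h3⟩ := h
    exact h3.trans (hbd _ _ h1 (nest_op' h2 (H i).2.2.2.op))

theorem chain_limit (H : ∀ i, Piece n ψ (k i) (m i) (a i) (b i) ∧ a i < r ∧ r < b i ∧
    CStep n ψ r (k i) (a i) (b i) (k (i + 1)) (m (i + 1)) (a (i + 1)) (b (i + 1)) (s i) (t i)) :
    ∃ u v, Tendsto a atTop (𝓝 u) ∧ Tendsto b atTop (𝓝 v) ∧ u ≤ r ∧ r ≤ v ∧
      ∀ w, u ≤ w → w ≤ v → ψ w = ψ r := by
  have ma : Monotone a := monotone_nat_of_le_succ fun i => by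
    have C := (H i).2.2.2
    linarith [C.as, C.sa]
  have mb : Antitone b := antitone_nat_of_succ_le fun i => by
    have C := (H i).2.2.2
    linarith [C.bt, C.tb]
  have hk : ∀ i, i ≤ k i := by
    intro i
    induction i with
    | zero => exact Nat.zero_le _
    | succ i ih => have := (H i).2.2.2.gap.1; omega
  have ba : BddAbove (Set.range a) := ⟨r, by rintro _ ⟨i, rfl⟩; exact (H i).2.1.le⟩
  have bb : BddBelow (Set.range b) := ⟨r, by rintro _ ⟨i, rfl⟩; exact (H i).2.2.1.le⟩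
  refine ⟨⨆ i, a i, ⨅ i, b i, tendsto_atTop_ciSup ma ba, tendsto_atTop_ciInf mb bb,
    ciSup_le fun i => (H i).2.1.le, le_ciInf fun i => (H i).2.2.1.le, ?_⟩
  intro w hu hv
  by_contra hne
  have hε : 0 < |ψ w - ψ r| := abs_pos.2 (sub_ne_zero.2 hne)
  obtain ⟨i, -, hi⟩ := exists_order n 0 hε
  have h1 : a i ≤ w := (le_ciSup ba i).trans hu
  have h2 : w ≤ b i := hv.trans (ciInf_le bb i)
  have h3 : 1 < (bs n : ℝ) ^ (k i) * |ψ w - ψ r| := by
    have : (bs n : ℝ) ^ i ≤ (bs n : ℝ) ^ (k i) :=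
      pow_le_pow_right₀ (by linarith [bsR_ge n]) (hk i)
    nlinarith
  have := cl_dist ((H i).1.amb w h1 h2) ((H i).1.amb r (H i).2.1.le (H i).2.2.1.le) h3
  exact lt_irrefl _ this

end limits

theorem op_convex {k : ℕ} {m : ℤ} {x y z : ℝ} (hx : op n k m x) (hz : op n k m z) (h1 : x ≤ y)
    (h2 : y ≤ z) : op n k m y := by
  have hB := bsR_pow_pos n k
  have c1 := mul_le_mul_of_nonneg_left h1 hB.le
  have c2 := mul_le_mul_of_nonneg_left h2 hB.le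
  exact ⟨lt_of_lt_of_le hx.1 c1, lt_of_le_of_lt c2 hz.2⟩

variable {φ : ℝ → ℝ}

/-- the ladder around a matched target -/
theorem ladder (hφ : Continuous φ) {M : Node} (hM : Good n φ M) (hl : M.live) {r : ℝ}
    (har : M.a < r) (hrb : r < M.b) (hinf : ∀ K, ¬ Zs n K (φ r)) {j : ℕ} (hj : 1 ≤ j)
    (hlv : Lv n j (φ r)) (hnlv : ¬ Lv n (j + 1) (φ r))
    (hbd : ∀ k m, M.kc < k → op n k m (φ r) → rk n m ≤ j) :
    ∃ S : Set Node, Cov M.l M.r M.a M.b S ∧ (∀ N' ∈ S, Good n φ N') ∧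
      ∀ N' ∈ S, N'.live → ¬ (N'.a ≤ r ∧ r ≤ N'.b) ∧ Sub n M.kd M.md N'.kd N'.md ∧
        Sub n M.kc M.mc N'.kc N'.mc ∧ (∀ e, HS n M.kd N'.kd N'.md e → e ≤ j) ∧
        (∀ e, HS n M.kc N'.kc N'.mc e → e ≤ j) := by
  obtain ⟨Pd, Pc⟩ := hM.1 hl
  have hj' : j ≤ n + 1 := lv_le hlv
  obtain ⟨x, kd', md', x1, x2, gd, hrk, hox⟩ := exists_gap_point continuous_id Pd hj hj'
  have hox' : op n kd' md' x := hox
  have d0 : (0 : ℤ) < 2 * j - 1 := by omega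
  have d1 : (2 * j - 1 : ℤ) < bs n - 1 := by unfold bs; omega
  set z := zpt n kd' md' (2 * j - 1) with hz
  have hoz : op n kd' md' z := zpt_op (k := kd') (m := md') d0 d1 0
  have hz1 : M.l < z := by
    by_contra hc
    push Not at hc
    exact Pd.za kd' md' gd.1 gd.2.1 (op_convex hoz hox' hc x1.le)
  have hz2 : z < M.r := by
    by_contra hc
    push Not at hc
    exact Pd.zb kd' md' gd.1 gd.2.1 (op_convex hox' hoz x2.le hc)
  have hlz : ∀ i, Lv n i z ↔ i ≤ j := fun i => zpt_lv hj hj' i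
  have hinfz : ∀ K, ¬ Zs n K (id z) := fun K h => zs_not_lv h hj ((hlz j).2 le_rfl)
  have hbdz : ∀ k m, M.kd < k → op n k m (id z) → rk n m ≤ j := by
    intro k m hk ho
    have ho' : op n k m z := ho
    rcases lt_trichotomy k kd' with h | h | h
    · have h1 := uniq (nest_op' h.le hoz) (op_cl ho')
      by_contra hc
      push Not at hc
      have : od n m := rk_pos_iff.1 (by omega)
      rw [← h1] at this
      exact gd.2.2 k hk h this
    · subst h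
      rw [← uniq hoz (op_cl ho'), hrk]
    · rw [zpt_rank hj hj' h (op_cl ho')]
  obtain ⟨kd, md, ad, bd', sd, td, e1, e2, e3, e4, Hd⟩ := chain continuous_id Pd hz1 hz2 hinfz
  obtain ⟨kc, mc, ac, bc, sc, tc, f1, f2, f3, f4, Hc⟩ := chain hφ Pc har hrb hinf
  obtain ⟨ud, vd, hud, hvd, hud', hvd', hcd⟩ := chain_limit Hd
  obtain ⟨u, v, hu, hv, hu', hv', hc⟩ := chain_limit Hc
  have eu : ud = z := hcd ud le_rfl (hud'.trans hvd')
  have ev : vd = z := hcd vd (hud'.trans hvd') le_rfl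
  rw [eu] at hud
  rw [ev] at hvd
  have hsa : ∀ i, ad (i + 1) = sd i := fun i => (Hd i).2.2.2.cs _ (Hd i).2.2.2.sa le_rfl
  have htb : ∀ i, bd' (i + 1) = td i := fun i => (Hd i).2.2.2.ct _ le_rfl (Hd i).2.2.2.bt
  let L : ℕ → Node := fun i => ⟨ad i, sd i, ac i, sc i, True, kd i, md i, kc i, mc i⟩
  let CL : ℕ → Node := fun i => ⟨sd i, ad (i + 1), sc i, ac (i + 1), False, 0, 0, 0, 0⟩
  let R : ℕ → Node := fun i => ⟨td i, bd' i, tc i, bc i, True, kd i, md i, kc i, mc i⟩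
  let CR : ℕ → Node := fun i => ⟨bd' (i + 1), td i, bc (i + 1), tc i, False, 0, 0, 0, 0⟩
  let C0 : Node := ⟨z, z, u, v, False, 0, 0, 0, 0⟩
  have huv : u ≤ v := hu'.trans hv'
  have T1 : ∀ i, Cov (ad i) (ad (i + 1)) (ac i) (ac (i + 1)) ({L i} ∪ {CL i}) := fun i =>
    cov_append (cov_single (L i) (Hd i).2.2.2.as.le (Hc i).2.2.2.as.le)
      (cov_single (CL i) (Hd i).2.2.2.sa (Hc i).2.2.2.sa)
  have T2 : ∀ i, Cov (bd' (i + 1)) (bd' i) (bc (i + 1)) (bc i) ({CR i} ∪ {R i}) := fun i =>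
    cov_append (cov_single (CR i) (Hd i).2.2.2.bt (Hc i).2.2.2.bt)
      (cov_single (R i) (Hd i).2.2.2.tb.le (Hc i).2.2.2.tb.le)
  have C1 := cov_ladder_right T2 hvd hv (cov_single C0 le_rfl huv)
  have C2 := cov_ladder_left T1 hud hu C1
  rw [e3, e4, f3, f4] at C2
  have gLn : ∀ i, Good n φ (L i) := fun i =>
    ⟨fun _ => ⟨left_piece (Hd i).1 (Hd i).2.2.2, left_piece (Hc i).1 (Hc i).2.2.2⟩,
      fun h => absurd trivial h⟩
  have gRn : ∀ i, Good n φ (R i) := fun i =>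
    ⟨fun _ => ⟨right_piece (Hd i).1 (Hd i).2.2.2, right_piece (Hc i).1 (Hc i).2.2.2⟩,
      fun h => absurd trivial h⟩
  have gCLn : ∀ i, Good n φ (CL i) := fun i => by
    refine ⟨fun h => absurd h (fun h => h), fun _ => ⟨(hsa i).symm, bd_rat (Hd i).2.2.2.bs,
      (Hc i).2.2.2.sa, (Hc i).2.2.2.cs, ?_⟩⟩
    intro e he
    exact lv_iff_of_zs (zs_gap_bd (Hd i).2.2.2.gap (Hd i).2.2.2.bs)
      (zs_gap_bd (Hc i).2.2.2.gap (Hc i).2.2.2.bs) e he
  have gCRn : ∀ i, Good n φ (CR i) := fun i => by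
    refine ⟨fun h => absurd h (fun h => h), fun _ => ⟨htb i, ?_, (Hc i).2.2.2.bt, ?_, ?_⟩⟩
    · show ∃ q : ℚ, bd' (i + 1) = q
      rw [htb i]
      exact bd_rat (Hd i).2.2.2.bdt
    · intro w h1 h2
      show φ w = φ (bc (i + 1))
      rw [(Hc i).2.2.2.ct w h1 h2, (Hc i).2.2.2.ct _ le_rfl (Hc i).2.2.2.bt]
    · intro e he
      show Lv n e (bd' (i + 1)) ↔ Lv n e (φ (bc (i + 1)))
      rw [htb i, (Hc i).2.2.2.ct _ le_rfl (Hc i).2.2.2.bt]
      exact lv_iff_of_zs (zs_gap_bd (Hd i).2.2.2.gap (Hd i).2.2.2.bdt)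
        (zs_gap_bd (Hc i).2.2.2.gap (Hc i).2.2.2.bdt) e he
  have gCn : Good n φ C0 := by
    refine ⟨fun h => absurd h (fun h => h), fun _ => ⟨rfl, zpt_rat _ _ _ _, huv, ?_, ?_⟩⟩
    · intro w h1 h2
      show φ w = φ u
      rw [hc w h1 h2, hc u le_rfl huv]
    · intro e he
      show Lv n e z ↔ Lv n e (φ u)
      rw [hc u le_rfl huv, hlz e]
      constructor
      · intro h
        exact lv_anti hlv h
      · intro h
        by_contra hcc
        push Not at hcc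
        exact hnlv (lv_anti h hcc)
  have hdsub : ∀ i, Sub n M.kd M.md (kd i) (md i) := fun i => by
    have := chain_sub Hd i
    rwa [e1, e2] at this
  have hcsub : ∀ i, Sub n M.kc M.mc (kc i) (mc i) := fun i => by
    have := chain_sub Hc i
    rwa [f1, f2] at this
  have hdhs : ∀ i e, HS n M.kd (kd i) (md i) e → e ≤ j := fun i e h => by
    rw [← e1] at h hbdz
    exact chain_hs Hd hbdz i e h
  have hchs : ∀ i e, HS n M.kc (kc i) (mc i) e → e ≤ j := fun i e h => by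
    rw [← f1] at h hbd
    exact chain_hs Hc hbd i e h
  refine ⟨_, C2, ?_, ?_⟩
  · rintro N' (h | h | h)
    · obtain ⟨i, hi | hi⟩ := Set.mem_iUnion.1 h
      · rw [Set.mem_singleton_iff.1 hi]; exact gLn i
      · rw [Set.mem_singleton_iff.1 hi]; exact gCLn i
    · obtain ⟨i, hi | hi⟩ := Set.mem_iUnion.1 h
      · rw [Set.mem_singleton_iff.1 hi]; exact gCRn i
      · rw [Set.mem_singleton_iff.1 hi]; exact gRn i
    · rw [Set.mem_singleton_iff.1 h]; exact gCn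
  · rintro N' (h | h | h) hl'
    · obtain ⟨i, hi | hi⟩ := Set.mem_iUnion.1 h
      · rw [Set.mem_singleton_iff.1 hi]
        refine ⟨?_, hdsub i, hcsub i, hdhs i, hchs i⟩
        rintro ⟨-, h2⟩
        have h2' : r ≤ sc i := h2
        linarith [(Hc i).2.2.2.sa, (Hc i).2.2.2.ar]
      · rw [Set.mem_singleton_iff.1 hi] at hl'; exact absurd hl' (fun h => h)
    · obtain ⟨i, hi | hi⟩ := Set.mem_iUnion.1 h
      · rw [Set.mem_singleton_iff.1 hi] at hl'; exact absurd hl' (fun h => h)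
      · rw [Set.mem_singleton_iff.1 hi]
        refine ⟨?_, hdsub i, hcsub i, hdhs i, hchs i⟩
        rintro ⟨h2, -⟩
        have h2' : tc i ≤ r := h2
        linarith [(Hc i).2.2.2.bt, (Hc i).2.2.2.rb]
    · rw [Set.mem_singleton_iff.1 h] at hl'; exact absurd hl' (fun h => h)

end Pool.Agent.H72.W
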