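import Mathlib
import Pool.Agent.H72.W.Chain

set_option autoImplicit false

namespace Pool.Agent.H72.W

open Topology Filter

variable {n : ℕ} {φ : ℝ → ℝ}

/-- `φ` is locally constant at `r` -/
def LC (φ : ℝ → ℝ) (r : ℝ) : Prop := ∃ ε, 0 < ε ∧ ∀ w, |w - r| < ε → φ w = φ r

/-- one step of the descent to a point `r` of infinite address -/
theorem descend_one (hφ : Continuous φ) {N : Node} (hN : Good n φ N) (hl : N.live) {r : ℝ}
    (har : N.a < r) (hrb : r < N.b) (hz : ¬ Zs n N.kc (φ r)) :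
    ∃ (S : Set Node) (M : Node), Front n φ N S ∧ M ∈ S ∧ M.live ∧ N.kc < M.kc ∧ M.a < r ∧ r < M.b ∧
      ∀ N' ∈ S, N'.live → N' ≠ M → ¬ (N'.a ≤ r ∧ r ≤ N'.b) := by
  obtain ⟨Pd, Pc⟩ := hN.1 hl
  obtain ⟨kc', mc', gc, ho⟩ := gap_of_not_Zs hz
  obtain ⟨x, kd', md', x1, x2, gd, hrk, hox⟩ := exists_gap_point continuous_id Pd
    (rk_pos_iff.2 gc.2.1) (rk_le n mc')
  obtain ⟨s, t, b1, b2, b3, b4, b5, b6, b7, b8, b9, -, -⟩ := comp_gap hφ Pc har hrb gc (op_cl ho)
  obtain ⟨S, M, hF, hM, hMl, -, -, e1, -, e2, e3, e4, e5, -, -, hS⟩ := split_gap hφ hN hl x1 x2 gd hox gc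
    b1 b4 b5 b6 b7 b8 b9 ⟨r, b2, b3, fun h => bd_not_op b6 (h ▸ ho)⟩ hrk
  have hs : s < r := lt_of_le_of_ne b2 (by rintro rfl; exact bd_not_op b6 ho)
  have ht : r < t := lt_of_le_of_ne b3 (by rintro rfl; exact bd_not_op b7 ho)
  refine ⟨S, M, hF, hM, hMl, ?_, ?_, ?_, ?_⟩
  · rw [e1]; exact gc.1
  · by_contra hc
    push Not at hc
    exact bd_not_op b6 ((e4 r b2 hc) ▸ ho)
  · by_contra hc
    push Not at hc
    exact bd_not_op b7 ((e5 r hc b3) ▸ ho)
  · intro N' hN' hl' hne h3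
    obtain ⟨-, -, h4⟩ := hS N' hN' hl' hne
    rcases h4 with h4 | h4
    · linarith [h3.2, h4.2]
    · linarith [h3.1, h4.2]

theorem descend (hφ : Continuous φ) {r : ℝ} (hinf : ∀ K, ¬ Zs n K (φ r)) (K1 d : ℕ) :
    ∀ N : Node, Good n φ N → N.live → N.a < r → r < N.b → K1 ≤ N.kc + d →
    ∃ (S : Set Node) (M : Node), Front n φ N S ∧ M ∈ S ∧ M.live ∧ K1 ≤ M.kc ∧ M.a < r ∧ r < M.b ∧
      ∀ N' ∈ S, N'.live → N' ≠ M → ¬ (N'.a ≤ r ∧ r ≤ N'.b) := by
  induction d with
  | zero =>
    intro N hN hl har hrb hK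
    refine ⟨{N}, N, front_single hN hl, rfl, hl, hK, har, hrb, ?_⟩
    intro N' hN' _ hne
    exact absurd (Set.mem_singleton_iff.1 hN') hne
  | succ d ih =>
    intro N hN hl har hrb hK
    obtain ⟨S, M, hF, hM, hMl, hk, h1, h2, h3⟩ := descend_one hφ hN hl har hrb (hinf _)
    obtain ⟨S', M', hF', hM', hMl', hk', h1', h2', h3'⟩ := ih M (hF.good M hM) hMl h1 h2 (by omega)
    refine ⟨_, M', front_replace hF hM hMl hF', Or.inr hM', hMl', hk', h1', h2', ?_⟩
    rintro N' (h | h) hl' hne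
    · exact h3 N' h.1 hl' h.2
    · exact h3' N' h hl' hne

theorem resolve_inf (hφ : Continuous φ) {r : ℝ} (hinf : ∀ K, ¬ Zs n K (φ r)) {N : Node}
    (hN : Good n φ N) (hl : N.live) (har : N.a < r) (hrb : r < N.b) :
    ∃ S : Set Node, Front n φ N S ∧ ∀ N' ∈ S, N'.live → ¬ (N'.a ≤ r ∧ r ≤ N'.b) := by
  obtain ⟨j, hj, hlv, hnlv⟩ := exists_level hinf
  obtain ⟨K0, hK0⟩ := bound_of_not_lv hnlv
  obtain ⟨i, m0, hi, hrk, hoi⟩ := hlv N.kc
  obtain ⟨S, M, hF, hM, hMl, hk, h1, h2, h3⟩ := descend hφ hinf (max K0 i) (max K0 i) N hN hl har hrb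
    (by omega)
  have hkK0 : K0 ≤ M.kc := le_trans (le_max_left _ _) hk
  have hki : i ≤ M.kc := le_trans (le_max_right _ _) hk
  obtain ⟨S', C', G', E'⟩ := ladder hφ (hF.good M hM) hMl h1 h2 hinf hj hlv hnlv
    (fun k m hk' ho => hK0 k m (by omega) ho)
  have hE := hF.edge M hM hMl
  have Pc := ((hF.good M hM).1 hMl).2
  have hsc : HS n N.kc M.kc M.mc j := by
    refine ⟨i, hi, hki, ?_⟩
    have := uniq hoi (nest_cl' hki (Pc.amb r h1.le h2.le))
    rw [← this]
    exact hrk
  have hsd : HS n N.kd M.kd M.md j := (hE.hs j hj).2 hsc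
  refine ⟨(S \ {M}) ∪ S', ⟨cov_replace hF.cov hM C', ?_, ?_⟩, ?_⟩
  · rintro N' (h | h)
    · exact hF.good N' h.1
    · exact G' N' h
  · rintro N' (h | h) hl'
    · exact hF.edge N' h.1 hl'
    · obtain ⟨-, sd, sc, bd1, bd2⟩ := E' N' h hl'
      refine ⟨sub_trans hE.sd sd, sub_trans hE.sc sc, ?_⟩
      intro e he
      rw [hs_trans hE.sd.le sd.le sd.nest, hs_trans hE.sc.le sc.le sc.nest]
      by_cases hej : e ≤ j
      · constructor
        · intro _; exact Or.inl (hs_anti hsc hej)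
        · intro _; exact Or.inl (hs_anti hsd hej)
      · constructor
        · rintro (h' | h')
          · exact Or.inl ((hE.hs e he).1 h')
          · exact absurd (bd1 e h') hej
        · rintro (h' | h')
          · exact Or.inl ((hE.hs e he).2 h')
          · exact absurd (bd2 e h') hej
  · rintro N' (h | h) hl'
    · exact h3 N' h.1 hl' h.2
    · exact (E' N' h hl').1

theorem resolve_fin (hφ : Continuous φ) {r : ℝ} (hLC : LC φ r) {K : ℕ}
    (hK : ∀ k m, K < k → od n m → ¬ cl n k m (φ r)) (d : ℕ) :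
    ∀ N : Node, Good n φ N → N.live → N.a < r → r < N.b → K ≤ N.kc + d →
    ∃ S : Set Node, Front n φ N S ∧ ∀ N' ∈ S, N'.live → ¬ (N'.a ≤ r ∧ r ≤ N'.b) := by
  obtain ⟨ε, hε, hLC⟩ := hLC
  induction d with
  | zero =>
    intro N hN hl har hrb hKN
    obtain ⟨Pd, Pc⟩ := hN.1 hl
    obtain ⟨s, t, b1, b2, b3, b4, b5, b6, b7, b8, b9, b10⟩ := comp_const hφ Pc har hrb
      (fun k' m' g => hK k' m' (by have := g.1; omega) g.2.1)
    have es : φ s = φ r := b5 s le_rfl (b2.trans b3)
    obtain ⟨S, hF, hS⟩ := split_const hN hl b1 (b2.trans b3) b4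
      (fun w h1 h2 => by rw [b5 w h1 h2, es]) (by rw [es]; exact b8) b6 b7
    refine ⟨S, hF, ?_⟩
    have hs : s < r := by
      refine lt_of_le_of_ne b2 ?_
      rintro rfl
      obtain ⟨u, u1, u2, u3⟩ := b9 (s - ε) (by linarith)
      exact u3 (hLC u (by rw [abs_lt]; constructor <;> linarith))
    have ht : r < t := by
      refine lt_of_le_of_ne b3 ?_
      rintro rfl
      obtain ⟨u, u1, u2, u3⟩ := b10 (r + ε) (by linarith)
      exact u3 (hLC u (by rw [abs_lt]; constructor <;> linarith))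
    rintro N' hN' hl' h3
    obtain ⟨-, -, h4⟩ := hS N' hN' hl'
    rcases h4 with h4 | h4
    · linarith [h3.2]
    · linarith [h3.1]
  | succ d ih =>
    intro N hN hl har hrb hKN
    obtain ⟨Pd, Pc⟩ := hN.1 hl
    by_cases hg : ∃ k' m', Gap n N.kc k' m' ∧ cl n k' m' (φ r)
    · obtain ⟨kc', mc', gc, hcl⟩ := hg
      obtain ⟨s, t, b1, b2, b3, b4, b5, b6, b7, b8, b9, b10, b11⟩ := comp_gap hφ Pc har hrb gc hcl
      have hs : s < r := by
        refine lt_of_le_of_ne b2 ?_
        rintro rfl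
        obtain ⟨u, u1, u2, u3⟩ := b10 (s - ε) (by linarith)
        exact u3 (by rw [hLC u (by rw [abs_lt]; constructor <;> linarith)]; exact hcl)
      have ht : r < t := by
        refine lt_of_le_of_ne b3 ?_
        rintro rfl
        obtain ⟨u, u1, u2, u3⟩ := b11 (r + ε) (by linarith)
        exact u3 (by rw [hLC u (by rw [abs_lt]; constructor <;> linarith)]; exact hcl)
      by_cases hnc : ∃ w, s ≤ w ∧ w ≤ t ∧ φ w ≠ φ s
      · obtain ⟨x, kd', md', x1, x2, gd, hrk, hox⟩ := exists_gap_point continuous_id Pd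
          (rk_pos_iff.2 gc.2.1) (rk_le n mc')
        obtain ⟨S, M, hF, hM, hMl, -, -, e1, -, e2, e3, e4, e5, e6, e7, hS⟩ := split_gap hφ hN hl x1 x2
          gd hox gc b1 b4 b5 b6 b7 b8 b9 hnc hrk
        by_cases hrM : M.a ≤ r ∧ r ≤ M.b
        · have h1 : M.a < r := by
            refine lt_of_le_of_ne hrM.1 ?_
            intro he
            obtain ⟨u, u1, u2, u3⟩ := e6 (M.a + ε) (by linarith)
            apply u3
            rw [← e4 M.a e2 le_rfl, he]
            exact hLC u (by rw [abs_lt]; constructor <;> linarith)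
          have h2 : r < M.b := by
            refine lt_of_le_of_ne hrM.2 ?_
            intro he
            obtain ⟨u, u1, u2, u3⟩ := e7 (M.b - ε) (by linarith)
            apply u3
            rw [← e5 M.b le_rfl e3, ← he]
            exact hLC u (by rw [abs_lt]; constructor <;> linarith)
          obtain ⟨S', hF', hS'⟩ := ih M (hF.good M hM) hMl h1 h2 (by have := gc.1; omega)
          refine ⟨_, front_replace hF hM hMl hF', ?_⟩
          rintro N' (h | h) hl' h3
          · obtain ⟨-, -, h4⟩ := hS N' h.1 hl' h.2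
            rcases h4 with h4 | h4
            · linarith [h3.2, h4.2]
            · linarith [h3.1, h4.2]
          · exact hS' N' h hl' h3
        · refine ⟨S, hF, ?_⟩
          intro N' hN' hl' h3
          by_cases hne : N' = M
          · rw [hne] at h3; exact hrM h3
          · obtain ⟨-, -, h4⟩ := hS N' hN' hl' hne
            rcases h4 with h4 | h4
            · linarith [h3.2, h4.2]
            · linarith [h3.1, h4.2]
      · push Not at hnc
        obtain ⟨S, hF, hS⟩ := split_const hN hl b1 (b2.trans b3) b4 hnc (zs_gap_bd gc b6) b8 b9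
        refine ⟨S, hF, ?_⟩
        rintro N' hN' hl' h3
        obtain ⟨-, -, h4⟩ := hS N' hN' hl'
        rcases h4 with h4 | h4
        · linarith [h3.2]
        · linarith [h3.1]
    · push Not at hg
      obtain ⟨s, t, b1, b2, b3, b4, b5, b6, b7, b8, b9, b10⟩ := comp_const hφ Pc har hrb hg
      have es : φ s = φ r := b5 s le_rfl (b2.trans b3)
      obtain ⟨S, hF, hS⟩ := split_const hN hl b1 (b2.trans b3) b4
        (fun w h1 h2 => by rw [b5 w h1 h2, es]) (by rw [es]; exact b8) b6 b7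
      refine ⟨S, hF, ?_⟩
      have hs : s < r := by
        refine lt_of_le_of_ne b2 ?_
        rintro rfl
        obtain ⟨u, u1, u2, u3⟩ := b9 (s - ε) (by linarith)
        exact u3 (hLC u (by rw [abs_lt]; constructor <;> linarith))
      have ht : r < t := by
        refine lt_of_le_of_ne b3 ?_
        rintro rfl
        obtain ⟨u, u1, u2, u3⟩ := b10 (r + ε) (by linarith)
        exact u3 (hLC u (by rw [abs_lt]; constructor <;> linarith))
      rintro N' hN' hl' h3
      obtain ⟨-, -, h4⟩ := hS N' hN' hl'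
      rcases h4 with h4 | h4
      · linarith [h3.2]
      · linarith [h3.1]

/-- requests of type 3: points of local constancy -/
theorem req_const (hφ : Continuous φ) {N : Node} (hN : Good n φ N) (hl : N.live) (r : ℝ) :
    ∃ S : Set Node, Front n φ N S ∧
      ∀ N' ∈ S, N'.live → LC φ r → ¬ (N'.a ≤ r ∧ r ≤ N'.b) := by
  by_cases hLC : LC φ r
  · obtain ⟨Pd, Pc⟩ := hN.1 hl
    by_cases hr : N.a ≤ r ∧ r ≤ N.b
    · obtain ⟨ε, hε, hc⟩ := id hLC
      have h1 : N.a < r := by
        refine lt_of_le_of_ne hr.1 ?_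
        intro he
        obtain ⟨u, u1, u2, z, -, hb⟩ := Pc.rg (N.a + ε) (by linarith)
        apply btw_ne hb
        rw [he]
        exact hc u (by rw [abs_lt]; constructor <;> linarith)
      have h2 : r < N.b := by
        refine lt_of_le_of_ne hr.2 ?_
        intro he
        obtain ⟨u, u1, u2, z, -, hb⟩ := Pc.lg (N.b - ε) (by linarith)
        apply btw_ne hb
        rw [← he]
        exact hc u (by rw [abs_lt]; constructor <;> linarith)
      by_cases hinf : ∀ K, ¬ Zs n K (φ r)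
      · obtain ⟨S, hF, hS⟩ := resolve_inf hφ hinf hN hl h1 h2
        exact ⟨S, hF, fun N' hN' hl' _ => hS N' hN' hl'⟩
      · push Not at hinf
        obtain ⟨K, hK⟩ := hinf
        obtain ⟨K', hK'⟩ := fin_address hK
        obtain ⟨S, hF, hS⟩ := resolve_fin hφ hLC hK' K' N hN hl h1 h2 (by omega)
        exact ⟨S, hF, fun N' hN' hl' _ => hS N' hN' hl'⟩
    · exact ⟨{N}, front_single hN hl, fun N' h _ _ => by
        rw [Set.mem_singleton_iff.1 h]; exact hr⟩
  · exact ⟨{N}, front_single hN hl, fun _ _ _ h => absurd h hLC⟩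

end Pool.Agent.H72.W
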