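import Mathlib
import Pool.Agent.H72.W.Resolve

set_option autoImplicit false

namespace Pool.Agent.H72.W

open Topology Filter

variable {n : ℕ} {φ : ℝ → ℝ}

/-- schedule: every pair (rational, type) occurs infinitely often -/
theorem exists_schedule : ∃ q : ℕ → ℚ × Fin 3, ∀ x T, ∃ t, T ≤ t ∧ q t = x := by
  obtain ⟨f, hf⟩ := exists_surjective_nat (ℚ × Fin 3)
  refine ⟨fun t => f (Nat.unpair t).1, fun x T => ?_⟩
  obtain ⟨i, hi⟩ := hf x
  refine ⟨Nat.pair i T, Nat.right_le_pair i T, ?_⟩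
  simp [hi]

/-- the requests fulfilled by a family of children -/
structure Req (n : ℕ) (φ : ℝ → ℝ) (q : ℚ × Fin 3) (N : Node) (S : Set Node) : Prop where
  front : Front n φ N S
  r0 : q.2 = 0 → ∀ N' ∈ S, N'.live → N'.kd = N.kd → ¬ Zs n N.kd (q.1 : ℝ) →
    ¬ (N'.l ≤ (q.1 : ℝ) ∧ (q.1 : ℝ) ≤ N'.r)
  r1 : q.2 = 1 → ∀ N' ∈ S, N'.live → N'.kc = N.kc → ¬ Zs n N.kc (φ (q.1 : ℝ)) →
    ¬ (N'.a ≤ (q.1 : ℝ) ∧ (q.1 : ℝ) ≤ N'.b)
  r2 : q.2 = 2 → ∀ N' ∈ S, N'.live → LC φ (q.1 : ℝ) → ¬ (N'.a ≤ (q.1 : ℝ) ∧ (q.1 : ℝ) ≤ N'.b)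

theorem exists_req (hφ : Continuous φ) {N : Node} (hN : Good n φ N) (hl : N.live) (q : ℚ × Fin 3) :
    ∃ S, Req n φ q N S := by
  obtain ⟨ρ, i⟩ := q
  obtain ⟨S0, F0, H0⟩ := req_dom hφ hN hl (ρ : ℝ)
  obtain ⟨S1, F1, H1⟩ := req_cod hφ hN hl (ρ : ℝ)
  obtain ⟨S2, F2, H2⟩ := req_const hφ hN hl (ρ : ℝ)
  fin_cases i
  · exact ⟨S0, F0, fun _ => H0, fun h => absurd h (by simp), fun h => absurd h (by simp)⟩
  · exact ⟨S1, F1, fun h => absurd h (by simp), fun _ => H1, fun h => absurd h (by simp)⟩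
  · exact ⟨S2, F2, fun h => absurd h (by simp), fun h => absurd h (by simp), fun _ => H2⟩

/-- the tree of nodes -/
theorem exists_children (hφ : Continuous φ) (q : ℕ → ℚ × Fin 3) :
    ∃ ch : ℕ → Node → Set Node, ∀ t N, Good n φ N →
      (N.live → Req n φ (q t) N (ch t N)) ∧ (¬ N.live → ch t N = {N}) := by
  classical
  have h : ∀ (t : ℕ) (N : Node), ∃ S : Set Node, Good n φ N →
      (N.live → Req n φ (q t) N S) ∧ (¬ N.live → S = {N}) := by
    intro t N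
    by_cases hg : Good n φ N
    · by_cases hl : N.live
      · obtain ⟨S, hS⟩ := exists_req hφ hg hl (q t)
        exact ⟨S, fun _ => ⟨fun _ => hS, fun h => absurd hl h⟩⟩
      · exact ⟨{N}, fun _ => ⟨fun h => absurd h hl, fun _ => rfl⟩⟩
    · exact ⟨∅, fun h => absurd h hg⟩
  choose ch hch using h
  exact ⟨ch, hch⟩

/-- tracks -/
structure Track (ch : ℕ → Node → Set Node) (N0 : Node) (x : ℕ → Node) : Prop where
  zero : x 0 = N0
  succ : ∀ t, x (t + 1) ∈ ch t (x t)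

/-- the hypotheses on the tree -/
structure Tree (n : ℕ) (φ : ℝ → ℝ) (q : ℕ → ℚ × Fin 3) (ch : ℕ → Node → Set Node) (N0 : Node) :
    Prop where
  cont : Continuous φ
  sched : ∀ x T, ∃ t, T ≤ t ∧ q t = x
  good0 : Good n φ N0
  live0 : N0.live
  ch : ∀ t N, Good n φ N → (N.live → Req n φ (q t) N (ch t N)) ∧ (¬ N.live → ch t N = {N})

section tree

variable {q : ℕ → ℚ × Fin 3} {ch : ℕ → Node → Set Node} {N0 : Node}

theorem Tree.good (H : Tree n φ q ch N0) {x : ℕ → Node} (hx : Track ch N0 x) (t : ℕ) :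
    Good n φ (x t) := by
  induction t with
  | zero => rw [hx.zero]; exact H.good0
  | succ t ih =>
    by_cases hl : (x t).live
    · exact ((H.ch t _ ih).1 hl).front.good _ (hx.succ t)
    · have h1 := hx.succ t
      rw [(H.ch t _ ih).2 hl, Set.mem_singleton_iff] at h1
      rw [h1]; exact ih

theorem good_rect {N : Node} (h : Good n φ N) : N.l ≤ N.r ∧ N.a ≤ N.b := by
  by_cases hl : N.live
  · exact ⟨(h.1 hl).1.lt.le, (h.1 hl).2.lt.le⟩
  · exact ⟨(h.2 hl).lr.le, (h.2 hl).ab⟩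

theorem Tree.cov (H : Tree n φ q ch N0) {N : Node} (hN : Good n φ N) (t : ℕ) :
    Cov N.l N.r N.a N.b (ch t N) := by
  by_cases hl : N.live
  · exact ((H.ch t _ hN).1 hl).front.cov
  · rw [(H.ch t _ hN).2 hl]
    exact cov_single N (good_rect hN).1 (good_rect hN).2

theorem Tree.good_child (H : Tree n φ q ch N0) {N : Node} (hN : Good n φ N) {t : ℕ} {N' : Node}
    (h : N' ∈ ch t N) : Good n φ N' := by
  by_cases hl : N.live
  · exact ((H.ch t _ hN).1 hl).front.good _ h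
  · rw [(H.ch t _ hN).2 hl, Set.mem_singleton_iff] at h
    rw [h]; exact hN

theorem Tree.nested (H : Tree n φ q ch N0) {x : ℕ → Node} (hx : Track ch N0 x) {s t : ℕ}
    (hst : s ≤ t) : (x s).l ≤ (x t).l ∧ (x t).r ≤ (x s).r ∧ (x s).a ≤ (x t).a ∧ (x t).b ≤ (x s).b := by
  induction t, hst using Nat.le_induction with
  | base => exact ⟨le_rfl, le_rfl, le_rfl, le_rfl⟩
  | succ t _ ih =>
    obtain ⟨a1, a2, a3, a4, a5, a6⟩ := (H.cov (H.good hx t) t).sub _ (hx.succ t)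
    exact ⟨ih.1.trans a1, a3.trans ih.2.1, ih.2.2.1.trans a4, a6.trans ih.2.2.2⟩

theorem Tree.const_forever (H : Tree n φ q ch N0) {x : ℕ → Node} (hx : Track ch N0 x) {s t : ℕ}
    (hst : s ≤ t) (hl : ¬ (x s).live) : x t = x s := by
  induction t, hst using Nat.le_induction with
  | base => rfl
  | succ t _ ih =>
    have h1 := hx.succ t
    rw [(H.ch t _ (H.good hx t)).2 (by rw [ih]; exact hl), Set.mem_singleton_iff, ih] at h1
    exact h1

/-- `y` and `w` lie in all rectangles of the track -/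
def In (x : ℕ → Node) (y w : ℝ) : Prop :=
  ∀ t, ((x t).l ≤ y ∧ y ≤ (x t).r) ∧ ((x t).a ≤ w ∧ w ≤ (x t).b)

/-- the relation -/
def Rel (ch : ℕ → Node → Set Node) (N0 : Node) (y w : ℝ) : Prop :=
  ∃ x, Track ch N0 x ∧ In x y w

/-- following a point of the domain or codomain -/
theorem Tree.follow (H : Tree n φ q ch N0) (P : Node → Prop) (h0 : P N0)
    (hs : ∀ t N, Good n φ N → P N → ∃ N' ∈ ch t N, P N') : ∃ x, Track ch N0 x ∧ ∀ t, P (x t) := by
  have hex : ∀ (t : ℕ) (N : {N : Node // Good n φ N ∧ P N}),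
      ∃ N' : {N : Node // Good n φ N ∧ P N}, N'.1 ∈ ch t N.1 := by
    rintro t ⟨N, hN, hP⟩
    obtain ⟨N', hN', hP'⟩ := hs t N hN hP
    exact ⟨⟨N', H.good_child hN hN', hP'⟩, hN'⟩
  choose f hf using hex
  let x : ℕ → {N : Node // Good n φ N ∧ P N} :=
    fun t => Nat.rec ⟨N0, H.good0, h0⟩ (fun t N => f t N) t
  exact ⟨fun t => (x t).1, ⟨rfl, fun t => hf t (x t)⟩, fun t => (x t).2.2⟩

theorem exists_common {a b : ℕ → ℝ} (h1 : ∀ s t, s ≤ t → a s ≤ a t ∧ b t ≤ b s)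
    (h2 : ∀ t, a t ≤ b t) : ∃ w, ∀ t, a t ≤ w ∧ w ≤ b t := by
  have h3 : ∀ s t, a s ≤ b t := by
    intro s t
    rcases le_total s t with h | h
    · exact (h1 s t h).1.trans (h2 t)
    · exact (h2 s).trans (h1 t s h).2
  have hb : BddAbove (Set.range a) := ⟨b 0, by rintro _ ⟨s, rfl⟩; exact h3 s 0⟩
  exact ⟨⨆ t, a t, fun t => ⟨le_ciSup hb t, ciSup_le fun s => h3 s t⟩⟩

theorem Tree.total_left (H : Tree n φ q ch N0) {y : ℝ} (h1 : N0.l ≤ y) (h2 : y ≤ N0.r) :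
    ∃ w, Rel ch N0 y w := by
  obtain ⟨x, hx, hP⟩ := H.follow (fun N => N.l ≤ y ∧ y ≤ N.r) ⟨h1, h2⟩
    (fun t N hN hP => (H.cov hN t).cd y hP.1 hP.2)
  obtain ⟨w, hw⟩ := exists_common (a := fun t => (x t).a) (b := fun t => (x t).b)
    (fun s t hst => ⟨(H.nested hx hst).2.2.1, (H.nested hx hst).2.2.2⟩)
    (fun t => (good_rect (H.good hx t)).2)
  exact ⟨w, x, hx, fun t => ⟨hP t, hw t⟩⟩

theorem Tree.total_right (H : Tree n φ q ch N0) {w : ℝ} (h1 : N0.a ≤ w) (h2 : w ≤ N0.b) :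
    ∃ y, Rel ch N0 y w := by
  obtain ⟨x, hx, hP⟩ := H.follow (fun N => N.a ≤ w ∧ w ≤ N.b) ⟨h1, h2⟩
    (fun t N hN hP => (H.cov hN t).cc w hP.1 hP.2)
  obtain ⟨y, hy⟩ := exists_common (a := fun t => (x t).l) (b := fun t => (x t).r)
    (fun s t hst => ⟨(H.nested hx hst).1, (H.nested hx hst).2.1⟩)
    (fun t => (good_rect (H.good hx t)).1)
  exact ⟨y, x, hx, fun t => ⟨hy t, hP t⟩⟩

/-- comparison of tracks -/
theorem Tree.compare (H : Tree n φ q ch N0) {x x' : ℕ → Node} (hx : Track ch N0 x)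
    (hx' : Track ch N0 x') : x = x' ∨ ∃ t, (x t).le (x' t) ∨ (x' t).le (x t) := by
  classical
  by_cases h : x = x'
  · exact Or.inl h
  · right
    have hex : ∃ t, x t ≠ x' t := by
      by_contra hc
      push Not at hc
      exact h (funext hc)
    have h1 := Nat.find_spec hex
    have h2 : Nat.find hex ≠ 0 := by
      intro h0
      rw [h0, hx.zero, hx'.zero] at h1
      exact h1 rfl
    obtain ⟨t, ht⟩ : ∃ t, Nat.find hex = t + 1 := ⟨Nat.find hex - 1, by omega⟩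
    have h3 : x t = x' t := by
      have := Nat.find_min hex (m := t) (by omega)
      exact not_not.1 this
    rw [ht] at h1
    refine ⟨t + 1, ?_⟩
    have h4 := hx.succ t
    have h5 := hx'.succ t
    rw [← h3] at h5
    rcases (H.cov (H.good hx t) t).cmp _ h4 _ h5 with h6 | h6 | h6
    · exact absurd h6 h1
    · exact Or.inl h6
    · exact Or.inr h6

end tree

/-- bounded orders force points of `Zs` -/
theorem zs_of_bounded {ψ : ℝ → ℝ} (hψ : Continuous ψ) {a b : ℕ → ℝ} {K T : ℕ}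
    (hP : ∀ t, T ≤ t → Zs n K (ψ (a t)) ∧ Zs n K (ψ (b t)))
    (hreq : ∀ ρ : ℚ, ¬ Zs n K (ψ ρ) → ∃ t, T ≤ t ∧ ¬ (a t ≤ ρ ∧ (ρ : ℝ) ≤ b t)) {v : ℝ}
    (hv : ∀ t, a t ≤ v ∧ v ≤ b t) : Zs n K (ψ v) := by
  by_contra hc
  obtain ⟨k', m', g, ho⟩ := gap_of_not_Zs hc
  obtain ⟨ε, hε, hball⟩ := Metric.isOpen_iff.1 (isOpen_op n k' m' hψ) v ho
  have hnz : ∀ u, |u - v| < ε → ¬ Zs n K (ψ u) := by
    intro u hu hz
    have : u ∈ Metric.ball v ε := by rw [Metric.mem_ball, Real.dist_eq]; exact hu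
    exact hz k' m' g.1 g.2.1 (hball this)
  obtain ⟨ρ, h1, h2⟩ := exists_rat_btwn (show v - ε < v by linarith)
  obtain ⟨t, ht, hn⟩ := hreq ρ (hnz ρ (by rw [abs_lt]; constructor <;> linarith))
  apply hn
  constructor
  · by_contra hc1
    push Not at hc1
    exact hnz (a t) (by rw [abs_lt]; constructor <;> linarith [(hv t).1]) (hP t ht).1
  · linarith [(hv t).2]

/-- levels are read off from the symbols -/
theorem lv_iff_hs {k : ℕ → ℕ} {m : ℕ → ℤ} {y : ℝ} (hs : ∀ t, Sub n (k t) (m t) (k (t + 1)) (m (t + 1)))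
    (hcl : ∀ t, cl n (k t) (m t) y) (hunb : ∀ K, ∃ t, K < k t) {j : ℕ} :
    Lv n j y ↔ ∀ T, ∃ t, T ≤ t ∧ HS n (k t) (k (t + 1)) (m (t + 1)) j := by
  classical
  have hmono : Monotone k := monotone_nat_of_le_succ fun t => (hs t).le
  have hodd : ∀ i, ∃ k' m', i < k' ∧ od n m' ∧ cl n k' m' y := by
    intro i
    have hex : ∃ t, k 0 + i < k t := hunb _
    have h1 := Nat.find_spec hex
    have h2 : Nat.find hex ≠ 0 := by
      intro h0
      rw [h0] at h1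
      omega
    obtain ⟨t, ht⟩ : ∃ t, Nat.find hex = t + 1 := ⟨Nat.find hex - 1, by omega⟩
    have h3 := Nat.find_min hex (m := t) (by omega)
    rw [ht] at h1
    exact ⟨k (t + 1), m (t + 1), by omega, (hs t).od (by omega), hcl _⟩
  constructor
  · intro h T
    obtain ⟨i, m0, hi, hr, ho⟩ := h (k T)
    have hex : ∃ t, i ≤ k t := by
      obtain ⟨t, ht⟩ := hunb i
      exact ⟨t, ht.le⟩
    have h1 := Nat.find_spec hex
    have hT : T < Nat.find hex := by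
      by_contra hc
      push Not at hc
      have := hmono hc
      omega
    obtain ⟨t, ht⟩ : ∃ t, Nat.find hex = t + 1 := ⟨Nat.find hex - 1, by omega⟩
    have h3 := Nat.find_min hex (m := t) (by omega)
    rw [ht] at h1
    refine ⟨t, by omega, i, by omega, h1, ?_⟩
    have := uniq ho (nest_cl' h1 (hcl (t + 1)))
    rw [← this]
    exact hr
  · intro h K
    obtain ⟨T, hT⟩ := hunb K
    obtain ⟨t, ht, i, h1, h2, h3⟩ := h T
    have hKi : K < i := by have := hmono ht; omega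
    refine ⟨i, _, hKi, h3, ?_⟩
    by_contra hno
    obtain ⟨M, hM⟩ := int_of_bd (not_op_iff (nest_cl' h2 (hcl (t + 1))) hno)
    obtain ⟨k', m', hk', ho', hc'⟩ := hodd i
    exact bd hM hk' hc' ho'

end Pool.Agent.H72.W
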