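import Mathlib
import Pool.Agent.H72.W.Track

set_option autoImplicit false

namespace Pool.Agent.H72.W

open Topology Filter

variable {n : ℕ} {φ : ℝ → ℝ}

theorem exists_between_levels (n : ℕ) {u v : ℝ} (huv : u < v) :
    (∃ z, u < z ∧ z < v ∧ Lv n 1 z) ∧ ∃ z k, u < z ∧ z < v ∧ Zs n k z := by
  obtain ⟨k, -, hk⟩ := exists_order n 0 (show 0 < v - u by linarith)
  have hB := bsR_pow_pos n k
  have h1 := Int.lt_floor_add_one ((bs n : ℝ) ^ k * u)
  have h2 := Int.floor_le ((bs n : ℝ) ^ k * u)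
  set M : ℤ := ⌊(bs n : ℝ) ^ k * u⌋ + 1 with hM
  have h3 : (M : ℝ) = (⌊(bs n : ℝ) ^ k * u⌋ : ℝ) + 1 := by rw [hM]; push_cast; ring
  have e : (bs n : ℝ) ^ k * ((M : ℝ) / (bs n : ℝ) ^ k) = M := by field_simp
  have hz1 : u < (M : ℝ) / (bs n : ℝ) ^ k := by
    rw [lt_div_iff₀ hB, h3]; linarith
  have hz2 : (M : ℝ) / (bs n : ℝ) ^ k < v := by
    rw [div_lt_iff₀ hB, h3]; nlinarith
  have hzs : Zs n k ((M : ℝ) / (bs n : ℝ) ^ k) := zs_of_int e
  refine ⟨?_, _, k, hz1, hz2, hzs⟩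
  obtain ⟨k', m', g, -, hr, hin⟩ := gap_in (N := 0) hzs hz1 hz2 le_rfl (show 1 ≤ n + 1 by omega)
  have hop : op n k' m' (zpt n k' m' (2 * (1 : ℕ) - 1)) :=
    zpt_op (k := k') (m := m') (by norm_num) (by have := bs_ge n; push_cast; omega) 0
  exact ⟨_, (hin _ (op_cl hop)).1, (hin _ (op_cl hop)).2, (zpt_lv le_rfl (by omega) 1).2 le_rfl⟩

/-- intermediate values -/
theorem ivt (hφ : Continuous φ) {p q y : ℝ} (h : btw (φ p) y (φ q)) :
    ∃ x, min p q ≤ x ∧ x ≤ max p q ∧ φ x = y := by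
  have h1 : y ∈ Set.uIcc (φ p) (φ q) := by
    rw [Set.mem_uIcc]
    rcases h with h | h
    · exact Or.inl ⟨h.1.le, h.2.le⟩
    · exact Or.inr ⟨h.1.le, h.2.le⟩
  obtain ⟨x, hx, hxy⟩ := intermediate_value_uIcc (hφ.continuousOn) h1
  exact ⟨x, hx.1, hx.2, hxy⟩

theorem btw_levels (n : ℕ) {u v : ℝ} (huv : v ≠ u) :
    (∃ z, btw u z v ∧ Lv n 1 z) ∧ ∃ z k, btw u z v ∧ Zs n k z := by
  rcases lt_or_gt_of_ne huv with h | h
  · obtain ⟨⟨z, h1, h2, h3⟩, z', k, h4, h5, h6⟩ := exists_between_levels n h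
    exact ⟨⟨z, Or.inr ⟨h1, h2⟩, h3⟩, z', k, Or.inr ⟨h4, h5⟩, h6⟩
  · obtain ⟨⟨z, h1, h2, h3⟩, z', k, h4, h5, h6⟩ := exists_between_levels n h
    exact ⟨⟨z, Or.inl ⟨h1, h2⟩, h3⟩, z', k, Or.inl ⟨h4, h5⟩, h6⟩

theorem const_of_zs (hφ : Continuous φ) {w w' : ℝ} {K : ℕ}
    (h : ∀ v, w ≤ v → v ≤ w' → Zs n K (φ v)) : ∀ v, w ≤ v → v ≤ w' → φ v = φ w := by
  intro v h1 h2
  by_contra hne
  obtain ⟨⟨z, hz, hl⟩, -⟩ := btw_levels n hne
  obtain ⟨x, x1, x2, x3⟩ := ivt hφ hz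
  rw [min_eq_left h1] at x1
  rw [max_eq_right h1] at x2
  have := h x x1 (x2.trans h2)
  rw [x3] at this
  exact zs_not_lv this le_rfl hl

theorem edge_lt {N N' : Node} (h : Edge n N N') : N.kd < N'.kd ↔ N.kc < N'.kc := by
  constructor
  · intro hlt
    have h1 : HS n N.kd N'.kd N'.md 1 :=
      ⟨N'.kd, hlt, le_rfl, by rw [Nat.sub_self, pow_zero, Int.ediv_one]; exact rk_pos_iff.2 (h.sd.od hlt)⟩
    obtain ⟨i, h2, h3, -⟩ := (h.hs 1 le_rfl).1 h1
    omega
  · intro hlt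
    have h1 : HS n N.kc N'.kc N'.mc 1 :=
      ⟨N'.kc, hlt, le_rfl, by rw [Nat.sub_self, pow_zero, Int.ediv_one]; exact rk_pos_iff.2 (h.sc.od hlt)⟩
    obtain ⟨i, h2, h3, -⟩ := (h.hs 1 le_rfl).2 h1
    omega

theorem unbounded_of_increases {f : ℕ → ℕ} (hm : Monotone f) (h : ∀ T, ∃ t, T ≤ t ∧ f t < f (t + 1))
    (K : ℕ) : ∃ t, K < f t := by
  induction K with
  | zero =>
    obtain ⟨t, -, ht⟩ := h 0
    exact ⟨t + 1, by omega⟩
  | succ K ih =>
    obtain ⟨T, hT⟩ := ih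
    obtain ⟨t, ht, hlt⟩ := h T
    have := hm ht
    exact ⟨t + 1, by omega⟩

section tree

variable {q : ℕ → ℚ × Fin 3} {ch : ℕ → Node → Set Node} {N0 : Node}

theorem Tree.edges (H : Tree n φ q ch N0) {x : ℕ → Node} (hx : Track ch N0 x)
    (hl : ∀ t, (x t).live) (t : ℕ) : Edge n (x t) (x (t + 1)) :=
  ((H.ch t _ (H.good hx t)).1 (hl t)).front.edge _ (hx.succ t) (hl (t + 1))

theorem Tree.dich (H : Tree n φ q ch N0) {x : ℕ → Node} (hx : Track ch N0 x)
    (hl : ∀ t, (x t).live) :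
    (∃ T, ∀ t, T ≤ t → (x t).kd = (x T).kd ∧ (x t).kc = (x T).kc) ∨
      ((∀ K, ∃ t, K < (x t).kd) ∧ (∀ K, ∃ t, K < (x t).kc)) := by
  have md : Monotone fun t => (x t).kd := monotone_nat_of_le_succ fun t => (H.edges hx hl t).sd.le
  have mc : Monotone fun t => (x t).kc := monotone_nat_of_le_succ fun t => (H.edges hx hl t).sc.le
  by_cases h : ∃ T, ∀ t, T ≤ t → ¬ (x t).kd < (x (t + 1)).kd
  · left
    obtain ⟨T, hT⟩ := h
    refine ⟨T, fun t ht => ?_⟩
    induction t, ht using Nat.le_induction with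
    | base => exact ⟨rfl, rfl⟩
    | succ t ht ih =>
      have h1 := hT t ht
      have h2 : ¬ (x t).kc < (x (t + 1)).kc := fun h => h1 ((edge_lt (H.edges hx hl t)).2 h)
      have h3 := (H.edges hx hl t).sd.le
      have h4 := (H.edges hx hl t).sc.le
      constructor <;> omega
  · right
    push Not at h
    refine ⟨fun K => unbounded_of_increases md h K, fun K => unbounded_of_increases mc ?_ K⟩
    intro T
    obtain ⟨t, ht, hlt⟩ := h T
    exact ⟨t, ht, (edge_lt (H.edges hx hl t)).1 hlt⟩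

theorem Tree.zs_dom (H : Tree n φ q ch N0) {x : ℕ → Node} (hx : Track ch N0 x)
    (hl : ∀ t, (x t).live) {T : ℕ} (hT : ∀ t, T ≤ t → (x t).kd = (x T).kd) {y : ℝ}
    (hy : ∀ t, (x t).l ≤ y ∧ y ≤ (x t).r) : Zs n (x T).kd y := by
  refine zs_of_bounded (ψ := id) continuous_id (a := fun t => (x t).l) (b := fun t => (x t).r)
    (K := (x T).kd) (T := T) ?_ ?_ hy
  · intro t ht
    have P := ((H.good hx t).1 (hl t)).1
    rw [← hT t ht]
    exact ⟨P.za, P.zb⟩
  · intro ρ hρ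
    obtain ⟨t, ht, hqt⟩ := H.sched (ρ, 0) T
    refine ⟨t + 1, by omega, ?_⟩
    have R := (H.ch t _ (H.good hx t)).1 (hl t)
    have h1 := R.r0 (by rw [hqt]) _ (hx.succ t) (hl (t + 1))
      (by rw [hT t ht, hT (t + 1) (by omega)])
    rw [hqt, hT t ht] at h1
    exact h1 hρ

theorem Tree.zs_cod (H : Tree n φ q ch N0) {x : ℕ → Node} (hx : Track ch N0 x)
    (hl : ∀ t, (x t).live) {T : ℕ} (hT : ∀ t, T ≤ t → (x t).kc = (x T).kc) {w : ℝ}
    (hw : ∀ t, (x t).a ≤ w ∧ w ≤ (x t).b) : Zs n (x T).kc (φ w) := by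
  refine zs_of_bounded (ψ := φ) H.cont (a := fun t => (x t).a) (b := fun t => (x t).b)
    (K := (x T).kc) (T := T) ?_ ?_ hw
  · intro t ht
    have P := ((H.good hx t).1 (hl t)).2
    rw [← hT t ht]
    exact ⟨P.za, P.zb⟩
  · intro ρ hρ
    obtain ⟨t, ht, hqt⟩ := H.sched (ρ, 1) T
    refine ⟨t + 1, by omega, ?_⟩
    have R := (H.ch t _ (H.good hx t)).1 (hl t)
    have h1 := R.r1 (by rw [hqt]) _ (hx.succ t) (hl (t + 1))
      (by rw [hT t ht, hT (t + 1) (by omega)])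
    rw [hqt, hT t ht] at h1
    exact h1 hρ

/-- on a live track the codomain point is unique -/
theorem Tree.unique_cod (H : Tree n φ q ch N0) {x : ℕ → Node} (hx : Track ch N0 x)
    (hl : ∀ t, (x t).live) {w w' : ℝ} (hw : ∀ t, (x t).a ≤ w ∧ w ≤ (x t).b)
    (hw' : ∀ t, (x t).a ≤ w' ∧ w' ≤ (x t).b) : ¬ w < w' := by
  intro hlt
  have hin : ∀ v, w ≤ v → v ≤ w' → ∀ t, (x t).a ≤ v ∧ v ≤ (x t).b :=
    fun v h1 h2 t => ⟨(hw t).1.trans h1, h2.trans (hw' t).2⟩
  have hconst : ∀ v, w ≤ v → v ≤ w' → φ v = φ w := by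
    rcases H.dich hx hl with ⟨T, hT⟩ | ⟨-, hU⟩
    · exact const_of_zs H.cont (K := (x T).kc)
        (fun v h1 h2 => H.zs_cod hx hl (fun t ht => (hT t ht).2) (hin v h1 h2))
    · intro v h1 h2
      by_contra hne
      have hε : 0 < |φ v - φ w| := abs_pos.2 (sub_ne_zero.2 hne)
      obtain ⟨i, -, hi⟩ := exists_order n 0 hε
      obtain ⟨t, ht⟩ := hU i
      have h3 : 1 < (bs n : ℝ) ^ ((x t).kc) * |φ v - φ w| := by
        have : (bs n : ℝ) ^ i ≤ (bs n : ℝ) ^ ((x t).kc) :=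
          pow_le_pow_right₀ (by linarith [bsR_ge n]) ht.le
        nlinarith
      have P := ((H.good hx t).1 (hl t)).2
      have := cl_dist (P.amb v (hin v h1 h2 t).1 (hin v h1 h2 t).2) (P.amb w (hw t).1 (hw t).2) h3
      exact lt_irrefl _ this
  obtain ⟨ρ, h1, h2⟩ := exists_rat_btwn hlt
  have hLC : LC φ (ρ : ℝ) := by
    refine ⟨min ((ρ : ℝ) - w) (w' - ρ), lt_min (by linarith) (by linarith), fun u hu => ?_⟩
    have a1 := lt_of_lt_of_le hu (min_le_left _ _)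
    have a2 := lt_of_lt_of_le hu (min_le_right _ _)
    rw [abs_lt] at a1 a2
    rw [hconst u (by linarith) (by linarith), hconst ρ h1.le h2.le]
  obtain ⟨t, -, hqt⟩ := H.sched (ρ, 2) 0
  have R := (H.ch t _ (H.good hx t)).1 (hl t)
  have h3 := R.r2 (by rw [hqt]) _ (hx.succ t) (hl (t + 1))
  rw [hqt] at h3
  exact h3 hLC (hin ρ h1.le h2.le (t + 1))

/-- levels agree along tracks -/
theorem Tree.levels (H : Tree n φ q ch N0) {y w : ℝ} (h : Rel ch N0 y w) (j : ℕ) (hj : 1 ≤ j) :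
    Lv n j y ↔ Lv n j (φ w) := by
  obtain ⟨x, hx, hin⟩ := h
  by_cases hl : ∀ t, (x t).live
  · rcases H.dich hx hl with ⟨T, hT⟩ | ⟨hU1, hU2⟩
    · exact lv_iff_of_zs (H.zs_dom hx hl (fun t ht => (hT t ht).1) fun t => (hin t).1)
        (H.zs_cod hx hl (fun t ht => (hT t ht).2) fun t => (hin t).2) j hj
    · have hE := H.edges hx hl
      have hcd : ∀ t, cl n (x t).kd (x t).md y :=
        fun t => ((H.good hx t).1 (hl t)).1.amb y (hin t).1.1 (hin t).1.2
      rw [lv_iff_hs (fun t => (hE t).sd) hcd hU1,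
        lv_iff_hs (fun t => (hE t).sc)
          (fun t => ((H.good hx t).1 (hl t)).2.amb w (hin t).2.1 (hin t).2.2) hU2]
      refine forall_congr' fun T => exists_congr fun t => and_congr_right fun _ => ?_
      exact (hE t).hs j hj
  · push Not at hl
    obtain ⟨t, ht⟩ := hl
    have G := (H.good hx t).2 ht
    have e1 : y = (x t).l := le_antisymm ((hin t).1.2.trans G.lr.ge) (hin t).1.1
    rw [e1, G.lev j hj, G.const w (hin t).2.1 (hin t).2.2]

theorem Tree.mono (H : Tree n φ q ch N0) {y w y' w' : ℝ} (h : Rel ch N0 y w)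
    (h' : Rel ch N0 y' w') (hy : y < y') : w ≤ w' := by
  obtain ⟨x, hx, hin⟩ := h
  obtain ⟨x', hx', hin'⟩ := h'
  rcases H.compare hx hx' with he | ⟨t, ht | ht⟩
  · subst he
    by_cases hl : ∀ t, (x t).live
    · by_contra hc
      push Not at hc
      exact H.unique_cod hx hl (fun t => (hin' t).2) (fun t => (hin t).2) hc
    · push Not at hl
      obtain ⟨t, ht⟩ := hl
      have G := (H.good hx t).2 ht
      have := (hin t).1.1
      have := (hin' t).1.2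
      have := G.lr
      linarith
  · exact (hin t).2.2.trans (ht.2.trans (hin' t).2.1)
  · have := ((hin' t).1.2.trans (ht.1.trans (hin t).1.1))
    linarith

theorem rel_range {y w : ℝ} (h : Rel ch N0 y w) :
    (N0.l ≤ y ∧ y ≤ N0.r) ∧ (N0.a ≤ w ∧ w ≤ N0.b) := by
  obtain ⟨x, hx, hin⟩ := h
  have := hin 0
  rwa [hx.zero] at this

theorem Tree.convex (H : Tree n φ q ch N0) {y w w' v : ℝ} (h : Rel ch N0 y w)
    (h' : Rel ch N0 y w') (h1 : w < v) (h2 : v < w') : Rel ch N0 y v := by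
  obtain ⟨y', hy'⟩ := H.total_right (w := v) (by linarith [(rel_range h).2.1])
    (by linarith [(rel_range h').2.2])
  rcases lt_trichotomy y' y with hlt | heq | hgt
  · have := H.mono hy' h hlt
    linarith
  · rwa [heq] at hy'
  · have := H.mono h' hy' hgt
    linarith

theorem Tree.rational (H : Tree n φ q ch N0) {y w w' : ℝ} (h : Rel ch N0 y w)
    (h' : Rel ch N0 y w') (hlt : w < w') : ∃ r : ℚ, y = r := by
  have hv := H.convex h h' (v := (w + w') / 2) (by linarith) (by linarith)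
  obtain ⟨x1, hx1, hin1⟩ := h
  obtain ⟨x2, hx2, hin2⟩ := hv
  obtain ⟨x3, hx3, hin3⟩ := h'
  by_cases hl : ∀ t, (x2 t).live
  · exfalso
    have key1 : ∃ t, (x2 t).l = y := by
      rcases H.compare hx1 hx2 with he | ⟨t, ht | ht⟩
      · subst he
        exact absurd (show w < (w + w') / 2 by linarith)
          (H.unique_cod hx1 hl (fun t => (hin1 t).2) (fun t => (hin2 t).2))
      · exact ⟨t, le_antisymm (hin2 t).1.1 ((hin1 t).1.2.trans ht.1)⟩
      · have := (hin2 t).2.2.trans (ht.2.trans (hin1 t).2.1)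
        linarith
    have key2 : ∃ t, (x2 t).r = y := by
      rcases H.compare hx2 hx3 with he | ⟨t, ht | ht⟩
      · subst he
        exact absurd (show (w + w') / 2 < w' by linarith)
          (H.unique_cod hx2 hl (fun t => (hin2 t).2) (fun t => (hin3 t).2))
      · exact ⟨t, le_antisymm (ht.1.trans (hin3 t).1.1) (hin2 t).1.2⟩
      · have := (hin3 t).2.2.trans (ht.2.trans (hin2 t).2.1)
        linarith
    obtain ⟨t, ht⟩ := key1
    obtain ⟨t', ht'⟩ := key2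
    have a1 := (H.nested hx2 (le_max_left t t')).1
    have a2 := (H.nested hx2 (le_max_right t t')).2.1
    have a3 := ((H.good hx2 (max t t')).1 (hl _)).1.lt
    linarith
  · push Not at hl
    obtain ⟨t, ht⟩ := hl
    have G := (H.good hx2 t).2 ht
    have e1 : y = (x2 t).l := le_antisymm ((hin2 t).1.2.trans G.lr.ge) (hin2 t).1.1
    rw [e1]
    exact G.rat

end tree

end Pool.Agent.H72.W
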