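import Mathlib
import Pool.Agent.H72.W.Rel

set_option autoImplicit false

namespace Pool.Agent.H72.W

open Topology Filter

/-- properties of the blow-up map -/
structure QProp (q : ℝ → ℝ) : Prop where
  mono : Monotone q
  cont : Continuous q
  nonneg : ∀ x, 0 ≤ q x
  le_one : ∀ x, q x ≤ 1
  surj : ∀ y, 0 ≤ y → y ≤ 1 → ∃ x, q x = y
  rat : ∀ r : ℚ, (0 : ℝ) ≤ r → (r : ℝ) ≤ 1 → ∃ c d, c < d ∧ q c = r ∧ q d = r

variable {n : ℕ} {φ : ℝ → ℝ}

theorem reduce (hφ : Continuous φ) {k : ℕ} {m : ℤ} {a b : ℝ} (P : Piece n φ k m a b)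
    {Q : ℝ → ℝ} (hQ : QProp Q) :
    ∃ g : ℝ → ℝ, Continuous g ∧ ∀ x j, 1 ≤ j → (Lv n j (Q x) ↔ Lv n j (φ (g x))) := by
  classical
  obtain ⟨q, hq⟩ := exists_schedule
  obtain ⟨ch, hch⟩ := exists_children (n := n) hφ q
  let N0 : Node := ⟨0, 1, a, b, True, 0, 0, k, m⟩
  have hb0 : (bs n : ℝ) ^ 0 * (0 : ℝ) = ((0 : ℤ) : ℝ) := by simp
  have hb1 : (bs n : ℝ) ^ 0 * (1 : ℝ) = ((1 : ℤ) : ℝ) := by simp
  have P0 : Piece n id 0 0 0 1 := by
    refine ⟨one_pos, ?_, zs_of_int hb0, zs_of_int hb1, ?_, ?_⟩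
    · intro x h1 h2
      rw [cl]
      simpa using ⟨h1, h2⟩
    · intro x hx
      refine ⟨x / 2, by linarith, by linarith, adjA hb0 ?_⟩
      show x / 2 ≠ 0
      linarith
    · intro x hx
      refine ⟨(x + 1) / 2, by linarith, by linarith, adjA hb1 ?_⟩
      show (x + 1) / 2 ≠ 1
      intro h
      linarith
  have H : Tree n φ q ch N0 := ⟨hφ, hq, ⟨fun _ => ⟨P0, P⟩, fun h => absurd trivial h⟩, trivial, hch⟩
  set F : ℝ → Set ℝ := fun y => {w | Rel ch N0 y w} with hF
  have hne : ∀ y, 0 ≤ y → y ≤ 1 → (F y).Nonempty := fun y h1 h2 => H.total_left h1 h2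
  have hbb : ∀ y, BddBelow (F y) := fun y => ⟨a, fun w hw => (rel_range hw).2.1⟩
  have hba : ∀ y, BddAbove (F y) := fun y => ⟨b, fun w hw => (rel_range hw).2.2⟩
  set lo : ℝ → ℝ := fun y => sInf (F y) with hlo
  set hi : ℝ → ℝ := fun y => sSup (F y) with hhi
  have hlohi : ∀ y, 0 ≤ y → y ≤ 1 → lo y ≤ hi y := fun y h1 h2 => by
    obtain ⟨w, hw⟩ := hne y h1 h2
    exact (csInf_le (hbb y) hw).trans (le_csSup (hba y) hw)
  have hsep : ∀ y y', 0 ≤ y → y' ≤ 1 → y < y' → hi y ≤ lo y' := by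
    intro y y' h1 h2 hlt
    apply csSup_le (hne y h1 (by linarith))
    intro w hw
    apply le_csInf (hne y' (by linarith) h2)
    intro w' hw'
    exact H.mono hw hw' hlt
  have hmid : ∀ y, ∀ v, lo y < v → v < hi y → 0 ≤ y → y ≤ 1 → Rel ch N0 y v := by
    intro y v h1 h2 h3 h4
    obtain ⟨w, hw, hwv⟩ := exists_lt_of_csInf_lt (hne y h3 h4) h1
    obtain ⟨w', hw', hwv'⟩ := exists_lt_of_lt_csSup (hne y h3 h4) h2
    exact H.convex hw hw' hwv hwv'
  have hrat : ∀ y, 0 ≤ y → y ≤ 1 → lo y < hi y → ∃ r : ℚ, y = r := by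
    intro y h1 h2 hlt
    have r1 := hmid y ((2 * lo y + hi y) / 3) (by linarith) (by linarith) h1 h2
    have r2 := hmid y ((lo y + 2 * hi y) / 3) (by linarith) (by linarith) h1 h2
    exact H.rational r1 r2 (by linarith)
  -- levels on `[lo y, hi y]`
  have hlev : ∀ y, 0 ≤ y → y ≤ 1 → ∀ v, lo y ≤ v → v ≤ hi y → ∀ j, 1 ≤ j →
      (Lv n j y ↔ Lv n j (φ v)) := by
    intro y h1 h2 v h3 h4 j hj
    rcases (hlohi y h1 h2).eq_or_lt with he | hlt
    · obtain ⟨w, hw⟩ := hne y h1 h2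
      have e1 : lo y ≤ w := csInf_le (hbb y) hw
      have e2 : w ≤ hi y := le_csSup (hba y) hw
      have : v = w := by linarith
      rw [this]
      exact H.levels hw j hj
    · have hcm : ∀ v, lo y < v → v < hi y → φ v = φ ((lo y + hi y) / 2) := by
        intro v h5 h6
        by_contra hne'
        obtain ⟨⟨z, hz, hl⟩, z', k', hz', hl'⟩ := btw_levels n hne'
        obtain ⟨x, x1, x2, x3⟩ := ivt hφ hz
        obtain ⟨x', x1', x2', x3'⟩ := ivt hφ hz'
        have hx : lo y < x ∧ x < hi y := by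
          constructor
          · exact lt_of_lt_of_le (lt_min (by linarith) h5) x1
          · exact lt_of_le_of_lt x2 (max_lt (by linarith) h6)
        have hx' : lo y < x' ∧ x' < hi y := by
          constructor
          · exact lt_of_lt_of_le (lt_min (by linarith) h5) x1'
          · exact lt_of_le_of_lt x2' (max_lt (by linarith) h6)
        have l1 := H.levels (hmid y x hx.1 hx.2 h1 h2) 1 le_rfl
        have l2 := H.levels (hmid y x' hx'.1 hx'.2 h1 h2) 1 le_rfl
        rw [x3] at l1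
        rw [x3'] at l2
        exact zs_not_lv hl' le_rfl (l2.1 (l1.2 hl))
      have hcl : φ v = φ ((lo y + hi y) / 2) := by
        have hC : IsClosed {v | φ v = φ ((lo y + hi y) / 2)} := isClosed_eq hφ continuous_const
        have hsub : closure (Set.Ioo (lo y) (hi y)) ⊆ {v | φ v = φ ((lo y + hi y) / 2)} := by
          apply closure_minimal _ hC
          intro v hv
          exact hcm v hv.1 hv.2
        rw [closure_Ioo hlt.ne] at hsub
        exact hsub ⟨h3, h4⟩
      rw [hcl]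
      exact H.levels (hmid y _ (by linarith) (by linarith) h1 h2) j hj
  -- the interpolation parameters
  have hcd : ∀ y : ℝ, ∃ c d : ℝ, c < d ∧ (0 ≤ y → y ≤ 1 → lo y < hi y → Q c = y ∧ Q d = y) := by
    intro y
    by_cases h : 0 ≤ y ∧ y ≤ 1 ∧ lo y < hi y
    · obtain ⟨r, hr⟩ := hrat y h.1 h.2.1 h.2.2
      obtain ⟨c, d, h1, h2, h3⟩ := hQ.rat r (by rw [← hr]; exact h.1) (by rw [← hr]; exact h.2.1)
      exact ⟨c, d, h1, fun _ _ _ => ⟨by rw [h2, hr], by rw [h3, hr]⟩⟩
    · exact ⟨0, 1, one_pos, fun h1 h2 h3 => absurd ⟨h1, h2, h3⟩ h⟩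
  choose c d hlt hcd using hcd
  let θ : ℝ → ℝ → ℝ := fun y x => max 0 (min 1 ((x - c y) / (d y - c y)))
  have hθ0 : ∀ y x, 0 ≤ θ y x := fun y x => le_max_left _ _
  have hθ1 : ∀ y x, θ y x ≤ 1 := fun y x => max_le zero_le_one (min_le_left _ _)
  have hθm : ∀ y, Monotone (θ y) := by
    intro y x x' hx
    apply max_le_max_left
    apply min_le_min_left
    have := hlt y
    gcongr
  let g : ℝ → ℝ := fun x => lo (Q x) + (hi (Q x) - lo (Q x)) * θ (Q x) x
  have hg1 : ∀ x, lo (Q x) ≤ g x := fun x => by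
    have := hlohi (Q x) (hQ.nonneg x) (hQ.le_one x)
    have h2 := mul_nonneg (sub_nonneg.2 this) (hθ0 (Q x) x)
    show lo (Q x) ≤ lo (Q x) + (hi (Q x) - lo (Q x)) * θ (Q x) x
    linarith
  have hg2 : ∀ x, g x ≤ hi (Q x) := fun x => by
    have := hlohi (Q x) (hQ.nonneg x) (hQ.le_one x)
    have h2 := mul_le_mul_of_nonneg_left (hθ1 (Q x) x) (sub_nonneg.2 this)
    show lo (Q x) + (hi (Q x) - lo (Q x)) * θ (Q x) x ≤ hi (Q x)
    linarith
  have hgm : Monotone g := by
    intro x x' hx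
    rcases (hQ.mono hx).eq_or_lt with he | hl
    · show lo (Q x) + (hi (Q x) - lo (Q x)) * θ (Q x) x ≤
        lo (Q x') + (hi (Q x') - lo (Q x')) * θ (Q x') x'
      rw [← he]
      have := hlohi (Q x) (hQ.nonneg x) (hQ.le_one x)
      have h2 := mul_le_mul_of_nonneg_left (hθm (Q x) hx) (sub_nonneg.2 this)
      linarith
    · exact (hg2 x).trans ((hsep _ _ (hQ.nonneg x) (hQ.le_one x') hl).trans (hg1 x'))
  have hab : a < b := P.lt
  have hgr : ∀ x, g x ∈ Set.Icc a b := fun x => by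
    constructor
    · exact (le_csInf (hne _ (hQ.nonneg x) (hQ.le_one x)) fun w hw => (rel_range hw).2.1).trans (hg1 x)
    · exact (hg2 x).trans (csSup_le (hne _ (hQ.nonneg x) (hQ.le_one x)) fun w hw => (rel_range hw).2.2)
  have hgs : ∀ w, a ≤ w → w ≤ b → ∃ x, g x = w := by
    intro w h1 h2
    obtain ⟨y, hy⟩ := H.total_right (w := w) h1 h2
    have hy0 : 0 ≤ y := (rel_range hy).1.1
    have hy1 : y ≤ 1 := (rel_range hy).1.2
    have e1 : lo y ≤ w := csInf_le (hbb y) hy
    have e2 : w ≤ hi y := le_csSup (hba y) hy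
    rcases (hlohi y hy0 hy1).eq_or_lt with he | hl
    · obtain ⟨x, hx⟩ := hQ.surj y hy0 hy1
      refine ⟨x, ?_⟩
      have := hg1 x
      have := hg2 x
      rw [hx] at *
      linarith
    · obtain ⟨hc, hd⟩ := hcd y hy0 hy1 hl
      have hdc := hlt y
      set τ := (w - lo y) / (hi y - lo y) with hτ
      have hl' : 0 < hi y - lo y := by linarith
      have t0 : 0 ≤ τ := div_nonneg (by linarith) hl'.le
      have t1 : τ ≤ 1 := by rw [hτ, div_le_one hl']; linarith
      have hx : Q (c y + τ * (d y - c y)) = y := by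
        apply le_antisymm
        · rw [← hd]
          apply hQ.mono
          rw [hd]
          nlinarith
        · conv_lhs => rw [← hc]
          apply hQ.mono
          nlinarith
      refine ⟨c y + τ * (d y - c y), ?_⟩
      show lo (Q _) + (hi (Q _) - lo (Q _)) * θ (Q _) _ = w
      rw [hx]
      have hθ : θ y (c y + τ * (d y - c y)) = τ := by
        show max 0 (min 1 ((c y + τ * (d y - c y) - c y) / (d y - c y))) = τ
        have : (c y + τ * (d y - c y) - c y) / (d y - c y) = τ := by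
          have : d y - c y ≠ 0 := by linarith
          field_simp
          ring
        rw [this, min_eq_right t1, max_eq_right t0]
      rw [hθ, hτ]
      field_simp
      ring
  have hgc : Continuous g := by
    have hinh : Fact (a ≤ b) := ⟨hab.le⟩
    let g' : ℝ → Set.Icc a b := fun x => ⟨g x, hgr x⟩
    have hm' : Monotone g' := fun x x' h => hgm h
    have hs' : Function.Surjective g' := by
      rintro ⟨w, h1, h2⟩
      obtain ⟨x, hx⟩ := hgs w h1 h2
      exact ⟨x, Subtype.ext hx⟩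
    exact continuous_subtype_val.comp (hm'.continuous_of_surjective hs')
  refine ⟨g, hgc, fun x j hj => ?_⟩
  exact hlev (Q x) (hQ.nonneg x) (hQ.le_one x) (g x) (hg1 x) (hg2 x) j hj

end Pool.Agent.H72.W
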