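import Mathlib
import Pool.Agent.H72.W.Reduce

set_option autoImplicit false

namespace Pool.Agent.H72.W

open Topology Filter

section blow

variable (e : ℕ → ℚ)

/-- one jump -/
noncomputable def jmp (i : ℕ) (y : ℝ) : ℝ := by
  classical exact if ((e i : ℚ) : ℝ) < y then (1 / 2 : ℝ) ^ i else 0

theorem jmp_nonneg (i : ℕ) (y : ℝ) : 0 ≤ jmp e i y := by
  unfold jmp
  split_ifs
  · positivity
  · exact le_rfl

theorem jmp_le (i : ℕ) (y : ℝ) : jmp e i y ≤ (1 / 2 : ℝ) ^ i := by
  unfold jmp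
  split_ifs
  · exact le_rfl
  · positivity

theorem jmp_mono (i : ℕ) {y y' : ℝ} (h : y ≤ y') : jmp e i y ≤ jmp e i y' := by
  by_cases h1 : ((e i : ℚ) : ℝ) < y
  · have h2 : ((e i : ℚ) : ℝ) < y' := h1.trans_le h
    unfold jmp
    rw [if_pos h1, if_pos h2]
  · have : jmp e i y = 0 := by unfold jmp; rw [if_neg h1]
    rw [this]
    exact jmp_nonneg e i y'

theorem jmp_summable (y : ℝ) : Summable (fun i => jmp e i y) :=
  Summable.of_nonneg_of_le (fun i => jmp_nonneg e i y) (fun i => jmp_le e i y)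
    (summable_geometric_of_lt_one (by norm_num) (by norm_num))

/-- the strictly increasing jump function -/
noncomputable def JJ (y : ℝ) : ℝ := y + ∑' i, jmp e i y

theorem JJ_bounds (y : ℝ) : y ≤ JJ e y ∧ JJ e y ≤ y + 2 := by
  have h1 : 0 ≤ ∑' i, jmp e i y := tsum_nonneg fun i => jmp_nonneg e i y
  have h2 : ∑' i, jmp e i y ≤ ∑' i : ℕ, (1 / 2 : ℝ) ^ i :=
    (jmp_summable e y).tsum_le_tsum (fun i => jmp_le e i y)
      (summable_geometric_of_lt_one (by norm_num) (by norm_num))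
  have h3 : ∑' i : ℕ, (1 / 2 : ℝ) ^ i = 2 := by
    rw [tsum_geometric_of_lt_one (by norm_num) (by norm_num)]
    norm_num
  unfold JJ
  constructor <;> linarith

theorem JJ_diff {y y' : ℝ} (h : y ≤ y') : y' - y ≤ JJ e y' - JJ e y := by
  have h1 : ∑' i, jmp e i y ≤ ∑' i, jmp e i y' :=
    (jmp_summable e y).tsum_le_tsum (fun i => jmp_mono e i h) (jmp_summable e y')
  unfold JJ
  linarith

theorem JJ_jump (i : ℕ) {y : ℝ} (h : ((e i : ℚ) : ℝ) < y) :
    JJ e (e i) + (1 / 2 : ℝ) ^ i + (y - e i) ≤ JJ e y := by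
  classical
  have h1 : ∑' l, (jmp e l (e i) + if l = i then (1 / 2 : ℝ) ^ i else 0) ≤ ∑' l, jmp e l y := by
    have hs : Summable (fun l => (if l = i then (1 / 2 : ℝ) ^ i else 0 : ℝ)) :=
      summable_of_ne_finset_zero (s := {i}) (by intro l hl; simp at hl; simp [hl])
    apply Summable.tsum_le_tsum _ ((jmp_summable e _).add hs) (jmp_summable e y)
    intro l
    by_cases hl : l = i
    · subst hl
      have a1 : jmp e l (e l) = 0 := by unfold jmp; rw [if_neg (lt_irrefl _)]
      have a2 : jmp e l y = (1 / 2 : ℝ) ^ l := by unfold jmp; rw [if_pos h]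
      rw [a1, a2, if_pos rfl, zero_add]
    · rw [if_neg hl, add_zero]
      exact jmp_mono e l h.le
  have h2 : ∑' l, (jmp e l (e i) + if l = i then (1 / 2 : ℝ) ^ i else 0) =
      ∑' l, jmp e l (e i) + (1 / 2 : ℝ) ^ i := by
    have hs : Summable (fun l => (if l = i then (1 / 2 : ℝ) ^ i else 0 : ℝ)) :=
      summable_of_ne_finset_zero (s := {i}) (by intro l hl; simp at hl; simp [hl])
    rw [(jmp_summable e _).tsum_add hs, tsum_ite_eq]
  unfold JJ
  linarith

/-- the inverse of the jump function -/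
noncomputable def qq (x : ℝ) : ℝ := sSup {y | JJ e y ≤ x}

theorem qq_set (x : ℝ) : (x - 2) ∈ {y | JJ e y ≤ x} ∧ x ∈ upperBounds {y | JJ e y ≤ x} := by
  constructor
  · have := (JJ_bounds e (x - 2)).2
    show JJ e (x - 2) ≤ x
    linarith
  · intro y hy
    have h1 : JJ e y ≤ x := hy
    linarith [(JJ_bounds e y).1]

theorem qq_mono : Monotone (qq e) := by
  intro x x' h
  apply csSup_le_csSup ⟨x', (qq_set e x').2⟩ ⟨_, (qq_set e x).1⟩
  intro y hy
  exact le_trans hy h

theorem qq_lip {x x' : ℝ} (h : x ≤ x') : qq e x' ≤ qq e x + (x' - x) := by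
  apply csSup_le ⟨_, (qq_set e x').1⟩
  intro y hy
  have h1 : JJ e y ≤ x' := hy
  have h2 := JJ_diff e (show y - (x' - x) ≤ y by linarith)
  have h3 : y - (x' - x) ≤ qq e x := by
    apply le_csSup ⟨x, (qq_set e x).2⟩
    show JJ e (y - (x' - x)) ≤ x
    linarith
  linarith

theorem qq_cont : Continuous (qq e) := by
  rw [Metric.continuous_iff]
  intro x ε hε
  refine ⟨ε, hε, fun x' hx' => ?_⟩
  rw [Real.dist_eq] at hx' ⊢
  rw [abs_lt] at hx' ⊢
  rcases le_total x x' with h | h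
  · have h1 := qq_lip e h
    have h2 := qq_mono e h
    constructor <;> linarith
  · have h1 := qq_lip e h
    have h2 := qq_mono e h
    constructor <;> linarith

theorem qq_JJ (y : ℝ) : qq e (JJ e y) = y := by
  apply le_antisymm
  · apply csSup_le ⟨_, (qq_set e _).1⟩
    intro y' hy'
    by_contra hc
    push Not at hc
    have h1 : JJ e y' ≤ JJ e y := hy'
    have h2 := JJ_diff e hc.le
    linarith
  · apply le_csSup ⟨_, (qq_set e _).2⟩
    show JJ e y ≤ JJ e y
    exact le_refl _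

theorem qq_fibre (i : ℕ) : qq e (JJ e (e i) + (1 / 2 : ℝ) ^ i) = e i := by
  have hp : (0 : ℝ) < (1 / 2 : ℝ) ^ i := by positivity
  apply le_antisymm
  · apply csSup_le ⟨_, (qq_set e _).1⟩
    intro y hy
    by_contra hc
    push Not at hc
    have h1 : JJ e y ≤ JJ e (e i) + (1 / 2 : ℝ) ^ i := hy
    have h2 := JJ_jump e i hc
    linarith
  · calc ((e i : ℚ) : ℝ) = qq e (JJ e (e i)) := (qq_JJ e _).symm
      _ ≤ _ := qq_mono e (by linarith)

end blow

/-- existence of the blow-up map -/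
theorem exists_QProp : ∃ Q : ℝ → ℝ, QProp Q := by
  obtain ⟨e, he⟩ := exists_surjective_nat ℚ
  refine ⟨fun x => max 0 (min 1 (qq e x)), ?_, ?_, ?_, ?_, ?_, ?_⟩
  · intro x x' h
    exact max_le_max_left _ (min_le_min_left _ (qq_mono e h))
  · exact continuous_const.max (continuous_const.min (qq_cont e))
  · intro x
    exact le_max_left _ _
  · intro x
    exact max_le zero_le_one (min_le_left _ _)
  · intro y h1 h2
    refine ⟨JJ e y, ?_⟩
    show max 0 (min 1 (qq e (JJ e y))) = y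
    rw [qq_JJ, min_eq_right h2, max_eq_right h1]
  · intro r h1 h2
    obtain ⟨i, hi⟩ := he r
    refine ⟨JJ e (e i), JJ e (e i) + (1 / 2 : ℝ) ^ i, by
      have : (0 : ℝ) < (1 / 2 : ℝ) ^ i := by positivity
      linarith, ?_, ?_⟩
    · show max 0 (min 1 (qq e (JJ e (e i)))) = r
      rw [qq_JJ, hi, min_eq_right h2, max_eq_right h1]
    · show max 0 (min 1 (qq e (JJ e (e i) + (1 / 2 : ℝ) ^ i))) = r
      rw [qq_fibre, hi, min_eq_right h2, max_eq_right h1]

end Pool.Agent.H72.W
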