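import Mathlib
import Pool.Agent.H72.W.Blow

set_option autoImplicit false

namespace Pool.Agent.H72.W

open Topology Filter

variable {n : ℕ} {φ : ℝ → ℝ}

theorem exists_odd_between (n : ℕ) {u v : ℝ} (huv : u < v) :
    (∃ z, u < z ∧ z < v ∧ OddLev n z) ∧ ∃ z, u < z ∧ z < v ∧ ¬ OddLev n z := by
  obtain ⟨-, z, k, h1, h2, h3⟩ := exists_between_levels n huv
  refine ⟨?_, z, h1, h2, zs_not_oddLev h3⟩
  obtain ⟨k', m', g, -, hr, hin⟩ := gap_in (N := 0) h3 h1 h2 le_rfl (show 1 ≤ n + 1 by omega)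
  have hop : op n k' m' (zpt n k' m' (2 * (1 : ℕ) - 1)) :=
    zpt_op (k := k') (m := m') (by norm_num) (by have := bs_ge n; push_cast; omega) 0
  refine ⟨_, (hin _ (op_cl hop)).1, (hin _ (op_cl hop)).2, 1, rfl, ?_, ?_⟩
  · exact (zpt_lv le_rfl (by omega) 1).2 le_rfl
  · intro h
    have := (zpt_lv (n := n) (k := k') (m := m') le_rfl (show 1 ≤ n + 1 by omega) 2).1 h
    omega

/-- every nonconstant continuous function has a piece -/
theorem exists_piece (n : ℕ) (hφ : Continuous φ) {u v : ℝ} (h : φ u ≠ φ v) :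
    ∃ k m a b, Piece n φ k m a b := by
  obtain ⟨-, z, k, hz, hzs⟩ := btw_levels n h
  have key : ∀ p q : ℝ, φ p < φ q → φ p < z → z < φ q → ∃ k m a b, Piece n φ k m a b := by
    intro p q _ h1 h2
    obtain ⟨k', m', g, -, hr, hin⟩ := gap_in (N := 0) hzs h1 h2 le_rfl (show 1 ≤ n + 1 by omega)
    have hB := bsR_pow_pos n k'
    have e : (bs n : ℝ) ^ k' * ((m' + 1 / 2) / (bs n : ℝ) ^ k') = m' + 1 / 2 := by field_simp
    have hop : op n k' m' ((m' + 1 / 2) / (bs n : ℝ) ^ k') := by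
      rw [op, e]; constructor <;> linarith
    have hbt : btw (φ p) ((m' + 1 / 2) / (bs n : ℝ) ^ k') (φ q) := Or.inl (hin _ (op_cl hop))
    obtain ⟨x, x1, x2, x3⟩ := ivt hφ hbt
    have hnp : ¬ cl n k' m' (φ p) := fun hc => lt_irrefl _ (hin _ hc).1
    have hnq : ¬ cl n k' m' (φ q) := fun hc => lt_irrefl _ (hin _ hc).2
    have hmin : ¬ cl n k' m' (φ (min p q)) := by
      rcases min_choice p q with h | h <;> rw [h] <;> assumption
    have hmax : ¬ cl n k' m' (φ (max p q)) := by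
      rcases max_choice p q with h | h <;> rw [h] <;> assumption
    have hopx : op n k' m' (φ x) := by rw [x3]; exact hop
    have hC := isClosed_cl n k' m' hφ
    obtain ⟨s, s1, s2, s3, s4⟩ := left_edge hC (a := min p q) (x := x) (op_cl hopx)
      ⟨min p q, le_rfl, x1, hmin⟩
    obtain ⟨t, t1, t2, t3, t4⟩ := right_edge hC (b := max p q) (x := x) (op_cl hopx)
      ⟨max p q, x2, le_rfl, hmax⟩
    have hopn := isOpen_op n k' m' hφ
    have bs' : Bd n k' m' (φ s) := by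
      apply not_op_iff (s3 s le_rfl s2)
      intro ho
      obtain ⟨ε, hε, hball⟩ := Metric.isOpen_iff.1 hopn s ho
      obtain ⟨u, u1, u2, u3⟩ := s4 (s - ε) (by linarith)
      apply u3
      apply op_cl
      apply hball
      rw [Metric.mem_ball, Real.dist_eq, abs_lt]
      constructor <;> linarith
    have bt' : Bd n k' m' (φ t) := by
      apply not_op_iff (t3 t t1 le_rfl)
      intro ho
      obtain ⟨ε, hε, hball⟩ := Metric.isOpen_iff.1 hopn t ho
      obtain ⟨u, u1, u2, u3⟩ := t4 (t + ε) (by linarith)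
      apply u3
      apply op_cl
      apply hball
      rw [Metric.mem_ball, Real.dist_eq, abs_lt]
      constructor <;> linarith
    have hcl : ∀ w, s ≤ w → w ≤ t → cl n k' m' (φ w) := by
      intro w h1 h2
      rcases le_total w x with h | h
      · exact s3 w h1 h
      · exact t3 w h h2
    obtain ⟨s', t', -, -, -, -, -, P, -, -⟩ := mid_piece hφ hcl bs' bt'
      ⟨x, s2, t1, fun h => bd_not_op bs' (h ▸ hopx)⟩
    exact ⟨k', m', s', t', P⟩
  rcases hz with ⟨h1, h2⟩ | ⟨h1, h2⟩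
  · exact key v u (h1.trans h2) h1 h2
  · exact key u v (h1.trans h2) h1 h2

/-- the sets -/
def AA (Q : ℝ → ℝ) (n : ℕ) : Set ℝ := {x | OddLev n (Q x)}

theorem reduce_main {Q : ℝ → ℝ} (hQ : QProp Q) (n : ℕ) {f : ℝ → ℝ} (hf : Continuous f)
    (h1 : (f ⁻¹' (AA Q n)).Nonempty) (h2 : f ⁻¹' (AA Q n) ≠ Set.univ) :
    ∃ g : ℝ → ℝ, Continuous g ∧ AA Q n = g ⁻¹' (f ⁻¹' (AA Q n)) := by
  obtain ⟨x, hx⟩ := h1
  obtain ⟨x', hx'⟩ := (Set.ne_univ_iff_exists_notMem _).1 h2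
  have hφ : Continuous (fun x => Q (f x)) := hQ.cont.comp hf
  have hne : (fun x => Q (f x)) x ≠ (fun x => Q (f x)) x' := by
    intro h
    apply hx'
    show OddLev n (Q (f x'))
    have h' : Q (f x) = Q (f x') := h
    rw [← h']
    exact hx
  obtain ⟨k, m, a, b, P⟩ := exists_piece n hφ hne
  obtain ⟨g, hg, hlev⟩ := reduce hφ P hQ
  refine ⟨g, hg, ?_⟩
  ext w
  show OddLev n (Q w) ↔ OddLev n (Q (f (g w)))
  exact oddLev_congr fun j hj => hlev w j hj

theorem exists_right_fibre {Q : ℝ → ℝ} (hQ : QProp Q) {y : ℝ} (h0 : 0 ≤ y) (h1 : y < 1) :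
    ∃ x, Q x = y ∧ ∀ x', x < x' → y < Q x' := by
  obtain ⟨x0, hx0⟩ := hQ.surj y h0 h1.le
  obtain ⟨x1, hx1⟩ := hQ.surj 1 zero_le_one le_rfl
  have hC : IsClosed {u | Q u = y} := isClosed_eq hQ.cont continuous_const
  have hx01 : x0 ≤ x1 := by
    by_contra hc
    push Not at hc
    have := hQ.mono hc.le
    linarith
  obtain ⟨t, t1, t2, t3, t4⟩ := right_edge hC (b := x1) (x := x0) hx0
    ⟨x1, hx01, le_rfl, fun h => by have h' : Q x1 = y := h; linarith⟩
  have ht : Q t = y := t3 t t1 le_rfl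
  refine ⟨t, ht, fun x' hx' => ?_⟩
  obtain ⟨u, u1, u2, u3⟩ := t4 x' hx'
  have h5 := hQ.mono u1.le
  have h6 := hQ.mono u2.le
  rw [ht] at h5
  have h7 : y < Q u := lt_of_le_of_ne h5 (fun h => u3 h.symm)
  linarith

theorem not_open_aux {Q : ℝ → ℝ} (hQ : QProp Q) {S : Set ℝ} (hS : IsOpen S) {y : ℝ} (h0 : 0 ≤ y)
    (h1 : y < 1) (hy : ∀ x, Q x = y → x ∈ S)
    (hd : ∀ u v : ℝ, u < v → ∃ z, u < z ∧ z < v ∧ ∀ x, Q x = z → x ∉ S) : False := by
  obtain ⟨x, hx, hxr⟩ := exists_right_fibre hQ h0 h1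
  obtain ⟨ε, hε, hball⟩ := Metric.isOpen_iff.1 hS x (hy x hx)
  have h2 := hxr (x + ε / 2) (by linarith)
  obtain ⟨z, z1, z2, hz⟩ := hd y (Q (x + ε / 2)) h2
  have hb : btw (Q x) z (Q (x + ε / 2)) := Or.inl ⟨by rw [hx]; exact z1, z2⟩
  obtain ⟨w, w1, w2, w3⟩ := ivt hQ.cont hb
  rw [min_eq_left (by linarith)] at w1
  rw [max_eq_right (by linarith)] at w2
  apply hz w w3
  apply hball
  rw [Metric.mem_ball, Real.dist_eq, abs_lt]
  constructor <;> linarith

theorem AA_not_open {Q : ℝ → ℝ} (hQ : QProp Q) (n : ℕ) : ¬ IsOpen (AA Q n) := by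
  intro hS
  obtain ⟨⟨y, h0, h1, hy⟩, -⟩ := exists_odd_between n (show (0 : ℝ) < 1 by norm_num)
  refine not_open_aux hQ hS h0.le h1 (fun x hx => by show OddLev n (Q x); rw [hx]; exact hy) ?_
  intro u v huv
  obtain ⟨-, z, z1, z2, hz⟩ := exists_odd_between n huv
  exact ⟨z, z1, z2, fun x hx h => hz (by have h' : OddLev n (Q x) := h; rwa [hx] at h')⟩

theorem AA_not_closed {Q : ℝ → ℝ} (hQ : QProp Q) (n : ℕ) : ¬ IsClosed (AA Q n) := by
  intro hS
  obtain ⟨-, y, h0, h1, hy⟩ := exists_odd_between n (show (0 : ℝ) < 1 by norm_num)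
  refine not_open_aux hQ hS.isOpen_compl h0.le h1
    (fun x hx h => hy (by have h' : OddLev n (Q x) := h; rwa [hx] at h')) ?_
  intro u v huv
  obtain ⟨⟨z, z1, z2, hz⟩, -⟩ := exists_odd_between n huv
  exact ⟨z, z1, z2, fun x hx h => h (by show OddLev n (Q x); rw [hx]; exact hz)⟩

theorem measurable_Lv {ψ : ℝ → ℝ} (hψ : Continuous ψ) (n j : ℕ) :
    MeasurableSet {x | Lv n j (ψ x)} := by
  have : {x | Lv n j (ψ x)} = ⋂ K : ℕ, ⋃ k : ℕ, ⋃ m : ℤ,
      ({x | K < k} ∩ ({x | j ≤ rk n m} ∩ {x | op n k m (ψ x)}) : Set ℝ) := by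
    ext x
    simp only [Lv, Set.mem_ofPred_eq, Set.mem_iInter, Set.mem_iUnion, Set.mem_inter_iff]
  rw [this]
  refine MeasurableSet.iInter fun K => MeasurableSet.iUnion fun k => MeasurableSet.iUnion fun m => ?_
  exact (MeasurableSet.const _).inter ((MeasurableSet.const _).inter
    (isOpen_op n k m hψ).measurableSet)

theorem measurable_AA {Q : ℝ → ℝ} (hQ : QProp Q) (n : ℕ) : MeasurableSet (AA Q n) := by
  have : AA Q n = ⋃ j : ℕ, ({x | j % 2 = 1} ∩ ({x | Lv n j (Q x)} ∩ {x | Lv n (j + 1) (Q x)}ᶜ) : Set ℝ) := by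
    ext x
    simp only [AA, OddLev, Set.mem_ofPred_eq, Set.mem_iUnion, Set.mem_inter_iff, Set.mem_compl_iff]
  rw [this]
  refine MeasurableSet.iUnion fun j => ?_
  exact (MeasurableSet.const _).inter ((measurable_Lv hQ.cont n j).inter
    (measurable_Lv hQ.cont n (j + 1)).compl)

end Pool.Agent.H72.W
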