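import Mathlib
import Pool.Agent.H72.W.Main

set_option autoImplicit false

namespace Pool.Agent.H72.W

open Topology Filter

theorem oddLev_exact {n j : ℕ} {y : ℝ} (h1 : Lv n j y) (h2 : ¬ Lv n (j + 1) y) :
    OddLev n y ↔ j % 2 = 1 := by
  constructor
  · rintro ⟨i, hi, h3, h4⟩
    rcases lt_trichotomy i j with h | h | h
    · exact absurd (lv_anti h1 h) h4
    · rwa [← h]
    · exact absurd (lv_anti h3 h) h2
  · intro h
    exact ⟨j, h, h1, h2⟩

/-- points of the cell `(k, m)` all of whose further symbols have rank at most `j` -/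
def Ks (n j k : ℕ) (m : ℤ) : Set ℝ :=
  {y | cl n k m y ∧ ∀ k' m', k < k' → j < rk n m' → ¬ op n k' m' y}

theorem ks_closed (n j k : ℕ) (m : ℤ) : IsClosed (Ks n j k m) := by
  have : Ks n j k m = {y | cl n k m (id y)} ∩
      ⋂ k' : ℕ, ⋂ m' : ℤ, ⋂ _ : k < k', ⋂ _ : j < rk n m', {y | op n k' m' (id y)}ᶜ := by
    ext y
    simp only [Ks, Set.mem_ofPred_eq, Set.mem_inter_iff, Set.mem_iInter, Set.mem_compl_iff, id]
  rw [this]
  refine (isClosed_cl n k m continuous_id).inter ?_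
  refine isClosed_iInter fun k' => isClosed_iInter fun m' => isClosed_iInter fun _ =>
    isClosed_iInter fun _ => ?_
  exact (isOpen_op n k' m' continuous_id).isClosed_compl

theorem ks_anti {n j j' k : ℕ} {m : ℤ} (h : j' ≤ j) : Ks n j' k m ⊆ Ks n j k m :=
  fun _ hy => ⟨hy.1, fun k' m' h1 h2 => hy.2 k' m' h1 (by omega)⟩

theorem ks_not_lv {n j k : ℕ} {m : ℤ} {y : ℝ} (h : y ∈ Ks n j k m) : ¬ Lv n (j + 1) y := by
  intro hl
  obtain ⟨k', m', h1, h2, h3⟩ := hl k
  exact h.2 k' m' h1 (by omega) h3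

/-- subcells with small ranks -/
theorem small_cell {n j k : ℕ} {m : ℤ} {y : ℝ} (h : y ∈ Ks n j k m) (i : ℕ) (hi : k ≤ i) :
    ∃ m', cl n i m' y ∧ m' / bs n ^ (i - k) = m ∧
      ∀ l, k < l → l ≤ i → rk n (m' / bs n ^ (i - l)) ≤ j := by
  induction i, hi using Nat.le_induction with
  | base =>
    refine ⟨m, h.1, by rw [Nat.sub_self, pow_zero, Int.ediv_one], ?_⟩
    intro l hl hl'
    omega
  | succ i hi ih =>
    obtain ⟨m', ⟨h1, h2⟩, hm, hr⟩ := ih
    have hb := bsR_pos n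
    have hsub : ∃ m'', cl n (i + 1) m'' y ∧ m'' / bs n = m' := by
      set t := (bs n : ℝ) ^ i * y with ht
      have e : (bs n : ℝ) ^ (i + 1) * y = (bs n : ℝ) * t := by rw [ht]; ring
      by_cases hlt : t < m' + 1
      · refine ⟨⌊(bs n : ℝ) * t⌋, ?_, ?_⟩
        · rw [cl, e]
          exact ⟨Int.floor_le _, (Int.lt_floor_add_one _).le⟩
        · have a1 : bs n * m' ≤ ⌊(bs n : ℝ) * t⌋ := by
            rw [Int.le_floor]
            push_cast
            exact mul_le_mul_of_nonneg_left h1 hb.le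
          have a2 : ⌊(bs n : ℝ) * t⌋ < bs n * m' + bs n := by
            rw [Int.floor_lt]
            push_cast
            nlinarith
          have : ⌊(bs n : ℝ) * t⌋ = bs n * m' + (⌊(bs n : ℝ) * t⌋ - bs n * m') := by ring
          rw [this]
          exact ediv_digit _ _ (by omega) (by omega)
      · have hteq : t = m' + 1 := le_antisymm h2 (not_lt.1 hlt)
        refine ⟨bs n * m' + (bs n - 1), ?_, ediv_digit _ _ (by have := bs_ge n; omega) (by omega)⟩
        rw [cl, e, hteq]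
        push_cast
        constructor <;> nlinarith
    obtain ⟨m1, hm1, hd1⟩ := hsub
    have hgood : ∃ m'', cl n (i + 1) m'' y ∧ m'' / bs n = m' ∧ rk n m'' ≤ j := by
      by_cases hrk : rk n m1 ≤ j
      · exact ⟨m1, hm1, hd1, hrk⟩
      · push Not at hrk
        have ho : od n m1 := rk_pos_iff.1 (by omega)
        have hno := h.2 (i + 1) m1 (by omega) hrk
        obtain ⟨q1, q2, q3, q4⟩ := od_adj ho
        have z0 : ∀ m2, ¬ od n m2 → rk n m2 ≤ j := by
          intro m2 h2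
          by_contra hc
          exact h2 (rk_pos_iff.1 (by omega))
        rcases not_op_iff hm1 hno with he | he
        · refine ⟨m1 - 1, ?_, by rw [q4, hd1], z0 _ q2⟩
          rw [cl, he]
          push_cast
          constructor <;> linarith
        · refine ⟨m1 + 1, ?_, by rw [q3, hd1], z0 _ q1⟩
          rw [cl, he]
          push_cast
          constructor <;> linarith
    obtain ⟨m2, hm2, hd2, hr2⟩ := hgood
    refine ⟨m2, hm2, ?_, ?_⟩
    · have h3 : i + 1 - k = 1 + (i - k) := by omega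
      rw [h3, pow_add, pow_one, ← Int.ediv_ediv_of_nonneg (bs_pos n).le, hd2, hm]
    · intro l hl hl'
      rcases Nat.lt_or_ge i l with hil | hil
      · have : i + 1 - l = 0 := by omega
        rw [this, pow_zero, Int.ediv_one]
        exact hr2
      · have h3 : i + 1 - l = 1 + (i - l) := by omega
        rw [h3, pow_add, pow_one, ← Int.ediv_ediv_of_nonneg (bs_pos n).le, hd2]
        exact hr l hl hil

theorem sub_cell {n j k : ℕ} {m : ℤ} {y : ℝ} (h : y ∈ Ks n j k m) {ε : ℝ} (hε : 0 < ε) :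
    ∃ k' m', (∀ y', cl n k' m' y' → |y' - y| < ε) ∧ Ks n j k' m' ⊆ Ks n j k m ∧
      ∀ y', cl n k' m' y' → cl n k m y' := by
  obtain ⟨i, hi, hiε⟩ := exists_order n k hε
  obtain ⟨m', h1, h2, h3⟩ := small_cell h i hi
  have hn : ∀ y', cl n i m' y' → cl n k m y' := by
    intro y' hy'
    have := nest_cl' hi hy'
    rwa [h2] at this
  refine ⟨i, m', fun y' hy' => cl_dist hy' h1 hiε, ?_, hn⟩
  rintro y' ⟨hy1, hy2⟩
  refine ⟨hn y' hy1, fun k' m'' hk hr ho => ?_⟩
  rcases Nat.lt_or_ge i k' with hlt | hge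
  · exact hy2 k' m'' hlt hr ho
  · have := uniq ho (nest_cl' hge hy1)
    have h4 := h3 k' hk hge
    rw [← this] at h4
    omega

theorem zpt_mem {n c k : ℕ} {m : ℤ} (h0 : 1 ≤ c) (h1 : c ≤ n + 1) :
    zpt n k m (2 * c - 1) ∈ Ks n c k m := by
  have h2 : (0 : ℤ) < 2 * c - 1 := by omega
  have h3 : (2 * c - 1 : ℤ) < bs n - 1 := by unfold bs; omega
  refine ⟨op_cl (zpt_op (k := k) (m := m) h2 h3 0), ?_⟩
  intro k' m' hk hr ho
  rw [zpt_rank h0 h1 hk (op_cl ho)] at hr
  exact lt_irrefl _ hr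

section ineq

variable {Q : ℝ → ℝ} (hQ : QProp Q) {N n : ℕ} {f : ℝ → ℝ} (hf : Continuous f)
  (hfA : AA Q N = f ⁻¹' (AA Q n))

include hQ hf hfA

/-- the composition is constant on fibres -/
theorem fibre_const {x x' : ℝ} (h : Q x = Q x') : Q (f x) = Q (f x') := by
  have key : ∀ x x', x ≤ x' → Q x = Q x' → Q (f x) = Q (f x') := by
    intro x x' hx h
    by_contra hne
    have hφ : Continuous (fun x => Q (f x)) := hQ.cont.comp hf
    have hval : ∀ w, x ≤ w → w ≤ x' → (OddLev N (Q x) ↔ OddLev n (Q (f w))) := by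
      intro w h1 h2
      have e : Q w = Q x := le_antisymm ((hQ.mono h2).trans h.ge) (hQ.mono h1)
      rw [← e]
      exact Set.ext_iff.1 hfA w
    have hodd : (∃ z, btw (Q (f x)) z (Q (f x')) ∧ OddLev n z) ∧
        ∃ z, btw (Q (f x)) z (Q (f x')) ∧ ¬ OddLev n z := by
      rcases lt_or_gt_of_ne hne with hlt | hlt
      · obtain ⟨⟨z, a1, a2, a3⟩, z', b1, b2, b3⟩ := exists_odd_between n hlt
        exact ⟨⟨z, Or.inl ⟨a1, a2⟩, a3⟩, z', Or.inl ⟨b1, b2⟩, b3⟩
      · obtain ⟨⟨z, a1, a2, a3⟩, z', b1, b2, b3⟩ := exists_odd_between n hlt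
        exact ⟨⟨z, Or.inr ⟨a1, a2⟩, a3⟩, z', Or.inr ⟨b1, b2⟩, b3⟩
    obtain ⟨⟨z, hz, hzo⟩, z', hz', hzo'⟩ := hodd
    obtain ⟨w, w1, w2, w3⟩ := ivt hφ hz
    obtain ⟨w', w1', w2', w3'⟩ := ivt hφ hz'
    rw [min_eq_left hx] at w1 w1'
    rw [max_eq_right hx] at w2 w2'
    have e1 := hval w w1 w2
    have e2 := hval w' w1' w2'
    have w3 : Q (f w) = z := w3
    have w3' : Q (f w') = z' := w3'
    rw [w3] at e1
    rw [w3'] at e2
    exact hzo' (e2.1 (e1.2 hzo))
  rcases le_total x x' with hx | hx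
  · exact key x x' hx h
  · exact (key x' x hx h.symm).symm

/-- the property used in the induction -/
theorem step_down : ∀ i j, i < j → j ≤ N + 1 →
    (∃ k m, (∀ y, cl N k m y → 0 ≤ y ∧ y ≤ 1) ∧
      ∀ x, Q x ∈ Ks N j k m → ¬ Lv n (i + 1) (Q (f x))) → False := by
  have hmem : ∀ x, OddLev N (Q x) ↔ OddLev n (Q (f x)) := fun x => Set.ext_iff.1 hfA x
  intro i
  induction i with
  | zero =>
    rintro j hj hjN ⟨k, m, h01, hH⟩
    have hz := zpt_mem (n := N) (c := 1) (k := k) (m := m) le_rfl (by omega)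
    have hzj : zpt N k m (2 * (1 : ℕ) - 1) ∈ Ks N j k m := ks_anti hj hz
    obtain ⟨a1, a2⟩ := h01 _ hzj.1
    obtain ⟨x, hx⟩ := hQ.surj _ a1 a2
    have h1 : OddLev N (Q x) := by
      rw [hx]
      exact ⟨1, rfl, (zpt_lv le_rfl (by omega) 1).2 le_rfl, fun h => by
        have := (zpt_lv (n := N) (k := k) (m := m) le_rfl (show 1 ≤ N + 1 by omega) 2).1 h
        omega⟩
    obtain ⟨j', hj', h2, -⟩ := (hmem x).1 h1
    exact hH x (by rw [hx]; exact hzj) (lv_anti h2 (by omega))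
  | succ i ih =>
    rintro j hj hjN ⟨k, m, h01, hH⟩
    -- the right parity
    obtain ⟨j', hj1, hj2, hj3, hj4⟩ : ∃ j', j - 1 ≤ j' ∧ j' ≤ j ∧ 1 ≤ j' ∧ j' % 2 ≠ (i + 1) % 2 := by
      by_cases hp : j % 2 = (i + 1) % 2
      · exact ⟨j - 1, le_rfl, by omega, by omega, by omega⟩
      · exact ⟨j, by omega, le_rfl, by omega, hp⟩
    have hjN' : j' ≤ N + 1 := by omega
    apply ih (j - 1) (by omega) (by omega)
    -- points of level exactly `j'`
    have hD : ∀ x, Q x ∈ Ks N j' k m → Lv N j' (Q x) → ¬ Lv n (i + 1) (Q (f x)) := by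
      intro x hx hl hc
      have h1 := oddLev_exact hl (ks_not_lv hx)
      have h2 := oddLev_exact hc (hH x (ks_anti hj2 hx))
      have h3 := hmem x
      rw [h1, h2] at h3
      omega
    -- the closed sets
    obtain ⟨A, hA⟩ := hQ.surj 0 le_rfl zero_le_one
    obtain ⟨B, hB⟩ := hQ.surj 1 zero_le_one le_rfl
    have hAB : A ≤ B := by
      by_contra hc
      push Not at hc
      have := hQ.mono hc.le
      linarith
    have hφ : Continuous (fun x => Q (f x)) := hQ.cont.comp hf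
    let C : ℕ → Set ℝ := fun K => {x | ∀ k' m', K < k' → i + 1 ≤ rk n m' → ¬ op n k' m' (Q (f x))}
    have hC : ∀ K, IsClosed (C K) := by
      intro K
      have : C K = ⋂ k' : ℕ, ⋂ m' : ℤ, ⋂ _ : K < k', ⋂ _ : i + 1 ≤ rk n m',
          {x | op n k' m' (Q (f x))}ᶜ := by
        ext y
        simp only [C, Set.mem_ofPred_eq, Set.mem_iInter, Set.mem_compl_iff]
      rw [this]
      refine isClosed_iInter fun k' => isClosed_iInter fun m' => isClosed_iInter fun _ =>
        isClosed_iInter fun _ => ?_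
      exact (isOpen_op n k' m' hφ).isClosed_compl
    let E : ℕ → Set ℝ := fun K => Q '' (Set.Icc A B ∩ C K)
    have hE : ∀ K, IsClosed (E K) := fun K =>
      ((isCompact_Icc.inter_right (hC K)).image hQ.cont).isClosed
    let X : Type := Ks N j' k m
    have hXc : CompleteSpace (Ks N j' k m) := (ks_closed N j' k m).completeSpace_coe
    let F : ℕ → Set (Ks N j' k m) := fun K => Subtype.val ⁻¹' (E K)
    have hF : ∀ K, IsClosed (F K) := fun K => (hE K).preimage continuous_subtype_val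
    let D : Set (Ks N j' k m) := {y | Lv N j' (y : ℝ)}
    have hDG : IsGδ D := by
      have : D = ⋂ K : ℕ, ⋃ k' : ℕ, ⋃ m' : ℤ, ⋃ _ : K < k', ⋃ _ : j' ≤ rk N m',
          {y : Ks N j' k m | op N k' m' (y : ℝ)} := by
        ext y
        simp only [D, Lv, Set.mem_ofPred_eq, Set.mem_iInter, Set.mem_iUnion, exists_prop]
      rw [this]
      refine IsGδ.iInter_of_isOpen fun K => ?_
      refine isOpen_iUnion fun k' => isOpen_iUnion fun m' => isOpen_iUnion fun _ =>
        isOpen_iUnion fun _ => ?_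
      exact (isOpen_op N k' m' continuous_id).preimage continuous_subtype_val
    have hDd : Dense D := by
      rw [Metric.dense_iff]
      rintro ⟨y, hy⟩ ε hε
      obtain ⟨k', m', h1, h2, -⟩ := sub_cell hy hε
      have hz := zpt_mem (n := N) (c := j') (k := k') (m := m') hj3 hjN'
      refine ⟨⟨_, h2 hz⟩, ?_, ?_⟩
      · rw [Metric.mem_ball, Subtype.dist_eq, Real.dist_eq]
        exact h1 _ hz.1
      · exact (zpt_lv hj3 hjN' j').2 le_rfl
    have hcov : D ⊆ ⋃ K, F K := by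
      rintro ⟨y, hy⟩ hl
      have hl' : Lv N j' y := hl
      obtain ⟨a1, a2⟩ := h01 y hy.1
      -- a preimage in `[A, B]`
      have hiv : y ∈ Q '' Set.Icc A B :=
        intermediate_value_Icc hAB hQ.cont.continuousOn ⟨by rw [hA]; exact a1, by rw [hB]; exact a2⟩
      obtain ⟨x, hx, hxy⟩ := hiv
      have h1 := hD x (by rw [hxy]; exact hy) (by rw [hxy]; exact hl')
      obtain ⟨K, hK⟩ := bound_of_not_lv h1
      refine Set.mem_iUnion.2 ⟨K, x, ⟨hx, ?_⟩, hxy⟩
      intro k' m' hk' hr ho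
      have := hK k' m' hk' ho
      omega
    have hdense := hDG.dense_iUnion_interior_of_closed hDd hF hcov
    -- a point of the interior
    have hz := zpt_mem (n := N) (c := j') (k := k) (m := m) hj3 hjN'
    obtain ⟨⟨y, hy⟩, -, hyI⟩ := hdense.inter_open_nonempty Set.univ isOpen_univ ⟨⟨_, hz⟩, trivial⟩
    obtain ⟨K, hK⟩ := Set.mem_iUnion.1 hyI
    obtain ⟨ε, hε, hball⟩ := Metric.isOpen_iff.1 isOpen_interior _ hK
    obtain ⟨k', m', h1, h2, h3⟩ := sub_cell hy hε
    refine ⟨k', m', fun y' hy' => h01 y' (h3 y' hy'), fun x hx hl => ?_⟩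
    have hx' : Q x ∈ Ks N j' k' m' := ks_anti hj1 hx
    have hxE : (⟨Q x, h2 hx'⟩ : Ks N j' k m) ∈ F K := by
      apply interior_subset
      apply hball
      rw [Metric.mem_ball, Subtype.dist_eq, Real.dist_eq]
      exact h1 _ hx'.1
    obtain ⟨x', ⟨-, hx'C⟩, hxx'⟩ := hxE
    have hxx : Q x' = Q x := hxx'
    have e := fibre_const hQ hf hfA hxx
    obtain ⟨k2, m2, h4, h5, h6⟩ := hl K
    exact hx'C k2 m2 h4 h5 (by rw [e]; exact h6)

end ineq

theorem not_reducible {Q : ℝ → ℝ} (hQ : QProp Q) {N n : ℕ} (h : n < N) {f : ℝ → ℝ}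
    (hf : Continuous f) : AA Q N ≠ f ⁻¹' (AA Q n) := by
  intro hfA
  refine step_down hQ hf hfA (n + 1) (N + 1) (by omega) le_rfl ⟨0, 0, ?_, ?_⟩
  · intro y hy
    have h1 := hy.1
    have h2 := hy.2
    simp at h1 h2
    exact ⟨h1, h2⟩
  · intro x _ hl
    have := lv_le hl
    omega

end Pool.Agent.H72.W
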